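import Pool.Agent.H60.PO.Count

/-!
# Sums over primes and quadratic growth
-/

set_option autoImplicit false
set_option linter.unusedSectionVars false

open Function Filter Topology

namespace Pool.Agent.H60.PO

theorem theta_diff : ∀ᶠ x : ℝ in atTop, x / 4 ≤ Chebyshev.theta x - Chebyshev.theta (x / 4) := by
  have h1 := (isLittleO_log_rpow_atTop (by norm_num : (0 : ℝ) < 1 / 2)).def
    (by norm_num : (0 : ℝ) < 1 / 50)
  filter_upwards [h1, eventually_ge_atTop (1000 : ℝ)] with x hx1 hx2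
  have hx0 : 0 < x := by linarith
  have hlog0 : 0 ≤ Real.log x := Real.log_nonneg (by linarith)
  rw [← Real.sqrt_eq_rpow, Real.norm_eq_abs, abs_of_nonneg hlog0, Real.norm_eq_abs,
    abs_of_nonneg (Real.sqrt_nonneg _)] at hx1
  have h2 := Chebyshev.theta_ge' (x := x) (by linarith)
  have h3 := Chebyshev.theta_le_log4_mul_x (x := x / 4) (by linarith)
  have h4 : Real.log 4 = 2 * Real.log 2 := by
    rw [show (4 : ℝ) = 2 ^ 2 by norm_num, Real.log_pow]; norm_num
  have h5 := Real.log_two_gt_d9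
  have h5' := Real.log_two_lt_d9
  have h6 : Real.log (x + 2) ≤ Real.log x + Real.log 2 := by
    rw [← Real.log_mul (by linarith) (by norm_num)]
    exact Real.log_le_log (by linarith) (by linarith)
  have h7 : √x * Real.log x ≤ x / 50 := by
    have e : √x * √x = x := Real.mul_self_sqrt hx0.le
    calc √x * Real.log x ≤ √x * (1 / 50 * √x) :=
          mul_le_mul_of_nonneg_left hx1 (Real.sqrt_nonneg _)
      _ = x / 50 := by rw [← mul_assoc, mul_comm (√x) (1 / 50), mul_assoc, e]; ring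
  have h8 : √x ≤ x := by
    rw [Real.sqrt_le_left hx0.le]
    nlinarith
  rw [h4] at h3
  nlinarith

theorem prime_sum (c D : ℝ) (hc : 0 < c) : ∃ c' > 0, ∀ᶠ T : ℝ in atTop, ∃ P : Finset ℕ,
    (∀ p ∈ P, p.Prime ∧ p ≠ 2 ∧ ((2 * p : ℕ) : ℝ) ≤ T ∧ D ≤ c * p) ∧
    c' * T ^ 2 / Real.log T ≤ ∑ p ∈ P, (c * p - D) := by
  refine ⟨c / 256, by positivity, ?_⟩
  have ht : Tendsto (fun T : ℝ => T / 2) atTop atTop := tendsto_id.atTop_div_const (by norm_num)
  filter_upwards [ht.eventually theta_diff, eventually_ge_atTop (100 : ℝ),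
    eventually_ge_atTop (16 * |D| / c)] with T h1 h2 h3
  set x := T / 2 with hx
  have hD : |D| ≤ c * x / 8 := by
    rw [div_le_iff₀ hc] at h3
    rw [hx]; nlinarith
  have hxpos : 0 < x := by linarith
  refine ⟨(Finset.Ioc ⌊x / 4⌋₊ ⌊x⌋₊).filter Nat.Prime, ?_, ?_⟩
  · intro p hp
    rw [Finset.mem_filter, Finset.mem_Ioc] at hp
    have a1 : x / 4 < p := (Nat.floor_lt (by positivity)).1 hp.1.1
    have a2 : (p : ℝ) ≤ x := (Nat.le_floor_iff hxpos.le).1 hp.1.2
    refine ⟨hp.2, ?_, ?_, ?_⟩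
    · rintro rfl
      norm_num at a1
      linarith
    · push_cast
      linarith
    · have := (abs_le.1 hD).2
      nlinarith
  · have hlogpos : 0 < Real.log x := Real.log_pos (by linarith)
    have hlogT : Real.log x ≤ Real.log T := Real.log_le_log hxpos (by linarith)
    have h4 : Chebyshev.theta x - Chebyshev.theta (x / 4) =
        ∑ p ∈ (Finset.Ioc ⌊x / 4⌋₊ ⌊x⌋₊).filter Nat.Prime, Real.log p := by
      unfold Chebyshev.theta
      have hle : ⌊x / 4⌋₊ ≤ ⌊x⌋₊ := Nat.floor_le_floor (by linarith)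
      have hdis : Disjoint ((Finset.Ioc 0 ⌊x / 4⌋₊).filter Nat.Prime)
          ((Finset.Ioc ⌊x / 4⌋₊ ⌊x⌋₊).filter Nat.Prime) := by
        rw [Finset.disjoint_left]
        intro p hp hp'
        rw [Finset.mem_filter, Finset.mem_Ioc] at hp hp'
        omega
      have hun : (Finset.Ioc 0 ⌊x⌋₊).filter Nat.Prime =
          (Finset.Ioc 0 ⌊x / 4⌋₊).filter Nat.Prime ∪
          (Finset.Ioc ⌊x / 4⌋₊ ⌊x⌋₊).filter Nat.Prime := by
        rw [← Finset.filter_union, Finset.Ioc_union_Ioc_eq_Ioc (Nat.zero_le _) hle]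
      rw [hun, Finset.sum_union hdis]
      ring
    have h5 : x / 4 ≤ ((Finset.Ioc ⌊x / 4⌋₊ ⌊x⌋₊).filter Nat.Prime).card * Real.log x := by
      refine h1.trans ?_
      rw [h4, ← nsmul_eq_mul, ← Finset.sum_const]
      refine Finset.sum_le_sum fun p hp => ?_
      rw [Finset.mem_filter, Finset.mem_Ioc] at hp
      have a2 : (p : ℝ) ≤ x := (Nat.le_floor_iff hxpos.le).1 hp.1.2
      exact Real.log_le_log (by exact_mod_cast hp.2.pos) a2
    have h6 : ((Finset.Ioc ⌊x / 4⌋₊ ⌊x⌋₊).filter Nat.Prime).card * (c * x / 8) ≤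
        ∑ p ∈ (Finset.Ioc ⌊x / 4⌋₊ ⌊x⌋₊).filter Nat.Prime, (c * p - D) := by
      rw [← nsmul_eq_mul, ← Finset.sum_const]
      refine Finset.sum_le_sum fun p hp => ?_
      rw [Finset.mem_filter, Finset.mem_Ioc] at hp
      have a1 : x / 4 < p := (Nat.floor_lt (by positivity)).1 hp.1.1
      have := (abs_le.1 hD).2
      nlinarith
    refine le_trans ?_ h6
    rw [div_le_iff₀ (hlogpos.trans_le hlogT)]
    have h7 : x / 4 ≤ ((Finset.Ioc ⌊x / 4⌋₊ ⌊x⌋₊).filter Nat.Prime).card * Real.log T :=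
      h5.trans (mul_le_mul_of_nonneg_left hlogT (Nat.cast_nonneg _))
    have h8 : c / 256 * T ^ 2 = (x / 4) * (c * x / 8) / 2 := by rw [hx]; ring
    rw [h8]
    have h9 : 0 ≤ c * x / 8 := by positivity
    have h10 : 0 ≤ (x / 4) * (c * x / 8) := by positivity
    calc (x / 4) * (c * x / 8) / 2 ≤ (x / 4) * (c * x / 8) := by linarith
      _ ≤ _ := by
        have := mul_le_mul_of_nonneg_right h7 h9
        linarith

variable {M X : Type*} [AddCommGroup M] [Module ℝ M]
variable {F : M → M} {φ : X → X} {π : M → X} {Λ : AddSubgroup M}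

/-- **Quadratic growth from a linear number of values at every prime.** -/
theorem Sys.growth (h : Sys F φ π Λ) (v : ℕ → M → ℝ)
    (hv : ∀ k w, F^[k] w = -w → v k (F w) = v k w) (c D : ℝ) (hc : 0 < c)
    (hN : ∀ p : ℕ, 0 < p → {w | F^[p] w = -w}.Finite → ∃ A : Finset ℝ, c * p - D ≤ A.card ∧
      ∀ a ∈ A, ∃ w, F^[p] w = -w ∧ v p w = a) :
    ∃ c' > 0, ∀ᶠ T : ℝ in atTop,
      ENNReal.ofReal (c' * T ^ 2 / Real.log T) ≤ ((orbs φ T).encard : ENNReal) := by
  set M1 := {w | F w = -w}.ncard with hM1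
  obtain ⟨c', hc', hT⟩ := prime_sum c (|D| + 1 + M1) hc
  refine ⟨c', hc', ?_⟩
  filter_upwards [hT, eventually_ge_atTop (2 : ℝ)] with T h1 h2
  obtain ⟨P, hP, hsum⟩ := h1
  have h3 := h.count v hv P (fun p hp => ⟨(hP p hp).1, (hP p hp).2.1⟩) T
    (fun p hp => (hP p hp).2.2.1) h2 (fun p => ⌊c * p - |D|⌋₊) (fun p hp hfin => by
      obtain ⟨A, hA, hA2⟩ := hN p (hP p hp).1.pos hfin
      refine ⟨A, ?_, hA2⟩
      have : ⌊c * p - |D|⌋₊ ≤ ⌊(A.card : ℝ)⌋₊ :=
        Nat.floor_le_floor (by have := le_abs_self D; linarith)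
      rwa [Nat.floor_natCast] at this)
  have h4 : ENNReal.ofReal (c' * T ^ 2 / Real.log T) ≤
      ENNReal.ofReal ((∑ p ∈ P, (⌊c * p - |D|⌋₊ - M1) : ℕ) : ℝ) := by
    refine ENNReal.ofReal_le_ofReal (hsum.trans ?_)
    rw [Nat.cast_sum]
    refine Finset.sum_le_sum fun p hp => ?_
    have a1 := (hP p hp).2.2.2
    have a2 : c * p - |D| - 1 < ⌊c * p - |D|⌋₊ := by
      have := Nat.lt_floor_add_one (c * p - |D|)
      linarith
    have a3 : M1 ≤ ⌊c * p - |D|⌋₊ := by
      have : (M1 : ℝ) < ⌊c * p - |D|⌋₊ + 1 := by linarith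
      exact Nat.lt_succ_iff.1 (by exact_mod_cast this)
    rw [Nat.cast_sub a3]
    linarith
  refine h4.trans ?_
  rw [ENNReal.ofReal_natCast]
  have h5 : (((∑ p ∈ P, (⌊c * p - |D|⌋₊ - M1) : ℕ) : ℕ∞) : ENNReal) ≤
      ((orbs φ T).encard : ENNReal) := ENat.toENNReal_le.2 h3
  exact h5

/-- From the lower bound to the exponent. -/
theorem liminf_of_growth {P : ℝ → ENNReal} {c : ℝ} (hc : 0 < c)
    (h : ∀ᶠ T : ℝ in atTop, ENNReal.ofReal (c * T ^ 2 / Real.log T) ≤ P T) :
    (2 : EReal) ≤ liminf (fun T : ℝ => ENNReal.log (P T) / ((Real.log T : ℝ) : EReal)) atTop := by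
  have hlim : Tendsto (fun T : ℝ => (Real.log c + 2 * Real.log T - Real.log (Real.log T)) /
      Real.log T) atTop (𝓝 2) := by
    have t1 : Tendsto (fun s : ℝ => (Real.log c + 2 * s - Real.log s) / s) atTop (𝓝 2) := by
      have a1 : Tendsto (fun s : ℝ => Real.log c / s) atTop (𝓝 0) :=
        tendsto_const_nhds.div_atTop tendsto_id
      have a2 : Tendsto (fun s : ℝ => Real.log s / s) atTop (𝓝 0) := by
        have := Real.isLittleO_log_id_atTop.tendsto_div_nhds_zero
        exact this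
      have a3 : Tendsto (fun s : ℝ => Real.log c / s + 2 - Real.log s / s) atTop
          (𝓝 (0 + 2 - 0)) := (a1.add_const 2).sub a2
      rw [zero_add, sub_zero] at a3
      refine a3.congr' ?_
      filter_upwards [eventually_gt_atTop (0 : ℝ)] with s hs
      field_simp
    exact t1.comp Real.tendsto_log_atTop
  refine le_of_forall_lt fun a ha => ?_
  obtain ⟨r, har, hr⟩ : ∃ r : ℝ, a < (r : EReal) ∧ (r : EReal) < 2 := by
    obtain ⟨r, h1, h2⟩ := EReal.lt_iff_exists_real_btwn.1 ha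
    exact ⟨r, h1, h2⟩
  refine har.trans_le ?_
  refine le_liminf_of_le (by isBoundedDefault) ?_
  have hr2 : r < 2 := by
    have h2 : ((2 : ℝ) : EReal) = 2 := rfl
    rw [← h2] at hr
    exact EReal.coe_lt_coe_iff.1 hr
  filter_upwards [h, hlim.eventually (lt_mem_nhds hr2), eventually_gt_atTop (Real.exp 1)] with T h1 h2 h3
  have hlogT : 1 < Real.log T := by
    rw [← Real.log_exp 1]
    exact Real.log_lt_log (Real.exp_pos 1) h3
  have hT : 0 < T := (Real.exp_pos 1).trans h3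
  have hpos : 0 < c * T ^ 2 / Real.log T := by
    have : 0 < Real.log T := by linarith
    positivity
  have h4 : ((Real.log (c * T ^ 2 / Real.log T) : ℝ) : EReal) ≤ ENNReal.log (P T) := by
    rw [← ENNReal.log_ofReal_of_pos hpos]
    exact ENNReal.log_le_log h1
  have h5 : Real.log (c * T ^ 2 / Real.log T) =
      Real.log c + 2 * Real.log T - Real.log (Real.log T) := by
    rw [Real.log_div (by positivity) (by linarith), Real.log_mul hc.ne' (by positivity),
      Real.log_pow]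
    push_cast
    ring
  calc (r : EReal) ≤ (((Real.log c + 2 * Real.log T - Real.log (Real.log T)) /
        Real.log T : ℝ) : EReal) := EReal.coe_le_coe_iff.2 h2.le
    _ = ((Real.log (c * T ^ 2 / Real.log T) : ℝ) : EReal) / ((Real.log T : ℝ) : EReal) := by
        rw [h5, EReal.coe_div]
    _ ≤ _ := EReal.div_le_div_right_of_nonneg (EReal.coe_nonneg.2 (by linarith)) h4

end Pool.Agent.H60.PO
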