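import Pool.Agent.H60.PO.BU

/-!
# An abstract lower bound for the number of critical values of an even function

Only the theorem of Borsuk and Ulam is used: an odd ascending deformation of a finite-dimensional
space which is uniformly strict away from a finite symmetric set.
-/

set_option autoImplicit false
set_option linter.unusedSectionVars false

open Metric Module

namespace Pool.Agent.H60.PO

section sign

variable {E : Type*} [NormedAddCommGroup E] [NormedSpace ℝ E]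

open Classical in
/-- A choice function on sets. -/
noncomputable def rep (s : Set E) : E := if h : s.Nonempty then h.some else 0

open Classical in
/-- An odd choice of signs. -/
noncomputable def sgn (w : E) : ℝ := if rep {w, -w} = w then 1 else -1

theorem sgn_ne_zero (w : E) : sgn w ≠ 0 := by
  unfold sgn; split_ifs <;> norm_num

theorem sgn_neg {w : E} (hw : w ≠ 0) : sgn (-w) = - sgn w := by
  have h1 : ({-w, - -w} : Set E) = {w, -w} := by rw [neg_neg, Set.pair_comm]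
  have h2 : w ≠ -w := by
    intro h
    have h3 : (2 : ℝ) • w = 0 := by rw [two_smul]; nth_rewrite 2 [h]; exact add_neg_cancel w
    rcases smul_eq_zero.1 h3 with h4 | h4
    · norm_num at h4
    · exact hw h4
  have h3 : rep ({w, -w} : Set E) ∈ ({w, -w} : Set E) := by
    have : ({w, -w} : Set E).Nonempty := ⟨w, by simp⟩
    unfold rep
    rw [dif_pos this]
    exact this.some_mem
  unfold sgn
  rw [h1]
  rcases h3 with h3 | h3
  · rw [if_pos h3, h3, if_neg h2]
  · have h4 : rep ({w, -w} : Set E) = -w := h3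
    rw [h4, if_pos rfl, if_neg (fun h => h2 h.symm), neg_neg]

end sign

section main

variable {E V W : Type*} [NormedAddCommGroup E] [NormedSpace ℝ E]
  [NormedAddCommGroup V] [NormedSpace ℝ V] [FiniteDimensional ℝ V]
  [NormedAddCommGroup W] [NormedSpace ℝ W] [FiniteDimensional ℝ W]

/-- Odd ascending deformations by small steps, uniformly strict away from `Z`. -/
def Push (A : E → ℝ) (α : ℝ) (Z : Finset E) : Prop :=
  ∀ τ > 0, ∃ η : E → E, Continuous η ∧ (∀ z, η (-z) = - η z) ∧ (∀ z, ‖η z - z‖ ≤ τ) ∧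
    (∀ z, A z ≤ A (η z)) ∧
    ∀ δ > 0, ∃ ε > 0, ∀ z, α ≤ A z → (∀ w ∈ Z, δ ≤ ‖z - w‖) →
      A z + ε ≤ A (η z) ∧ ε * ‖η z - z‖ ≤ A (η z) - A z

/-- the clamped distance to a point. -/
noncomputable def clp (a b : ℝ) (w z : E) : ℝ := max a (min b ‖z - w‖)

theorem clp_lip (a b : ℝ) (w z z' : E) : |clp a b w z' - clp a b w z| ≤ ‖z' - z‖ := by
  unfold clp
  calc |max a (min b ‖z' - w‖) - max a (min b ‖z - w‖)|
      ≤ |min b ‖z' - w‖ - min b ‖z - w‖| := by
        have := abs_max_sub_max_le_max a (min b ‖z' - w‖) a (min b ‖z - w‖)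
        simpa using this
    _ ≤ |‖z' - w‖ - ‖z - w‖| := by
        have := abs_min_sub_min_le_max b ‖z' - w‖ b ‖z - w‖
        simpa using this
    _ ≤ ‖(z' - w) - (z - w)‖ := abs_norm_sub_norm_le _ _
    _ = ‖z' - z‖ := by congr 1; abel

/-- One step of the crossing estimate. -/
theorem step_clp {A : E → ℝ} {α δ0 τ ε0 : ℝ} (hε0 : 0 ≤ ε0)
    {Z : Finset E} {η : E → E} (hτ : ∀ z, ‖η z - z‖ ≤ τ) (hmono : ∀ z, A z ≤ A (η z))
    (hstep : ∀ z, α ≤ A z → (∀ w ∈ Z, δ0 ≤ ‖z - w‖) → ε0 * ‖η z - z‖ ≤ A (η z) - A z)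
    {w : E} (hsep : ∀ w' ∈ Z, w' ≠ w → 4 * δ0 ≤ ‖w - w'‖)
    (hδ0 : 0 < δ0) (z : E) (hz : α ≤ A z) :
    ε0 * |clp (δ0 + τ) (2 * δ0 - τ) w (η z) - clp (δ0 + τ) (2 * δ0 - τ) w z| ≤
      A (η z) - A z := by
  have hτz := hτ z
  have htri1 : ‖η z - w‖ ≤ ‖η z - z‖ + ‖z - w‖ := by
    have : η z - w = (η z - z) + (z - w) := by abel
    rw [this]; exact norm_add_le _ _
  have htri2 : ‖z - w‖ ≤ ‖η z - z‖ + ‖η z - w‖ := by
    have : z - w = -(η z - z) + (η z - w) := by abel
    rw [this]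
    refine (norm_add_le _ _).trans ?_
    rw [norm_neg]
  by_cases h1 : ‖z - w‖ < δ0
  · have e1 : clp (δ0 + τ) (2 * δ0 - τ) w (η z) = δ0 + τ := by
      unfold clp
      exact max_eq_left ((min_le_right _ _).trans (by linarith))
    have e2 : clp (δ0 + τ) (2 * δ0 - τ) w z = δ0 + τ := by
      unfold clp
      refine max_eq_left ((min_le_right _ _).trans ?_)
      have : 0 ≤ ‖η z - z‖ := norm_nonneg _
      linarith
    rw [e1, e2, sub_self, abs_zero, mul_zero]
    linarith [hmono z]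
  · push Not at h1
    by_cases h2 : 2 * δ0 < ‖z - w‖
    · have e1 : min (2 * δ0 - τ) ‖η z - w‖ = 2 * δ0 - τ := min_eq_left (by linarith)
      have e2 : min (2 * δ0 - τ) ‖z - w‖ = 2 * δ0 - τ := by
        refine min_eq_left ?_
        have : 0 ≤ ‖η z - z‖ := norm_nonneg _
        linarith
      unfold clp
      rw [e1, e2, sub_self, abs_zero, mul_zero]
      linarith [hmono z]
    · push Not at h2
      have h3 : ∀ w' ∈ Z, δ0 ≤ ‖z - w'‖ := by
        intro w' hw'
        by_cases h : w' = w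
        · rw [h]; exact h1
        · have h4 := hsep w' hw' h
          have h5 : ‖w - w'‖ ≤ ‖z - w‖ + ‖z - w'‖ := by
            have : w - w' = -(z - w) + (z - w') := by abel
            rw [this]
            refine (norm_add_le _ _).trans ?_
            rw [norm_neg]
          linarith
      refine le_trans ?_ (hstep z hz h3)
      exact mul_le_mul_of_nonneg_left (clp_lip _ _ _ _ _) hε0

theorem iter_clp {A : E → ℝ} {α δ0 τ ε0 : ℝ} (hε0 : 0 ≤ ε0)
    {Z : Finset E} {η : E → E} (hτ : ∀ z, ‖η z - z‖ ≤ τ) (hmono : ∀ z, A z ≤ A (η z))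
    (hstep : ∀ z, α ≤ A z → (∀ w ∈ Z, δ0 ≤ ‖z - w‖) → ε0 * ‖η z - z‖ ≤ A (η z) - A z)
    {w : E} (hsep : ∀ w' ∈ Z, w' ≠ w → 4 * δ0 ≤ ‖w - w'‖)
    (hδ0 : 0 < δ0) (z : E) (hz : α ≤ A z) (k : ℕ) :
    α ≤ A (η^[k] z) ∧
    ε0 * |clp (δ0 + τ) (2 * δ0 - τ) w (η^[k] z) - clp (δ0 + τ) (2 * δ0 - τ) w z| ≤
      A (η^[k] z) - A z := by
  induction k with
  | zero => simp [hz]
  | succ k ih =>
    rw [Function.iterate_succ_apply']
    refine ⟨ih.1.trans (hmono _), ?_⟩
    have h := step_clp hε0 hτ hmono hstep hsep hδ0 (η^[k] z) ih.1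
    have h2 : |clp (δ0 + τ) (2 * δ0 - τ) w (η (η^[k] z)) - clp (δ0 + τ) (2 * δ0 - τ) w z| ≤
        |clp (δ0 + τ) (2 * δ0 - τ) w (η (η^[k] z)) - clp (δ0 + τ) (2 * δ0 - τ) w (η^[k] z)| +
        |clp (δ0 + τ) (2 * δ0 - τ) w (η^[k] z) - clp (δ0 + τ) (2 * δ0 - τ) w z| :=
      abs_sub_le _ _ _
    have h3 := mul_le_mul_of_nonneg_left h2 hε0
    rw [mul_add] at h3
    linarith [ih.2]

theorem iter_mono {A : E → ℝ} {η : E → E} (hmono : ∀ z, A z ≤ A (η z)) (z : E) {i j : ℕ}
    (h : i ≤ j) : A (η^[i] z) ≤ A (η^[j] z) := by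
  obtain ⟨d, rfl⟩ := Nat.exists_eq_add_of_le h
  induction d with
  | zero => exact le_rfl
  | succ d ih =>
    have : i + (d + 1) = (i + d) + 1 := by ring
    rw [this, Function.iterate_succ_apply']
    exact (ih (Nat.le_add_right _ _)).trans (hmono _)

theorem iter_neg {η : E → E} (hodd : ∀ z, η (-z) = - η z) (z : E) (k : ℕ) :
    η^[k] (-z) = - η^[k] z := by
  induction k with
  | zero => rfl
  | succ k ih => rw [Function.iterate_succ_apply', ih, hodd, Function.iterate_succ_apply']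

/-- The odd detecting function. -/
noncomputable def det (A : E → ℝ) (Z : Finset E) (δ : ℝ) (η : E → E) (T : ℕ) (c : ℝ) (z : E) : ℝ :=
  ∑ t ∈ Finset.range T, ∑ w ∈ Z with A w = c, sgn w * max 0 (δ - ‖η^[t] z - w‖)

theorem det_cont (A : E → ℝ) (Z : Finset E) (δ : ℝ) {η : E → E} (hη : Continuous η) (T : ℕ)
    (c : ℝ) : Continuous (det A Z δ η T c) := by
  unfold det
  refine continuous_finsetSum _ fun t _ => continuous_finsetSum _ fun w _ => ?_
  have := hη.iterate t
  fun_prop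

theorem det_neg {A : E → ℝ} (hA : ∀ z, A (-z) = A z) {Z : Finset E} (hZ0 : (0 : E) ∉ Z)
    (hZs : ∀ w ∈ Z, -w ∈ Z) (δ : ℝ) {η : E → E} (hodd : ∀ z, η (-z) = - η z) (T : ℕ)
    (c : ℝ) (z : E) : det A Z δ η T c (-z) = - det A Z δ η T c z := by
  unfold det
  rw [← Finset.sum_neg_distrib]
  refine Finset.sum_congr rfl fun t _ => ?_
  rw [← Finset.sum_neg_distrib]
  refine Finset.sum_bij' (fun w _ => -w) (fun w _ => -w) ?_ ?_ ?_ ?_ ?_
  · intro w hw
    rw [Finset.mem_filter] at hw ⊢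
    exact ⟨hZs w hw.1, by rw [hA]; exact hw.2⟩
  · intro w hw
    rw [Finset.mem_filter] at hw ⊢
    exact ⟨hZs w hw.1, by rw [hA]; exact hw.2⟩
  · intro w _; exact neg_neg w
  · intro w _; exact neg_neg w
  · intro w hw
    rw [Finset.mem_filter] at hw
    have h0 : w ≠ 0 := fun h => hZ0 (h ▸ hw.1)
    rw [sgn_neg h0, iter_neg hodd]
    have : ‖-η^[t] z - w‖ = ‖η^[t] z - -w‖ := by
      rw [← norm_neg]; congr 1; abel
    rw [this]
    ring

/-- **Abstract multiplicity theorem.** -/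
theorem finrank_le_add_card (A : E → ℝ) (hAc : Continuous A) (hAe : ∀ z, A (-z) = A z) (α : ℝ)
    (Z : Finset E) (hZ0 : (0 : E) ∉ Z) (hZs : ∀ w ∈ Z, -w ∈ Z) (hpush : Push A α Z)
    (P : E → W) (hPc : Continuous P) (hPo : ∀ z, P (-z) = - P z) (C : ℝ)
    (hP : ∀ z, C < A z → P z ≠ 0) (s : V → E) (hsc : ContinuousOn s (sphere 0 1))
    (hso : ∀ v ∈ sphere (0 : V) 1, s (-v) = - s v)
    (hsA : ∀ v ∈ sphere (0 : V) 1, α ≤ A (s v)) :
    finrank ℝ V ≤ finrank ℝ W + (Z.image A).card := by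
  classical
  by_contra hcon
  push Not at hcon
  -- separation
  obtain ⟨δ0, hδ0, hsep⟩ : ∃ δ0 > 0, ∀ w ∈ Z, ∀ w' ∈ Z, w' ≠ w → 4 * δ0 ≤ ‖w - w'‖ := by
    have : ∀ q ∈ (Z ×ˢ Z).filter (fun q => q.2 ≠ q.1), 0 < ‖q.1 - q.2‖ := by
      intro q hq
      rw [Finset.mem_filter] at hq
      rw [norm_pos_iff, sub_ne_zero]
      exact fun h => hq.2 h.symm
    by_cases hne : ((Z ×ˢ Z).filter (fun q => q.2 ≠ q.1)).Nonempty
    · obtain ⟨q, hq, hmin⟩ := Finset.exists_min_image _ (fun q : E × E => ‖q.1 - q.2‖) hne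
      refine ⟨‖q.1 - q.2‖ / 4, by have := this q hq; positivity, fun w hw w' hw' h => ?_⟩
      have := hmin (w, w') (by
        rw [Finset.mem_filter, Finset.mem_product]; exact ⟨⟨hw, hw'⟩, h⟩)
      simp only at this
      linarith
    · refine ⟨1, one_pos, fun w hw w' hw' h => ?_⟩
      exact absurd ⟨(w, w'), by
        rw [Finset.mem_filter, Finset.mem_product]; exact ⟨⟨hw, hw'⟩, h⟩⟩ hne
  obtain ⟨η, hηc, hηo, hητ, hmono, hstrict⟩ := hpush (δ0 / 4) (by positivity)
  obtain ⟨ε0, hε0, hstep0⟩ := hstrict δ0 hδ0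
  -- oscillation
  obtain ⟨δ, hδ, hδδ0, hosc⟩ : ∃ δ > 0, δ ≤ δ0 ∧ ∀ w ∈ Z, ∀ z, ‖z - w‖ < δ →
      |A z - A w| < ε0 * δ0 / 8 := by
    have h1 : ∀ w ∈ Z, ∃ δ > 0, ∀ z, ‖z - w‖ < δ → |A z - A w| < ε0 * δ0 / 8 := by
      intro w _
      have := Metric.continuous_iff.1 hAc w (ε0 * δ0 / 8) (by positivity)
      obtain ⟨δ, hδ, h⟩ := this
      refine ⟨δ, hδ, fun z hz => ?_⟩
      have := h z (by rw [dist_eq_norm]; exact hz)
      rwa [Real.dist_eq] at this
    choose! d hd hd2 using h1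
    by_cases hne : Z.Nonempty
    · obtain ⟨w0, hw0, hmin⟩ := Finset.exists_min_image Z d hne
      refine ⟨min (d w0) δ0, lt_min (hd w0 hw0) hδ0, min_le_right _ _, fun w hw z hz => ?_⟩
      exact hd2 w hw z (hz.trans_le ((min_le_left _ _).trans (hmin w hw)))
    · refine ⟨δ0, hδ0, le_rfl, fun w hw => absurd ⟨w, hw⟩ hne⟩
  obtain ⟨ε, hε, hstepδ⟩ := hstrict δ hδ
  obtain ⟨T, hT⟩ : ∃ T : ℕ, C < α + T * ε := by
    obtain ⟨T, hT⟩ := exists_nat_gt ((C - α) / ε)
    refine ⟨T, ?_⟩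
    rw [div_lt_iff₀ hε] at hT
    linarith
  -- the odd map
  let F := W × (↥(Z.image A) → ℝ)
  have hF : finrank ℝ F = finrank ℝ W + (Z.image A).card := by
    rw [Module.finrank_prod, Module.finrank_fintype_fun_eq_card, Fintype.card_coe]
  obtain ⟨v, hv, hv0⟩ := borsuk_ulam_odd (E := V) (F := F)
    (by rw [hF]; exact hcon)
    (fun v => (P (η^[T] (s v)), fun c => det A Z δ η T c.1 (s v)))
    (by
      refine ContinuousOn.prodMk ?_ ?_
      · exact (hPc.comp (hηc.iterate T)).comp_continuousOn hsc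
      · exact continuousOn_pi.2 fun c => (det_cont A Z δ hηc T c.1).comp_continuousOn hsc)
    (by
      intro v hv
      have h1 := hso v hv
      simp only [h1]
      rw [iter_neg hηo, hPo]
      refine Prod.ext rfl ?_
      funext c
      exact det_neg hAe hZ0 hZs δ hηo T c.1 (s v))
  have hv1 : P (η^[T] (s v)) = 0 := congrArg Prod.fst hv0
  have hv2 : ∀ c ∈ Z.image A, det A Z δ η T c (s v) = 0 := fun c hc =>
    congrFun (congrArg Prod.snd hv0) ⟨c, hc⟩
  set z := s v with hz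
  have hzα : α ≤ A z := hsA v hv
  have hα : ∀ t, α ≤ A (η^[t] z) := fun t =>
    hzα.trans (by simpa using iter_mono hmono z (Nat.zero_le t))
  -- some ball is visited
  obtain ⟨t, ht, w, hw, htw⟩ : ∃ t < T, ∃ w ∈ Z, ‖η^[t] z - w‖ < δ := by
    by_contra hno
    push Not at hno
    have : ∀ t ≤ T, α + t * ε ≤ A (η^[t] z) := by
      intro t
      induction t with
      | zero => intro _; simpa using hzα
      | succ t ih =>
        intro ht
        have h1 := ih (by omega)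
        have h2 := (hstepδ (η^[t] z) (hα t) (hno t (by omega))).1
        rw [Function.iterate_succ_apply']
        push_cast
        linarith
    exact hP _ (hT.trans_le (this T le_rfl)) hv1
  -- no other point of the same value
  have hcross : ∀ t1 t2 : ℕ, t1 ≤ t2 → ∀ w1 ∈ Z, ∀ w2 ∈ Z, A w1 = A w2 →
      ‖η^[t1] z - w1‖ < δ → ‖η^[t2] z - w2‖ < δ → w2 = w1 := by
    intro t1 t2 ht12 w1 hw1 w2 hw2 hAw h1 h2
    by_contra hne
    obtain ⟨d, rfl⟩ := Nat.exists_eq_add_of_le ht12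
    have hsep1 := hsep w1 hw1 w2 hw2 hne
    have h3 := (iter_clp (τ := δ0 / 4) hε0.le hητ hmono
      (fun z hz h => (hstep0 z hz h).2) (fun w' hw' h => hsep w1 hw1 w' hw' h) hδ0
      (η^[t1] z) (hα t1) d).2
    rw [← Function.iterate_add_apply] at h3
    have h4 : η^[d + t1] z = η^[t1 + d] z := by rw [add_comm]
    rw [h4] at h3
    have e1 : clp (δ0 + δ0 / 4) (2 * δ0 - δ0 / 4) w1 (η^[t1] z) = δ0 + δ0 / 4 := by
      unfold clp
      exact max_eq_left ((min_le_right _ _).trans (by linarith))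
    have h5 : 2 * δ0 - δ0 / 4 ≤ ‖η^[t1 + d] z - w1‖ := by
      have : ‖w1 - w2‖ ≤ ‖η^[t1 + d] z - w1‖ + ‖η^[t1 + d] z - w2‖ := by
        have : w1 - w2 = -(η^[t1 + d] z - w1) + (η^[t1 + d] z - w2) := by abel
        rw [this]
        refine (norm_add_le _ _).trans ?_
        rw [norm_neg]
      linarith
    have e2 : clp (δ0 + δ0 / 4) (2 * δ0 - δ0 / 4) w1 (η^[t1 + d] z) = 2 * δ0 - δ0 / 4 := by
      unfold clp
      rw [min_eq_left h5]
      exact max_eq_right (by linarith)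
    rw [e1, e2] at h3
    have h6 := abs_lt.1 (hosc w1 hw1 _ h1)
    have h7 := abs_lt.1 (hosc w2 hw2 _ h2)
    have h8 : |2 * δ0 - δ0 / 4 - (δ0 + δ0 / 4)| = δ0 / 2 := by
      rw [abs_of_pos (by linarith)]; ring
    rw [h8] at h3
    have : 0 < ε0 * δ0 := mul_pos hε0 hδ0
    nlinarith
  have hsame : ∀ t' < T, ∀ w' ∈ Z, A w' = A w → ‖η^[t'] z - w'‖ < δ → w' = w := by
    intro t' _ w' hw' hA h
    rcases le_total t t' with h1 | h1
    · exact hcross t t' h1 w hw w' hw' hA.symm htw h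
    · exact (hcross t' t h1 w' hw' w hw hA h htw).symm
  -- the detecting function does not vanish
  have hdet := hv2 (A w) (Finset.mem_image_of_mem A hw)
  have hdet2 : det A Z δ η T (A w) z =
      sgn w * ∑ t ∈ Finset.range T, max 0 (δ - ‖η^[t] z - w‖) := by
    unfold det
    rw [Finset.mul_sum]
    refine Finset.sum_congr rfl fun t' ht' => ?_
    rw [Finset.mem_range] at ht'
    rw [Finset.sum_eq_single w]
    · intro w' hw' hne
      rw [Finset.mem_filter] at hw'
      have : δ ≤ ‖η^[t'] z - w'‖ := by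
        by_contra h
        push Not at h
        exact hne (hsame t' ht' w' hw'.1 hw'.2 h)
      rw [max_eq_left (by linarith), mul_zero]
    · intro h
      exact absurd (Finset.mem_filter (p := fun w' => A w' = A w).2 ⟨hw, rfl⟩) h
  rw [hdet2] at hdet
  rcases mul_eq_zero.1 hdet with h | h
  · exact sgn_ne_zero w h
  · have h1 : 0 < ∑ t ∈ Finset.range T, max 0 (δ - ‖η^[t] z - w‖) := by
      refine Finset.sum_pos' (fun _ _ => le_max_left _ _) ⟨t, Finset.mem_range.2 ht, ?_⟩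
      exact lt_max_of_lt_right (by linarith)
    exact h1.ne' h

end main

end Pool.Agent.H60.PO
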