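import Pool.Agent.H91.Borsuk.Borsuk

/-!
# Borsuk-Ulam theorem for odd maps between finite-dimensional normed spaces
-/

set_option autoImplicit false

namespace Pool.Agent.H60.PO

variable {E F : Type*} [NormedAddCommGroup E] [NormedSpace ℝ E] [FiniteDimensional ℝ E]
  [NormedAddCommGroup F] [NormedSpace ℝ F] [FiniteDimensional ℝ F]

/-- **Borsuk-Ulam theorem**: an odd continuous map from the unit sphere of `E` to a space of
smaller dimension has a zero. -/
theorem borsuk_ulam_odd (hdim : Module.finrank ℝ F < Module.finrank ℝ E) (g : E → F)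
    (hg : ContinuousOn g (Metric.sphere (0 : E) 1))
    (hodd : ∀ x ∈ Metric.sphere (0 : E) 1, g (-x) = - g x) :
    ∃ x ∈ Metric.sphere (0 : E) 1, g x = 0 := by
  obtain ⟨k, hk⟩ : ∃ k, k = Module.finrank ℝ F := ⟨_, rfl⟩
  obtain ⟨ι, hι⟩ : ∃ ι : (EuclideanSpace ℝ (Fin k) × ℝ) →ₗ[ℝ] E, Function.Injective ι := by
    have hfr : Module.finrank ℝ (EuclideanSpace ℝ (Fin k) × ℝ) ≤ Module.finrank ℝ E := by
      rw [Module.finrank_prod, finrank_euclideanSpace_fin, Module.finrank_self]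
      omega
    let b := Module.finBasis ℝ E
    let d := Module.finBasis ℝ (EuclideanSpace ℝ (Fin k) × ℝ)
    have hv : LinearIndependent ℝ (b ∘ Fin.castLE hfr) :=
      b.linearIndependent.comp _ (Fin.castLE_injective hfr)
    have h2 := linearIndependent_iff_injective_fintypeLinearCombination.1 hv
    exact ⟨(Fintype.linearCombination ℝ (b ∘ Fin.castLE hfr)) ∘ₗ d.equivFun.toLinearMap,
      h2.comp d.equivFun.injective⟩
  have hιc : Continuous ι := LinearMap.continuous_of_finiteDimensional ι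
  have hι0 : ∀ p : EuclideanSpace ℝ (Fin k) × ℝ, ‖p.1‖ ^ 2 + p.2 ^ 2 = 1 → ι p ≠ 0 := by
    intro p hp h
    have h0 : p = 0 := hι (by rw [h, map_zero])
    rw [h0] at hp
    simp at hp
  have hsph : ∀ p : EuclideanSpace ℝ (Fin k) × ℝ, ‖p.1‖ ^ 2 + p.2 ^ 2 = 1 →
      ‖ι p‖⁻¹ • ι p ∈ Metric.sphere (0 : E) 1 := by
    intro p hp
    rw [mem_sphere_zero_iff_norm, norm_smul, norm_inv, norm_norm,
      inv_mul_cancel₀ (norm_ne_zero_iff.2 (hι0 p hp))]
  obtain ⟨p, hp, hp0⟩ := Pool.Agent.H91.Borsuk.borsuk_ulam hk.symm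
    (fun p => g (‖ι p‖⁻¹ • ι p)) (by
      refine hg.comp ?_ fun p hp => hsph p hp
      refine ContinuousOn.smul ?_ hιc.continuousOn
      exact hιc.norm.continuousOn.inv₀ fun p hp => norm_ne_zero_iff.2 (hι0 p hp))
  refine ⟨_, hsph p hp, ?_⟩
  have h1 : ‖ι (-p)‖⁻¹ • ι (-p) = - (‖ι p‖⁻¹ • ι p) := by
    rw [map_neg, norm_neg, smul_neg]
  simp only [h1] at hp0
  rw [hodd _ (hsph p hp)] at hp0
  have h2 : (2 : ℝ) • g (‖ι p‖⁻¹ • ι p) = 0 := by
    rw [two_smul]
    nth_rewrite 1 [hp0]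
    exact neg_add_cancel _
  rcases smul_eq_zero.1 h2 with h | h
  · norm_num at h
  · exact h

end Pool.Agent.H60.PO
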