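import Pool.Agent.H60.PO.Dyn

/-!
# Concatenation of blocks on which the action is positive
-/

set_option autoImplicit false
set_option linter.unusedSectionVars false

open Metric Module

namespace Pool.Agent.H60.PO

universe u

variable {V : Type u} [NormedAddCommGroup V] [InnerProductSpace ℝ V] [FiniteDimensional ℝ V]

open scoped RealInnerProductSpace

/-- The action of a periodic sequence. -/
noncomputable def pact {m : ℕ} [NeZero m] (G : ℕ → Gen V) (w : (Fin m → V) × (Fin m → V)) : ℝ :=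
  ∑ i : Fin m, (⟪w.2 i, w.1 (i + 1) - w.1 i⟫ - (G i).S (w.1 (i + 1), w.2 i))

section emb

variable {B m K : ℕ} [NeZero m] [NeZero K]

theorem div_lt_aux {i : ℕ} (h : i < B * m) : i / m < B :=
  Nat.div_lt_of_lt_mul (by rwa [mul_comm])

theorem mod_lt_aux (i : ℕ) : i % m < m := Nat.mod_lt _ (Nat.pos_of_ne_zero (NeZero.ne m))

/-- Concatenation of blocks, extended by zero. -/
def embV (B m K : ℕ) [NeZero m] : (Fin B → Fin m → V) →ₗ[ℝ] (Fin K → V) where
  toFun u i := if h : (i : ℕ) < B * m then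
    u ⟨i / m, div_lt_aux h⟩ ⟨i % m, mod_lt_aux (m := m) i⟩ else 0
  map_add' u v := by
    ext1 i
    by_cases h : (i : ℕ) < B * m
    · simp only [Pi.add_apply, dif_pos h]
    · simp only [Pi.add_apply, dif_neg h, add_zero]
  map_smul' c u := by
    ext1 i
    by_cases h : (i : ℕ) < B * m
    · simp only [Pi.smul_apply, dif_pos h, RingHom.id_apply]
    · simp only [Pi.smul_apply, dif_neg h, smul_zero]

theorem embV_apply (u : Fin B → Fin m → V) (i : Fin K) :
    embV B m K u i = if h : (i : ℕ) < B * m then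
      u ⟨i / m, div_lt_aux h⟩ ⟨i % m, mod_lt_aux (m := m) i⟩ else 0 := rfl

theorem embV_zero (u : Fin B → Fin m → V) (h0 : ∀ b, u b 0 = 0) : embV B m K u 0 = 0 := by
  rw [embV_apply]
  split_ifs with h
  · have : (⟨((0 : Fin K) : ℕ) % m, mod_lt_aux (m := m) _⟩ : Fin m) = 0 := by
      apply Fin.ext
      simp
    rw [this, h0]
  · rfl

theorem nxt_emb (hBK : B * m ≤ K) (u : Fin B → Fin m → V) (h0 : ∀ b, u b 0 = 0) (j : Fin K) :
    nxt (embV B m K u) j = if h : (j : ℕ) < B * m then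
      u ⟨j / m, div_lt_aux h⟩ (⟨j % m, mod_lt_aux (m := m) j⟩ + 1) else 0 := by
  have hm : 0 < m := Nat.pos_of_ne_zero (NeZero.ne m)
  obtain ⟨j, hj⟩ := j
  have hdm := Nat.div_add_mod j m
  have hmod := Nat.mod_lt j hm
  by_cases hj1 : j + 1 < K
  · rw [nxt_lt _ hj1, embV_apply]
    simp only
    by_cases hc : j % m + 1 < m
    · have e1 : (j + 1) / m = j / m := by
        have : j + 1 = j % m + 1 + m * (j / m) := by omega
        rw [this, Nat.add_mul_div_left _ _ hm, Nat.div_eq_of_lt hc, zero_add]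
      have e2 : (j + 1) % m = j % m + 1 := by
        have : j + 1 = j % m + 1 + m * (j / m) := by omega
        rw [this, Nat.add_mul_mod_self_left, Nat.mod_eq_of_lt hc]
      by_cases h : j < B * m
      · have h' : j + 1 < B * m := by
          have h3 : j / m + 1 ≤ B := div_lt_aux h
          have h4 : m * (j / m + 1) ≤ m * B := Nat.mul_le_mul_left m h3
          rw [mul_add, mul_one, mul_comm m B] at h4
          omega
        rw [dif_pos h', dif_pos h]
        rw [fin_succ_val hc]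
        have f1 : (⟨(j + 1) / m, div_lt_aux h'⟩ : Fin B) = ⟨j / m, div_lt_aux h⟩ := Fin.ext e1
        have f2 : (⟨(j + 1) % m, mod_lt_aux (m := m) (j + 1)⟩ : Fin m) = ⟨j % m + 1, hc⟩ :=
          Fin.ext e2
        rw [f1, f2]
      · rw [dif_neg h, dif_neg (by omega)]
    · have hc' : j % m + 1 = m := by omega
      have e2 : (j + 1) % m = 0 := by
        have : j + 1 = m * (j / m + 1) := by rw [mul_add, mul_one]; omega
        rw [this, Nat.mul_mod_right]
      have e3 : (⟨j % m, mod_lt_aux (m := m) j⟩ + 1 : Fin m) = 0 := fin_last_add hc'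
      have e4 : (⟨(j + 1) % m, mod_lt_aux (m := m) (j + 1)⟩ : Fin m) = 0 := Fin.ext (by
        rw [Fin.val_zero]; exact e2)
      rw [e3]
      split_ifs <;> simp [e4, h0]
  · have hj2 : j + 1 = K := by omega
    rw [nxt_last _ hj2, embV_zero u h0, neg_zero]
    split_ifs with h
    · simp only at h
      have h3 : j / m + 1 ≤ B := div_lt_aux h
      have h4 : m * (j / m + 1) ≤ m * B := Nat.mul_le_mul_left m h3
      rw [mul_add, mul_one, mul_comm m B] at h4
      have hc' : j % m + 1 = m := by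
        have : B * m = j + 1 := by omega
        have h5 : m ∣ j + 1 := ⟨B, by rw [← this, mul_comm]⟩
        have h6 : m ∣ j % m + 1 := by
          have e : j + 1 = m * (j / m) + (j % m + 1) := by omega
          rw [e] at h5
          exact (Nat.dvd_add_right (Dvd.intro _ rfl)).1 h5
        have := Nat.le_of_dvd (Nat.succ_pos _) h6
        omega
      have e3 : (⟨j % m, mod_lt_aux (m := m) j⟩ + 1 : Fin m) = 0 := fin_last_add hc'
      rw [e3, h0]
    · rfl

theorem sum_blocks (hBK : B * m ≤ K) (f : Fin B → Fin m → ℝ) :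
    ∑ j : Fin K, (if h : (j : ℕ) < B * m then
      f ⟨j / m, div_lt_aux h⟩ ⟨j % m, mod_lt_aux (m := m) j⟩ else 0) = ∑ b, ∑ i, f b i := by
  let g : ℕ → ℝ := fun j => if h : j < B * m then
      f ⟨j / m, div_lt_aux h⟩ ⟨j % m, mod_lt_aux (m := m) j⟩ else 0
  have hm : 0 < m := Nat.pos_of_ne_zero (NeZero.ne m)
  change ∑ j : Fin K, g j = _
  rw [← Finset.sum_range]
  have h1 : ∑ j ∈ Finset.range K, g j = ∑ j ∈ Finset.range (B * m), g j := by
    symm
    refine Finset.sum_subset (Finset.range_subset_range.2 hBK) fun j _ hj => ?_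
    rw [Finset.mem_range] at hj
    exact dif_neg hj
  rw [h1, Finset.sum_range, ← finProdFinEquiv.sum_comp, Fintype.sum_prod_type]
  refine Finset.sum_congr rfl fun b _ => Finset.sum_congr rfl fun i _ => ?_
  have e : ((finProdFinEquiv (b, i) : Fin (B * m)) : ℕ) = i + m * b := rfl
  have hlt : (i : ℕ) + m * b < B * m := by rw [← e]; exact Fin.is_lt _
  change g ((finProdFinEquiv (b, i) : Fin (B * m)) : ℕ) = _
  rw [e]
  change (if h : (i : ℕ) + m * b < B * m then
      f ⟨(i + m * b) / m, div_lt_aux h⟩ ⟨(i + m * b) % m, mod_lt_aux (m := m) _⟩ else 0) = _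
  rw [dif_pos hlt]
  have e1 : (⟨((i : ℕ) + m * b) / m, div_lt_aux hlt⟩ : Fin B) = b := by
    apply Fin.ext
    change ((i : ℕ) + m * b) / m = b
    rw [Nat.add_mul_div_left _ _ hm, Nat.div_eq_of_lt i.2, zero_add]
  have e2 : (⟨((i : ℕ) + m * b) % m, mod_lt_aux (m := m) _⟩ : Fin m) = i := by
    apply Fin.ext
    change ((i : ℕ) + m * b) % m = i
    rw [Nat.add_mul_mod_self_left, Nat.mod_eq_of_lt i.2]
  rw [e1, e2]

theorem act_emb {G : ℕ → Gen V} (hG0 : ∀ j, (G j).S 0 = 0) (hper : ∀ j, G (j + m) = G j)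
    (hBK : B * m ≤ K) (u : Fin B → (Fin m → V) × (Fin m → V)) (h0 : ∀ b, (u b).1 0 = 0) :
    act G (embV B m K (fun b => (u b).1), embV B m K (fun b => (u b).2)) =
      ∑ b, pact G (u b) := by
  have hmod : ∀ j, G j = G (j % m) := by
    intro j
    have h : ∀ k i, G (i + m * k) = G i := by
      intro k
      induction k with
      | zero => intro i; simp
      | succ k ih => intro i; rw [Nat.mul_succ, ← add_assoc, hper, ih]
    have := h (j / m) (j % m)
    rw [← this, Nat.mod_add_div]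
  unfold act pact
  rw [← sum_blocks hBK]
  refine Finset.sum_congr rfl fun j _ => ?_
  simp only
  rw [nxt_emb hBK _ h0, embV_apply, embV_apply]
  by_cases h : (j : ℕ) < B * m
  · simp only [dif_pos h]
    rw [hmod j]
  · simp only [dif_neg h]
    have : ((0, 0) : V × V) = 0 := rfl
    rw [this, hG0]
    simp

end emb

/-- The positive index of the periodic action at the centre exceeds the neutral dimension. -/
def PosIndex (G : ℕ → Gen V) (m : ℕ) [NeZero m] : Prop :=
  ∃ U : Submodule ℝ ((Fin m → V) × (Fin m → V)), (m + 1) * finrank ℝ V < finrank ℝ U ∧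
    ∃ a > 0, ∃ ρ > 0, ∀ w ∈ U, ‖w‖ ≤ ρ → a * ‖w‖ ^ 2 ≤ pact G w

/-- **The test sphere.** -/
theorem exists_sphere {G : ℕ → Gen V} (hG0 : ∀ j, (G j).S 0 = 0) {m : ℕ} [NeZero m]
    (hper : ∀ j, G (j + m) = G j) (hidx : PosIndex G m) (K B : ℕ) [NeZero K] (hBK : B * m ≤ K) :
    ∃ (V' : Type u) (_ : NormedAddCommGroup V') (_ : NormedSpace ℝ V')
      (_ : FiniteDimensional ℝ V') (s : V' → (Fin K → V) × (Fin K → V)) (α : ℝ), 0 < α ∧
      ContinuousOn s (sphere 0 1) ∧ (∀ v ∈ sphere (0 : V') 1, s (-v) = - s v) ∧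
      (∀ v ∈ sphere (0 : V') 1, α ≤ act G (s v)) ∧
      B * (m * finrank ℝ V + 1) ≤ finrank ℝ V' := by
  obtain ⟨U, hU, a, ha, ρ, hρ, hpos⟩ := hidx
  let f : (Fin m → V) × (Fin m → V) →ₗ[ℝ] V :=
    LinearMap.proj (0 : Fin m) ∘ₗ LinearMap.fst ℝ (Fin m → V) (Fin m → V)
  let Ub : Submodule ℝ ((Fin m → V) × (Fin m → V)) := U ⊓ LinearMap.ker f
  have hUb : m * finrank ℝ V + 1 ≤ finrank ℝ Ub := by
    have h1 := LinearMap.finrank_range_add_finrank_ker f
    have h2 : finrank ℝ (LinearMap.range f) ≤ finrank ℝ V := Submodule.finrank_le _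
    have h3 := Submodule.finrank_sup_add_finrank_inf_eq U (LinearMap.ker f)
    have h4 : finrank ℝ (U ⊔ LinearMap.ker f : Submodule ℝ ((Fin m → V) × (Fin m → V))) ≤
      finrank ℝ ((Fin m → V) × (Fin m → V)) := Submodule.finrank_le _
    rw [add_mul, one_mul] at hU
    change m * finrank ℝ V + 1 ≤ finrank ℝ (U ⊓ LinearMap.ker f : Submodule ℝ _)
    omega
  have hker : ∀ u : Ub, (u : (Fin m → V) × (Fin m → V)).1 0 = 0 := fun u =>
    LinearMap.mem_ker.1 u.2.2
  let ι : (Fin B → Ub) →ₗ[ℝ] (Fin K → V) × (Fin K → V) := LinearMap.prod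
    (embV B m K ∘ₗ LinearMap.pi fun b => (LinearMap.fst ℝ (Fin m → V) (Fin m → V)) ∘ₗ
      Ub.subtype ∘ₗ LinearMap.proj b)
    (embV B m K ∘ₗ LinearMap.pi fun b => (LinearMap.snd ℝ (Fin m → V) (Fin m → V)) ∘ₗ
      Ub.subtype ∘ₗ LinearMap.proj b)
  have hι : ∀ u : Fin B → Ub, ι u =
      (embV B m K (fun b => (u b : (Fin m → V) × (Fin m → V)).1),
       embV B m K (fun b => (u b : (Fin m → V) × (Fin m → V)).2)) := fun u => rfl
  refine ⟨Fin B → Ub, inferInstance, inferInstance, inferInstance, fun v => ι (ρ • v), a * ρ ^ 2,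
    by positivity, ?_, ?_, ?_, ?_⟩
  · have h1 : Continuous ι := LinearMap.continuous_of_finiteDimensional ι
    exact (h1.comp (continuous_const_smul ρ)).continuousOn
  · intro v _
    change ι (ρ • -v) = - ι (ρ • v)
    rw [smul_neg, map_neg]
  · intro v hv
    rw [mem_sphere_zero_iff_norm] at hv
    change a * ρ ^ 2 ≤ act G (ι (ρ • v))
    rw [hι, act_emb hG0 hper hBK
      (fun b => (((ρ • v) b : Ub) : (Fin m → V) × (Fin m → V))) (fun b => hker _)]
    have h1 : ∀ b, a * ‖(ρ • v) b‖ ^ 2 ≤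
        pact G (((ρ • v) b : Ub) : (Fin m → V) × (Fin m → V)) := by
      intro b
      refine hpos _ ((ρ • v) b : Ub).2.1 ?_
      have h2 : ‖(ρ • v) b‖ ≤ ρ := by
        rw [Pi.smul_apply, norm_smul, Real.norm_eq_abs, abs_of_pos hρ]
        have := norm_le_pi_norm v b
        rw [hv] at this
        nlinarith
      exact h2
    have h3 : ∃ b, ‖v b‖ = 1 := by
      by_contra hno
      push Not at hno
      have h4 : ∀ b, ‖v b‖ < 1 := fun b => lt_of_le_of_ne (by
        have := norm_le_pi_norm v b; rwa [hv] at this) (hno b)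
      have := (pi_norm_lt_iff one_pos).2 h4
      linarith
    obtain ⟨b, hb⟩ := h3
    calc a * ρ ^ 2 = a * ‖(ρ • v) b‖ ^ 2 := by
          rw [Pi.smul_apply, norm_smul, Real.norm_eq_abs, abs_of_pos hρ, hb, mul_one]
      _ ≤ ∑ b, a * ‖(ρ • v) b‖ ^ 2 :=
          Finset.single_le_sum (f := fun b => a * ‖(ρ • v) b‖ ^ 2)
            (fun b _ => by positivity) (Finset.mem_univ b)
      _ ≤ _ := Finset.sum_le_sum fun b _ => h1 b
  · rw [Module.finrank_pi_fintype, Finset.sum_const, Finset.card_univ, Fintype.card_fin,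
      smul_eq_mul]
    exact Nat.mul_le_mul_left B hUb

/-- **Many values of the action on antiperiodic orbits.** -/
theorem many_values {G : ℕ → Gen V} {ψ : ℕ → V × V → V × V} {b L : ℝ}
    (hG : ∀ j, (G j).OK b L) (hL : 0 ≤ L) (hrel : ∀ j, Rel (G j) (ψ j))
    {m : ℕ} [NeZero m] (hper : ∀ j, G (j + m) = G j) (hidx : PosIndex G m)
    (K : ℕ) [NeZero K] (hfin : {w : V × V | flw ψ K w = -w}.Finite) :
    ∃ F : Finset ℝ, K / m ≤ F.card + m * finrank ℝ V ∧
      ∀ c ∈ F, 0 < c ∧ ∃ w, flw ψ K w = -w ∧ tot G ψ K w = c := by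
  obtain ⟨V', i1, i2, i3, s, α, hα, hsc, hso, hsA, hdim⟩ :=
    exists_sphere (fun j => (hG j).zero) hper hidx K (K / m) (Nat.div_mul_le_self K m)
  obtain ⟨F, hF, hF2⟩ := exists_values hG hL hrel hfin hα s hsc hso hsA
  refine ⟨F, ?_, hF2⟩
  have h1 := hdim.trans hF
  have hm : 0 < m := Nat.pos_of_ne_zero (NeZero.ne m)
  have h2 : K ≤ m * (K / m) + m := by
    have := Nat.div_add_mod K m
    have := Nat.mod_lt K hm
    omega
  have h3 : K * finrank ℝ V ≤ (m * (K / m) + m) * finrank ℝ V := Nat.mul_le_mul_right _ h2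
  have h4 : (m * (K / m) + m) * finrank ℝ V =
      K / m * (m * finrank ℝ V) + m * finrank ℝ V := by ring
  have h5 : K / m * (m * finrank ℝ V + 1) = K / m * (m * finrank ℝ V) + K / m := by ring
  omega

end Pool.Agent.H60.PO
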