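import Mathlib

/-!
# Counting the orbits of antiperiodic points on a quotient
-/

set_option autoImplicit false
set_option linter.unusedSectionVars false

open Function

namespace Pool.Agent.H60.PO

/-- The set of primitive periodic orbits of period at most `T`. -/
def orbs {X : Type*} (φ : X → X) (T : ℝ) : Set (Set X) :=
  {O | ∃ x, 0 < minimalPeriod φ x ∧ (minimalPeriod φ x : ℝ) ≤ T ∧ O = {y | ∃ k : ℕ, y = φ^[k] x}}

variable {M X : Type*} [AddCommGroup M] [Module ℝ M]

/-- A map of a vector space commuting with a lattice and with the central symmetry. -/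
structure Sys (F : M → M) (φ : X → X) (π : M → X) (Λ : AddSubgroup M) : Prop where
  pi_eq : ∀ a b, π a = π b ↔ a - b ∈ Λ
  equiv : ∀ w, ∀ e ∈ Λ, F (w + e) = F w + e
  odd : ∀ w, F (-w) = - F w
  semi : ∀ w, φ (π w) = π (F w)

variable {F : M → M} {φ : X → X} {π : M → X} {Λ : AddSubgroup M}

theorem Sys.iter_semi (h : Sys F φ π Λ) (k : ℕ) (w : M) : φ^[k] (π w) = π (F^[k] w) := by
  induction k with
  | zero => rfl
  | succ k ih => rw [iterate_succ_apply', ih, h.semi, iterate_succ_apply']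

theorem Sys.iter_equiv (h : Sys F φ π Λ) (k : ℕ) (w e : M) (he : e ∈ Λ) :
    F^[k] (w + e) = F^[k] w + e := by
  induction k with
  | zero => rfl
  | succ k ih => rw [iterate_succ_apply', ih, h.equiv _ e he, iterate_succ_apply']

theorem Sys.iter_odd (h : Sys F φ π Λ) (k : ℕ) (w : M) : F^[k] (-w) = - F^[k] w := by
  induction k with
  | zero => rfl
  | succ k ih => rw [iterate_succ_apply', ih, h.odd, iterate_succ_apply']

theorem smul_eq_zero_aux {k : ℕ} (hk : k ≠ 0) {e : M} (h : k • e = 0) : e = 0 := by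
  rw [← Nat.cast_smul_eq_nsmul ℝ] at h
  rcases smul_eq_zero.1 h with h | h
  · exact absurd (Nat.cast_eq_zero.1 h) hk
  · exact h

theorem Sys.pi_inj (h : Sys F φ π Λ) {k : ℕ} {w w' : M} (hw : F^[k] w = -w)
    (hw' : F^[k] w' = -w') (he : π w = π w') : w = w' := by
  have h1 := (h.pi_eq w w').1 he
  have h2 : w = w' + (w - w') := by abel
  have h3 : F^[k] w = F^[k] w' + (w - w') := by
    nth_rewrite 1 [h2]
    exact h.iter_equiv k w' _ h1
  rw [hw, hw'] at h3
  have h4 : 2 • (w - w') = 0 := by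
    rw [two_nsmul]
    have : w - w' + (w - w') = (-w' + (w - w')) - (-w) := by abel
    rw [this, ← h3, sub_self]
  exact sub_eq_zero.1 (smul_eq_zero_aux two_ne_zero h4)

theorem Sys.sol_shift (h : Sys F φ π Λ) {k : ℕ} {w : M} (hw : F^[k] w = -w) (j : ℕ) :
    F^[k] (F^[j] w) = -(F^[j] w) := by
  rw [← iterate_add_apply, add_comm, iterate_add_apply, hw, h.iter_odd]

theorem Sys.sol_double (h : Sys F φ π Λ) {k : ℕ} {w : M} (hw : F^[k] w = -w) :
    F^[2 * k] w = w := by
  rw [two_mul, iterate_add_apply, hw, h.iter_odd, hw, neg_neg]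

theorem Sys.isPeriodic (h : Sys F φ π Λ) {k : ℕ} {w : M} (hw : F^[k] w = -w) :
    IsPeriodicPt φ (2 * k) (π w) := by
  change φ^[2 * k] (π w) = π w
  rw [h.iter_semi, h.sol_double hw]

theorem Sys.period_pos (h : Sys F φ π Λ) {k : ℕ} (hk : 0 < k) {w : M} (hw : F^[k] w = -w) :
    0 < minimalPeriod φ (π w) :=
  (h.isPeriodic hw).minimalPeriod_pos (by omega)

theorem Sys.period_le (h : Sys F φ π Λ) {k : ℕ} (hk : 0 < k) {w : M} (hw : F^[k] w = -w) :
    minimalPeriod φ (π w) ≤ 2 * k :=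
  (h.isPeriodic hw).minimalPeriod_le (by omega)

theorem Sys.period_eq (h : Sys F φ π Λ) {p : ℕ} (hp : p.Prime) (hodd : p ≠ 2) {w : M}
    (hw : F^[p] w = -w) (hne : F w ≠ -w) : minimalPeriod φ (π w) = 2 * p := by
  have hdvd : minimalPeriod φ (π w) ∣ 2 * p := (h.isPeriodic hw).minimalPeriod_dvd
  have hp2 : Odd p := hp.odd_of_ne_two hodd
  -- not a divisor of p
  have h1 : ¬ minimalPeriod φ (π w) ∣ p := by
    intro hd
    have h2 : φ^[p] (π w) = π w := isPeriodicPt_iff_minimalPeriod_dvd.2 hd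
    rw [h.iter_semi, hw, h.pi_eq] at h2
    have h3 : F w = w := by
      have h4 : F (w + (-w - w)) = F w + (-w - w) := h.equiv w _ h2
      have h5 : w + (-w - w) = -w := by abel
      rw [h5, h.odd] at h4
      have h6 : 2 • (F w - w) = 0 := by
        rw [two_nsmul]
        have : F w - w + (F w - w) = (F w + (-w - w)) - (-F w) := by abel
        rw [this, ← h4, sub_self]
      exact sub_eq_zero.1 (smul_eq_zero_aux two_ne_zero h6)
    have h7 : F^[p] w = w := iterate_fixed h3 p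
    rw [hw] at h7
    exact hne (by rw [h3, h7])
  -- not a divisor of 2
  have h2 : ¬ minimalPeriod φ (π w) ∣ 2 := by
    intro hd
    have h2 : φ^[2] (π w) = π w := isPeriodicPt_iff_minimalPeriod_dvd.2 hd
    rw [h.iter_semi, h.pi_eq] at h2
    have h3 : ∀ k : ℕ, F^[2 * k] w = w + k • (F^[2] w - w) := by
      intro k
      induction k with
      | zero => simp
      | succ k ih =>
        have e : 2 * (k + 1) = 2 + 2 * k := by ring
        rw [e, iterate_add_apply, ih, h.iter_equiv 2 w _ (Λ.nsmul_mem h2 k), succ_nsmul]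
        abel
    have h4 := h3 p
    rw [h.sol_double hw] at h4
    have h5 : p • (F^[2] w - w) = 0 := by
      have : p • (F^[2] w - w) = (w + p • (F^[2] w - w)) - w := by abel
      rw [this, ← h4, sub_self]
    have h6 := sub_eq_zero.1 (smul_eq_zero_aux hp.ne_zero h5)
    obtain ⟨k, hk⟩ := hp2
    have h7 : ∀ k : ℕ, F^[2 * k] w = w := by
      intro k
      rw [h3 k, h6, sub_self, smul_zero, add_zero]
    have h8 : F^[p] w = F w := by
      rw [hk]
      exact (iterate_succ_apply' F (2 * k) w).trans (congrArg F (h7 k))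
    exact hne (by rw [← h8, hw])
  -- conclusion
  obtain ⟨a, c, ha, hc, hac⟩ := (Nat.dvd_mul).1 hdvd
  rcases (Nat.dvd_prime Nat.prime_two).1 ha with ha' | ha'
  · refine absurd ?_ h1
    rw [← hac, ha', one_mul]; exact hc
  · rcases (Nat.dvd_prime hp).1 hc with hc' | hc'
    · refine absurd ?_ h2
      rw [← hac, ha', hc', mul_one]
    · rw [← hac, ha', hc']

/-- The orbit of a point. -/
def orb (φ : X → X) (x : X) : Set X := {y | ∃ k : ℕ, y = φ^[k] x}

theorem mem_orb (φ : X → X) (x : X) : x ∈ orb φ x := ⟨0, rfl⟩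

theorem orb_finite {x : X} (hx : 0 < minimalPeriod φ x) : (orb φ x).Finite := by
  refine (Set.finite_range fun i : Fin (minimalPeriod φ x) => φ^[(i : ℕ)] x).subset ?_
  rintro y ⟨k, rfl⟩
  refine ⟨⟨k % minimalPeriod φ x, Nat.mod_lt _ hx⟩, ?_⟩
  exact iterate_mod_minimalPeriod_eq

theorem orb_mem {T : ℝ} {x : X} (hx : 0 < minimalPeriod φ x) (hT : (minimalPeriod φ x : ℝ) ≤ T) :
    orb φ x ∈ orbs φ T := ⟨x, hx, hT, rfl⟩

theorem period_of_orb_eq {x x' : X}
    (h : orb φ x = orb φ x') (hx' : 0 < minimalPeriod φ x') :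
    minimalPeriod φ x = minimalPeriod φ x' := by
  have h1 : x ∈ orb φ x' := h ▸ mem_orb φ x
  obtain ⟨k, hk⟩ := h1
  rw [hk]
  exact minimalPeriod_apply_iterate (minimalPeriod_pos_iff_mem_periodicPts.1 hx') k

/-- Infinitely many antiperiodic points give infinitely many orbits. -/
theorem Sys.orbs_infinite (h : Sys F φ π Λ) {k : ℕ} (hk : 0 < k)
    (hinf : {w | F^[k] w = -w}.Infinite) {T : ℝ} (hT : (2 * k : ℕ) ≤ T) :
    (orbs φ T).Infinite := by
  intro hfin
  have h1 : (⋃₀ orbs φ T).Finite := by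
    refine Set.Finite.sUnion hfin ?_
    rintro O ⟨x, hx, _, rfl⟩
    exact orb_finite hx
  have h2 : (π '' {w | F^[k] w = -w}).Infinite := by
    refine hinf.image ?_
    intro w hw w' hw' he
    exact h.pi_inj hw hw' he
  refine h2 (h1.subset ?_)
  rintro x ⟨w, hw, rfl⟩
  refine ⟨orb φ (π w), orb_mem (h.period_pos hk hw) ?_, mem_orb φ _⟩
  refine le_trans ?_ hT
  exact Nat.cast_le.2 (h.period_le hk hw)

/-- Two antiperiodic points on the same orbit downstairs are on the same orbit upstairs. -/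
theorem Sys.orb_eq (h : Sys F φ π Λ) {k : ℕ} {w w' : M} (hw : F^[k] w = -w)
    (hw' : F^[k] w' = -w') (he : orb φ (π w) = orb φ (π w')) : ∃ j : ℕ, w = F^[j] w' := by
  have h1 : π w ∈ orb φ (π w') := he ▸ mem_orb φ _
  obtain ⟨j, hj⟩ := h1
  rw [h.iter_semi] at hj
  exact ⟨j, h.pi_inj hw (h.sol_shift hw' j) hj⟩

/-- **Counting.** Let `v k` be an invariant function of the antiperiodic points; if for the primes
`p` it takes many values, there are many orbits. -/
theorem Sys.count (h : Sys F φ π Λ) (v : ℕ → M → ℝ)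
    (hv : ∀ k w, F^[k] w = -w → v k (F w) = v k w)
    (P : Finset ℕ) (hP : ∀ p ∈ P, p.Prime ∧ p ≠ 2) (T : ℝ) (hPT : ∀ p ∈ P, (2 * p : ℕ) ≤ T)
    (hT : 2 ≤ T) (N : ℕ → ℕ)
    (hN : ∀ p ∈ P, {w | F^[p] w = -w}.Finite → ∃ A : Finset ℝ, N p ≤ A.card ∧
      ∀ c ∈ A, ∃ w, F^[p] w = -w ∧ v p w = c) :
    (∑ p ∈ P, (N p - {w | F w = -w}.ncard) : ℕ) ≤ (orbs φ T).encard := by
  classical
  by_cases hinf : (orbs φ T).Infinite
  · rw [hinf.encard_eq]; exact le_top
  rw [Set.not_infinite] at hinf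
  have hfin : ∀ k : ℕ, 0 < k → (2 * k : ℕ) ≤ T → {w | F^[k] w = -w}.Finite := by
    intro k hk hkT
    by_contra hc
    exact h.orbs_infinite hk hc hkT hinf
  have hfin1 : {w | F w = -w}.Finite := hfin 1 one_pos (by push_cast; linarith)
  have hvj : ∀ k w, F^[k] w = -w → ∀ j, v k (F^[j] w) = v k w := by
    intro k w hw j
    induction j with
    | zero => rfl
    | succ j ih => rw [iterate_succ_apply', hv k _ (h.sol_shift hw j), ih]
  have key : ∀ p ∈ P, ∃ A : Finset ℝ, N p - {w | F w = -w}.ncard ≤ A.card ∧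
      ∀ c ∈ A, ∃ w, F^[p] w = -w ∧ F w ≠ -w ∧ v p w = c := by
    intro p hp
    obtain ⟨A, hA, hA2⟩ := hN p hp (hfin p (hP p hp).1.pos (hPT p hp))
    refine ⟨A \ (hfin1.toFinset.image (v p)), ?_, ?_⟩
    · have h1 := Finset.le_card_sdiff (hfin1.toFinset.image (v p)) A
      have h2 : (hfin1.toFinset.image (v p)).card ≤ {w | F w = -w}.ncard := by
        rw [Set.ncard_eq_toFinset_card _ hfin1]
        exact Finset.card_image_le
      omega
    · intro c hc
      rw [Finset.mem_sdiff] at hc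
      obtain ⟨w, hw, hwc⟩ := hA2 c hc.1
      refine ⟨w, hw, ?_, hwc⟩
      intro h1
      refine hc.2 (Finset.mem_image.2 ⟨w, ?_, hwc⟩)
      rw [Set.Finite.mem_toFinset]; exact h1
  choose! A hA hA2 using key
  choose! w hw1 hw2 hw3 using hA2
  have hper : ∀ p ∈ P, ∀ c ∈ A p, minimalPeriod φ (π (w p c)) = 2 * p := fun p hp c hc =>
    h.period_eq (hP p hp).1 (hP p hp).2 (hw1 p hp c hc) (hw2 p hp c hc)
  let S : Finset (Σ _ : ℕ, ℝ) := P.sigma A
  have hinj : Set.InjOn (fun q : Σ _ : ℕ, ℝ => orb φ (π (w q.1 q.2))) S := by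
    rintro ⟨p, c⟩ hq ⟨p', c'⟩ hq' he
    rw [Finset.mem_coe, Finset.mem_sigma] at hq hq'
    simp only at hq hq' he
    have e1 := hper p hq.1 c hq.2
    have e2 := hper p' hq'.1 c' hq'.2
    have hpos := h.period_pos (hP p hq.1).1.pos (hw1 p hq.1 c hq.2)
    have hpos' := h.period_pos (hP p' hq'.1).1.pos (hw1 p' hq'.1 c' hq'.2)
    have e3 := period_of_orb_eq he hpos'
    rw [e1, e2] at e3
    have e4 : p = p' := by omega
    subst e4
    obtain ⟨j, hj⟩ := h.orb_eq (hw1 p hq.1 c hq.2) (hw1 p hq'.1 c' hq'.2) he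
    have e5 := hvj p _ (hw1 p hq'.1 c' hq'.2) j
    rw [← hj, hw3 p hq.1 c hq.2, hw3 p hq'.1 c' hq'.2] at e5
    rw [e5]
  have h1 : ((S.image (fun q : Σ _ : ℕ, ℝ => orb φ (π (w q.1 q.2))) : Finset (Set X)) : Set (Set X))
      ⊆ orbs φ T := by
    intro O hO
    rw [Finset.mem_coe, Finset.mem_image] at hO
    obtain ⟨⟨p, c⟩, hq, rfl⟩ := hO
    rw [Finset.mem_sigma] at hq
    refine orb_mem (h.period_pos (hP p hq.1).1.pos (hw1 p hq.1 c hq.2)) ?_
    rw [hper p hq.1 c hq.2]
    exact hPT p hq.1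
  have h2 := Set.encard_le_encard h1
  rw [Set.encard_coe_eq_coe_finsetCard, Finset.card_image_of_injOn hinj, Finset.card_sigma] at h2
  refine le_trans ?_ h2
  exact_mod_cast Finset.sum_le_sum fun p hp => hA p hp

end Pool.Agent.H60.PO
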