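import Pool.Agent.H60.PO.Seq

/-!
# Critical points of the action and antiperiodic orbits
-/

set_option autoImplicit false
set_option linter.unusedSectionVars false

open Metric Module

namespace Pool.Agent.H60.PO

variable {V : Type*} [NormedAddCommGroup V] [InnerProductSpace ℝ V] [FiniteDimensional ℝ V]

open scoped RealInnerProductSpace

/-- Composition of the first `j` maps. -/
def flw (ψ : ℕ → V × V → V × V) : ℕ → V × V → V × V
  | 0, w => w
  | j + 1, w => ψ j (flw ψ j w)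

/-- `ψ` is generated by `G`. -/
def Rel (G : Gen V) (ψ : V × V → V × V) : Prop :=
  ∀ x y x' y', x' = x + G.sy (x', y) → y' = y - G.sx (x', y) → ψ (x, y) = (x', y')

/-- The action of one step. -/
noncomputable def val (G : Gen V) (ψ : V × V → V × V) (w : V × V) : ℝ :=
  ⟪w.2, (ψ w).1 - w.1⟫ - G.S ((ψ w).1, w.2)

/-- The total action of an orbit segment. -/
noncomputable def tot (G : ℕ → Gen V) (ψ : ℕ → V × V → V × V) (K : ℕ) (w : V × V) : ℝ :=
  ∑ j ∈ Finset.range K, val (G j) (ψ j) (flw ψ j w)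

variable {K : ℕ} [NeZero K] {G : ℕ → Gen V} {ψ : ℕ → V × V → V × V} {b L : ℝ}

theorem crit_rel (hrel : ∀ j, Rel (G j) (ψ j)) {z : (Fin K → V) × (Fin K → V)}
    (hz : grad G z = 0) (j : Fin K) : ψ j (z.1 j, z.2 j) = (nxt z.1 j, nxt z.2 j) := by
  have h1 : prv (fun j : Fin K => z.2 j - (G j).sx (nxt z.1 j, z.2 j)) = z.2 := by
    ext1 i
    exact sub_eq_zero.1 (congrFun (congrArg Prod.fst hz) i)
  have h2 : nxt z.2 = fun j : Fin K => z.2 j - (G j).sx (nxt z.1 j, z.2 j) := by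
    nth_rewrite 1 [← h1]
    exact nxt_prv _
  have h3 : nxt z.1 j - z.1 j - (G j).sy (nxt z.1 j, z.2 j) = 0 :=
    congrFun (congrArg Prod.snd hz) j
  refine hrel j _ _ _ _ ?_ ?_
  · rw [sub_sub, sub_eq_zero] at h3; exact h3
  · exact congrFun h2 j

theorem crit_flw (hrel : ∀ j, Rel (G j) (ψ j)) {z : (Fin K → V) × (Fin K → V)}
    (hz : grad G z = 0) {j : ℕ} (hj : j < K) :
    flw ψ j (z.1 0, z.2 0) = (z.1 ⟨j, hj⟩, z.2 ⟨j, hj⟩) := by
  induction j with
  | zero => rfl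
  | succ j ih =>
    have h1 := ih (by omega)
    change ψ j (flw ψ j (z.1 0, z.2 0)) = _
    rw [h1]
    have h2 := crit_rel hrel hz ⟨j, by omega⟩
    rw [nxt_lt z.1 hj, nxt_lt z.2 hj] at h2
    exact h2

theorem crit_end (hrel : ∀ j, Rel (G j) (ψ j)) {z : (Fin K → V) × (Fin K → V)}
    (hz : grad G z = 0) : flw ψ K (z.1 0, z.2 0) = -(z.1 0, z.2 0) := by
  have hK : 0 < K := Nat.pos_of_ne_zero (NeZero.ne K)
  obtain ⟨k, rfl⟩ : ∃ k, K = k + 1 := ⟨K - 1, by omega⟩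
  change ψ k (flw ψ k (z.1 0, z.2 0)) = _
  rw [crit_flw hrel hz (Nat.lt_succ_self k)]
  have h2 := crit_rel hrel hz ⟨k, Nat.lt_succ_self k⟩
  rw [nxt_last z.1 rfl, nxt_last z.2 rfl] at h2
  exact h2

theorem crit_val (hrel : ∀ j, Rel (G j) (ψ j)) {z : (Fin K → V) × (Fin K → V)}
    (hz : grad G z = 0) : act G z = tot G ψ K (z.1 0, z.2 0) := by
  unfold act tot
  rw [Finset.sum_range]
  refine Finset.sum_congr rfl fun j _ => ?_
  rw [crit_flw hrel hz j.2]
  have h2 := crit_rel hrel hz j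
  unfold val
  have h3 : ψ (j : ℕ) (z.1 ⟨j, j.2⟩, z.2 ⟨j, j.2⟩) = (nxt z.1 j, nxt z.2 j) := h2
  rw [h3]

theorem crit_inj (hrel : ∀ j, Rel (G j) (ψ j)) {z z' : (Fin K → V) × (Fin K → V)}
    (hz : grad G z = 0) (hz' : grad G z' = 0) (h1 : z.1 0 = z'.1 0) (h2 : z.2 0 = z'.2 0) :
    z = z' := by
  have h : ∀ j : Fin K, (z.1 j, z.2 j) = (z'.1 j, z'.2 j) := by
    intro j
    have a1 := crit_flw hrel hz j.2
    have a2 := crit_flw hrel hz' j.2
    rw [h1, h2] at a1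
    exact a1.symm.trans a2
  refine Prod.ext ?_ ?_
  · ext1 j; exact congrArg Prod.fst (h j)
  · ext1 j; exact congrArg Prod.snd (h j)

/-- **Multiplicity of critical values in terms of antiperiodic orbits.** -/
theorem exists_values (hG : ∀ j, (G j).OK b L) (hL : 0 ≤ L) (hrel : ∀ j, Rel (G j) (ψ j))
    (hfin : {w : V × V | flw ψ K w = -w}.Finite) {α : ℝ} (hα : 0 < α)
    {V' : Type*} [NormedAddCommGroup V'] [NormedSpace ℝ V'] [FiniteDimensional ℝ V']
    (s : V' → (Fin K → V) × (Fin K → V)) (hsc : ContinuousOn s (sphere 0 1))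
    (hso : ∀ v ∈ sphere (0 : V') 1, s (-v) = - s v)
    (hsA : ∀ v ∈ sphere (0 : V') 1, α ≤ act G (s v)) :
    ∃ F : Finset ℝ, finrank ℝ V' ≤ K * finrank ℝ V + F.card ∧
      ∀ c ∈ F, 0 < c ∧ ∃ w, flw ψ K w = -w ∧ tot G ψ K w = c := by
  classical
  have hZfin : {z : (Fin K → V) × (Fin K → V) | grad G z = 0 ∧ α ≤ act G z}.Finite := by
    refine Set.Finite.of_finite_image (f := fun z => (z.1 0, z.2 0)) (hfin.subset ?_) ?_
    · rintro w ⟨z, hz, rfl⟩
      exact crit_end hrel hz.1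
    · intro z hz z' hz' h
      exact crit_inj hrel hz.1 hz'.1 (congrArg Prod.fst h) (congrArg Prod.snd h)
  have h := card_values_ge hG hL hα hZfin.toFinset (fun z => by
    rw [Set.Finite.mem_toFinset]; rfl) s hsc hso hsA
  refine ⟨_, h, fun c hc => ?_⟩
  rw [Finset.mem_image] at hc
  obtain ⟨z, hz, rfl⟩ := hc
  rw [Set.Finite.mem_toFinset] at hz
  refine ⟨hα.trans_le hz.2, (z.1 0, z.2 0), crit_end hrel hz.1, (crit_val hrel hz.1).symm⟩

end Pool.Agent.H60.PO
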