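import Pool.Agent.H60.PO.Semi

/-!
# Short-time Hamiltonian flows and their generating functions
-/

set_option autoImplicit false
set_option linter.unusedSectionVars false

open Metric Module Set

namespace Pool.Agent.H60.PO

universe u

variable {V : Type u} [NormedAddCommGroup V] [InnerProductSpace ℝ V] [FiniteDimensional ℝ V]

open scoped RealInnerProductSpace

section gronwall

variable {W : Type*} [NormedAddCommGroup W] [NormedSpace ℝ W]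

/-- The supremum of a solution of a linear differential inequality on a short interval. -/
theorem exists_sup {δ δ' : ℝ → W} {s τ C : ℝ} (hτ : 0 ≤ τ) (hC : 0 ≤ C)
    (hd : ∀ t, HasDerivAt δ (δ' t) t) (hb : ∀ t ∈ Icc s (s + τ), ‖δ' t‖ ≤ C * ‖δ t‖) :
    ∃ t₀ ∈ Icc s (s + τ), (∀ t ∈ Icc s (s + τ), ‖δ t‖ ≤ ‖δ t₀‖) ∧
      ∀ t ∈ Icc s (s + τ), ∀ t' ∈ Icc s (s + τ), ‖δ t - δ t'‖ ≤ C * τ * ‖δ t₀‖ := by
  have hcont : Continuous δ := continuous_iff_continuousAt.2 fun t => (hd t).continuousAt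
  obtain ⟨t₀, ht₀, hmax⟩ := isCompact_Icc.exists_isMaxOn (⟨s, by simp [hτ]⟩ :
    (Icc s (s + τ)).Nonempty) hcont.norm.continuousOn
  refine ⟨t₀, ht₀, fun t ht => hmax ht, fun t ht t' ht' => ?_⟩
  have h1 := Convex.norm_image_sub_le_of_norm_hasDerivWithin_le (f := δ) (f' := δ')
    (C := C * ‖δ t₀‖) (fun x _ => (hd x).hasDerivWithinAt)
    (fun x hx => (hb x hx).trans (mul_le_mul_of_nonneg_left (hmax hx) hC))
    (convex_Icc s (s + τ)) ht' ht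
  refine h1.trans ?_
  have h2 : ‖t - t'‖ ≤ τ := by
    rw [Real.norm_eq_abs, abs_le]
    constructor <;> linarith [ht.1, ht.2, ht'.1, ht'.2]
  calc C * ‖δ t₀‖ * ‖t - t'‖ ≤ C * ‖δ t₀‖ * τ :=
        mul_le_mul_of_nonneg_left h2 (by positivity)
    _ = C * τ * ‖δ t₀‖ := by ring

theorem init_bound {δ δ' : ℝ → W} {s τ C : ℝ} (hτ : 0 ≤ τ) (hC : 0 ≤ C) (hCτ : C * τ ≤ 1 / 2)
    (hd : ∀ t, HasDerivAt δ (δ' t) t) (hb : ∀ t ∈ Icc s (s + τ), ‖δ' t‖ ≤ C * ‖δ t‖) :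
    (∀ t ∈ Icc s (s + τ), ‖δ t‖ ≤ 2 * ‖δ s‖) ∧
      ∀ t ∈ Icc s (s + τ), ∀ t' ∈ Icc s (s + τ), ‖δ t - δ t'‖ ≤ 2 * (C * τ) * ‖δ s‖ := by
  obtain ⟨t₀, ht₀, h1, h2⟩ := exists_sup hτ hC hd hb
  have hs : s ∈ Icc s (s + τ) := ⟨le_rfl, by linarith⟩
  have h3 : ‖δ t₀‖ ≤ 2 * ‖δ s‖ := by
    have h4 := h2 t₀ ht₀ s hs
    have h5 : ‖δ t₀‖ ≤ ‖δ s‖ + ‖δ t₀ - δ s‖ := by
      have := norm_add_le (δ s) (δ t₀ - δ s)
      rwa [add_sub_cancel] at this
    have h6 := norm_nonneg (δ t₀)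
    nlinarith
  refine ⟨fun t ht => (h1 t ht).trans h3, fun t ht t' ht' => (h2 t ht t' ht').trans ?_⟩
  have : 0 ≤ C * τ := mul_nonneg hC hτ
  calc C * τ * ‖δ t₀‖ ≤ C * τ * (2 * ‖δ s‖) := mul_le_mul_of_nonneg_left h3 this
    _ = 2 * (C * τ) * ‖δ s‖ := by ring

theorem bvp_bound {W' : Type*} [NormedAddCommGroup W'] [NormedSpace ℝ W']
    {δ δ' : ℝ → W × W'} {s τ C M : ℝ} (hτ : 0 ≤ τ) (hC : 0 ≤ C)
    (hCτ : C * τ ≤ 1 / 2) (hd : ∀ t, HasDerivAt δ (δ' t) t)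
    (hb : ∀ t ∈ Icc s (s + τ), ‖δ' t‖ ≤ C * ‖δ t‖) (h1 : ‖(δ (s + τ)).1‖ ≤ M)
    (h2 : ‖(δ s).2‖ ≤ M) :
    (∀ t ∈ Icc s (s + τ), ‖δ t‖ ≤ 2 * M) ∧
      ∀ t ∈ Icc s (s + τ), ∀ t' ∈ Icc s (s + τ), ‖δ t - δ t'‖ ≤ 2 * (C * τ) * M := by
  obtain ⟨t₀, ht₀, h3, h4⟩ := exists_sup hτ hC hd hb
  have hs : s ∈ Icc s (s + τ) := ⟨le_rfl, by linarith⟩
  have he : s + τ ∈ Icc s (s + τ) := ⟨by linarith, le_rfl⟩
  have h5 : ‖δ t₀‖ ≤ M + C * τ * ‖δ t₀‖ := by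
    have key : max ‖(δ t₀).1‖ ‖(δ t₀).2‖ ≤ M + C * τ * ‖δ t₀‖ := ?_
    · rwa [← Prod.norm_def] at key
    refine max_le ?_ ?_
    · have h6 : (δ t₀).1 = (δ (s + τ)).1 + (δ t₀ - δ (s + τ)).1 := by
        rw [Prod.fst_sub]; abel
      rw [h6]
      refine (norm_add_le _ _).trans (add_le_add h1 ?_)
      exact (norm_fst_le _).trans (h4 t₀ ht₀ _ he)
    · have h6 : (δ t₀).2 = (δ s).2 + (δ t₀ - δ s).2 := by
        rw [Prod.snd_sub]; abel
      rw [h6]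
      refine (norm_add_le _ _).trans (add_le_add h2 ?_)
      exact (norm_snd_le _).trans (h4 t₀ ht₀ _ hs)
  have h6 : ‖δ t₀‖ ≤ 2 * M := by
    have := norm_nonneg (δ t₀)
    nlinarith
  refine ⟨fun t ht => (h3 t ht).trans h6, fun t ht t' ht' => (h4 t ht t' ht').trans ?_⟩
  have : 0 ≤ C * τ := mul_nonneg hC hτ
  calc C * τ * ‖δ t₀‖ ≤ C * τ * (2 * M) := mul_le_mul_of_nonneg_left h6 this
    _ = 2 * (C * τ) * M := by ring

end gronwall

/-- Hamiltonian data. -/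
structure Ham (V : Type*) where
  /-- the Hamiltonian -/
  H : ℝ → V × V → ℝ
  /-- first partial gradient -/
  gx : ℝ → V × V → V
  /-- second partial gradient -/
  gy : ℝ → V × V → V

/-- The standing assumptions. -/
structure Ham.OK (h : Ham V) (C : ℝ) : Prop where
  pos : 0 < C
  cH : Continuous fun p : ℝ × (V × V) => h.H p.1 p.2
  cx : Continuous fun p : ℝ × (V × V) => h.gx p.1 p.2
  cy : Continuous fun p : ℝ × (V × V) => h.gy p.1 p.2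
  tay : ∀ t z k, |h.H t (z + k) - h.H t z - ⟪h.gx t z, k.1⟫ - ⟪h.gy t z, k.2⟫| ≤ C * ‖k‖ ^ 2
  lx : ∀ t z z', ‖h.gx t z - h.gx t z'‖ ≤ C * ‖z - z'‖
  ly : ∀ t z z', ‖h.gy t z - h.gy t z'‖ ≤ C * ‖z - z'‖
  bH : ∀ t z, |h.H t z| ≤ C
  bx : ∀ t z, ‖h.gx t z‖ ≤ C
  by' : ∀ t z, ‖h.gy t z‖ ≤ C
  evn : ∀ t z, h.H t (-z) = h.H t z
  ox : ∀ t z, h.gx t (-z) = - h.gx t z
  oy : ∀ t z, h.gy t (-z) = - h.gy t z
  zero : ∀ t, h.H t 0 = 0

/-- The Hamiltonian vector field. -/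
def Ham.fld (h : Ham V) (t : ℝ) (z : V × V) : V × V := (h.gy t z, -h.gx t z)

/-- The evolution family. -/
structure Evo (h : Ham V) (E : ℝ → V × V → ℝ → V × V) : Prop where
  init : ∀ s z, E s z s = z
  deriv : ∀ s z t, HasDerivAt (E s z) (h.fld t (E s z t)) t

variable {h : Ham V} {C : ℝ} {E : ℝ → V × V → ℝ → V × V}

theorem Ham.OK.lip (hh : h.OK C) (t : ℝ) (z z' : V × V) :
    ‖h.fld t z - h.fld t z'‖ ≤ C * ‖z - z'‖ := by
  unfold Ham.fld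
  rw [Prod.norm_def]
  refine max_le (hh.ly t z z') ?_
  change ‖-h.gx t z - -h.gx t z'‖ ≤ _
  have : -h.gx t z - -h.gx t z' = -(h.gx t z - h.gx t z') := by abel
  rw [this, norm_neg]
  exact hh.lx t z z'

theorem Ham.OK.fld_neg (hh : h.OK C) (t : ℝ) (z : V × V) : h.fld t (-z) = - h.fld t z := by
  unfold Ham.fld
  rw [hh.ox, hh.oy]
  rfl

theorem eq_zero_of_eq_neg' {x : V} (hx : x = -x) : x = 0 := by
  have : (2 : ℝ) • x = 0 := by rw [two_smul]; nth_rewrite 2 [hx]; exact add_neg_cancel _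
  rcases smul_eq_zero.1 this with h | h
  · norm_num at h
  · exact h

theorem Ham.OK.gx_zero (hh : h.OK C) (t : ℝ) : h.gx t 0 = 0 := by
  have h1 := hh.ox t 0
  rw [neg_zero] at h1
  exact eq_zero_of_eq_neg' h1

theorem Ham.OK.gy_zero (hh : h.OK C) (t : ℝ) : h.gy t 0 = 0 := by
  have h1 := hh.oy t 0
  rw [neg_zero] at h1
  exact eq_zero_of_eq_neg' h1

/-- Two solutions which agree at the initial time agree on a short interval. -/
theorem sol_unique (hh : h.OK C) {s τ : ℝ} (hτ : 0 ≤ τ) (hCτ : C * τ ≤ 1 / 2)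
    {γ γ' : ℝ → V × V} (h1 : ∀ t, HasDerivAt γ (h.fld t (γ t)) t)
    (h2 : ∀ t, HasDerivAt γ' (h.fld t (γ' t)) t) (h3 : γ s = γ' s) :
    ∀ t ∈ Icc s (s + τ), γ t = γ' t := by
  intro t ht
  have := (init_bound (δ := fun t => γ t - γ' t) hτ hh.pos.le hCτ
    (fun t => (h1 t).sub (h2 t)) (fun t _ => hh.lip t _ _)).1 t ht
  simp only [h3, sub_self, norm_zero, mul_zero] at this
  exact sub_eq_zero.1 (norm_le_zero_iff.1 this)

/-- Two solutions with the same mixed boundary values agree. -/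
theorem sol_unique_bvp (hh : h.OK C) {s τ : ℝ} (hτ : 0 ≤ τ) (hCτ : C * τ ≤ 1 / 2)
    {γ γ' : ℝ → V × V} (h1 : ∀ t, HasDerivAt γ (h.fld t (γ t)) t)
    (h2 : ∀ t, HasDerivAt γ' (h.fld t (γ' t)) t) (h3 : (γ (s + τ)).1 = (γ' (s + τ)).1)
    (h4 : (γ s).2 = (γ' s).2) : ∀ t ∈ Icc s (s + τ), γ t = γ' t := by
  intro t ht
  have := (bvp_bound (δ := fun t => γ t - γ' t) (M := 0) hτ hh.pos.le hCτ
    (fun t => (h1 t).sub (h2 t)) (fun t _ => hh.lip t _ _)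
    (by simp [h3]) (by simp [h4])).1 t ht
  simp only [mul_zero] at this
  exact sub_eq_zero.1 (norm_le_zero_iff.1 this)

/-- Existence for the mixed boundary value problem. -/
theorem exists_bvp (hh : h.OK C) (hE : Evo h E) {s τ : ℝ} (hτ : 0 ≤ τ) (hCτ : C * τ ≤ 1 / 8)
    (u : V × V) : ∃ x : V, (E s (x, u.2) (s + τ)).1 = u.1 := by
  let T : V → V := fun x => u.1 - ((E s (x, u.2) (s + τ)).1 - x)
  have hcon : ContractingWith (1 / 4) T := by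
    refine ⟨by
      rw [← NNReal.coe_lt_coe]; norm_num, LipschitzWith.of_dist_le_mul fun x x' => ?_⟩
    have h1 := (init_bound (δ := fun t => E s (x, u.2) t - E s (x', u.2) t) hτ hh.pos.le
      (hCτ.trans (by norm_num)) (fun t => (hE.deriv _ _ t).sub (hE.deriv _ _ t))
      (fun t _ => hh.lip t _ _)).2 (s + τ) ⟨by linarith, le_rfl⟩ s ⟨le_rfl, by linarith⟩
    simp only [hE.init] at h1
    have h2 : ((x, u.2) : V × V) - (x', u.2) = (x - x', 0) := by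
      rw [Prod.mk_sub_mk, sub_self]
    rw [h2] at h1
    have h3 : ‖((x - x', 0) : V × V)‖ = ‖x - x'‖ := by
      rw [Prod.norm_def]; simp
    rw [h3] at h1
    rw [dist_eq_norm, dist_eq_norm]
    have h4 : T x - T x' = -(E s (x, u.2) (s + τ) - E s (x', u.2) (s + τ) -
        ((x - x', 0) : V × V)).1 := by
      change (u.1 - ((E s (x, u.2) (s + τ)).1 - x)) - (u.1 - ((E s (x', u.2) (s + τ)).1 - x')) = _
      rw [Prod.fst_sub, Prod.fst_sub]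
      have e : ((x - x', (0 : V)) : V × V).1 = x - x' := rfl
      rw [e]
      abel
    rw [h4, norm_neg]
    refine (norm_fst_le _).trans (h1.trans ?_)
    have h5 : ((1 / 4 : NNReal) : ℝ) = 1 / 4 := by norm_num
    rw [h5]
    exact mul_le_mul_of_nonneg_right (by linarith) (norm_nonneg _)
  refine ⟨hcon.fixedPoint T, ?_⟩
  have h1 : T (hcon.fixedPoint T) = hcon.fixedPoint T := hcon.fixedPoint_isFixedPt
  change u.1 - ((E s (hcon.fixedPoint T, u.2) (s + τ)).1 - hcon.fixedPoint T) =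
    hcon.fixedPoint T at h1
  have h2 : u.1 - (E s (hcon.fixedPoint T, u.2) (s + τ)).1 = 0 := by
    have : u.1 - (E s (hcon.fixedPoint T, u.2) (s + τ)).1 =
      (u.1 - ((E s (hcon.fixedPoint T, u.2) (s + τ)).1 - hcon.fixedPoint T)) -
        hcon.fixedPoint T := by abel
    rw [this, h1, sub_self]
  exact (sub_eq_zero.1 h2).symm

end Pool.Agent.H60.PO
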