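import Pool.Agent.H60.PO.Block
import Pool.Agent.H60.PO.Primes

/-!
# Quadratic growth for compositions of generated maps
-/

set_option autoImplicit false
set_option linter.unusedSectionVars false

open Metric Module Function Filter

namespace Pool.Agent.H60.PO

universe u

variable {V : Type u} [NormedAddCommGroup V] [InnerProductSpace ℝ V] [FiniteDimensional ℝ V]

open scoped RealInnerProductSpace

section basics

variable {G : ℕ → Gen V} {ψ : ℕ → V × V → V × V} {N : ℕ}

theorem per_mul {α : Type*} {f : ℕ → α} (hf : ∀ j, f (j + N) = f j) (k j : ℕ) :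
    f (N * k + j) = f j := by
  induction k with
  | zero => rw [mul_zero, zero_add]
  | succ k ih =>
    rw [← ih, ← hf (N * k + j)]
    congr 1
    ring

theorem flw_add (ψ : ℕ → V × V → V × V) (a j : ℕ) (w : V × V) :
    flw ψ (a + j) w = flw (fun i => ψ (a + i)) j (flw ψ a w) := by
  induction j with
  | zero => rfl
  | succ j ih =>
    change ψ (a + j) (flw ψ (a + j) w) = ψ (a + j) (flw (fun i => ψ (a + i)) j (flw ψ a w))
    rw [ih]

theorem shift_per (hψ : ∀ j, ψ (j + N) = ψ j) (k : ℕ) : (fun i => ψ (N * k + i)) = ψ := by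
  funext i
  exact per_mul hψ k i

theorem flw_mul (hψ : ∀ j, ψ (j + N) = ψ j) (k : ℕ) (w : V × V) :
    flw ψ (N * k) w = (flw ψ N)^[k] w := by
  induction k with
  | zero => rfl
  | succ k ih =>
    rw [Nat.mul_succ, flw_add, shift_per hψ, ih, iterate_succ_apply']

theorem tot_mul (hG : ∀ j, G (j + N) = G j) (hψ : ∀ j, ψ (j + N) = ψ j) (k : ℕ) (w : V × V) :
    tot G ψ (N * k) w = ∑ i ∈ Finset.range k, tot G ψ N ((flw ψ N)^[i] w) := by
  induction k with
  | zero => simp [tot]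
  | succ k ih =>
    rw [Finset.sum_range_succ, ← ih, Nat.mul_succ]
    unfold tot
    rw [Finset.sum_range_add]
    congr 1
    refine Finset.sum_congr rfl fun j _ => ?_
    rw [per_mul hG, per_mul hψ, flw_add, shift_per hψ, flw_mul hψ]

theorem flw_odd (hodd : ∀ j w, ψ j (-w) = - ψ j w) (j : ℕ) (w : V × V) :
    flw ψ j (-w) = - flw ψ j w := by
  induction j with
  | zero => rfl
  | succ j ih =>
    change ψ j (flw ψ j (-w)) = - ψ j (flw ψ j w)
    rw [ih, hodd]

theorem flw_equiv {Λ : AddSubgroup (V × V)} (heq : ∀ j w, ∀ e ∈ Λ, ψ j (w + e) = ψ j w + e)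
    (j : ℕ) (w : V × V) (e : V × V) (he : e ∈ Λ) : flw ψ j (w + e) = flw ψ j w + e := by
  induction j with
  | zero => rfl
  | succ j ih =>
    change ψ j (flw ψ j (w + e)) = ψ j (flw ψ j w) + e
    rw [ih, heq _ _ _ he]

theorem val_neg {b L : ℝ} {G : Gen V} (hG : G.OK b L) {ψ : V × V → V × V}
    (hodd : ∀ w, ψ (-w) = - ψ w) (w : V × V) : val G ψ (-w) = val G ψ w := by
  unfold val
  rw [hodd]
  have e1 : (((- ψ w).1, (-w).2) : V × V) = -((ψ w).1, w.2) := rfl
  rw [e1, hG.even]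
  have e2 : (-w).2 = - w.2 := rfl
  have e3 : (-ψ w).1 - (-w).1 = -((ψ w).1 - w.1) := by
    rw [Prod.fst_neg, Prod.fst_neg]; abel
  rw [e2, e3, inner_neg_neg]

theorem tot_neg {b L : ℝ} (hG : ∀ j, (G j).OK b L) (hodd : ∀ j w, ψ j (-w) = - ψ j w) (K : ℕ)
    (w : V × V) : tot G ψ K (-w) = tot G ψ K w := by
  unfold tot
  refine Finset.sum_congr rfl fun j _ => ?_
  rw [flw_odd hodd, val_neg (hG j) (hodd j)]

theorem tot_shift {b L : ℝ} (hG : ∀ j, (G j).OK b L) (hper : ∀ j, G (j + N) = G j)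
    (hψ : ∀ j, ψ (j + N) = ψ j) (hodd : ∀ j w, ψ j (-w) = - ψ j w) (k : ℕ) (w : V × V)
    (hw : (flw ψ N)^[k] w = -w) : tot G ψ (N * k) (flw ψ N w) = tot G ψ (N * k) w := by
  rw [tot_mul hper hψ, tot_mul hper hψ]
  have h1 : ∑ i ∈ Finset.range k, tot G ψ N ((flw ψ N)^[i] (flw ψ N w)) =
      ∑ i ∈ Finset.range k, tot G ψ N ((flw ψ N)^[i + 1] w) := by
    refine Finset.sum_congr rfl fun i _ => ?_
    rw [iterate_succ_apply]
  rw [h1]
  have h2 := Finset.sum_range_succ' (fun i => tot G ψ N ((flw ψ N)^[i] w)) k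
  have h3 := Finset.sum_range_succ (fun i => tot G ψ N ((flw ψ N)^[i] w)) k
  rw [h3] at h2
  simp only [hw, tot_neg hG hodd, iterate_zero, id] at h2
  linarith

end basics

/-- The conclusion: quadratic growth of the number of primitive periodic orbits. -/
def QuadGrowth {X : Type*} (φ : X → X) : Prop :=
  (∃ c : ℝ, 0 < c ∧ ∀ᶠ T : ℝ in atTop,
    ENNReal.ofReal (c * T ^ 2 / Real.log T) ≤ ((orbs φ T).encard : ENNReal)) ∧
  (2 : EReal) ≤ liminf (fun T : ℝ =>
    ENNReal.log ((orbs φ T).encard : ENNReal) / ((Real.log T : ℝ) : EReal)) atTop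

/-- **Quadratic growth for compositions of generated maps with an index gap at the centre.** -/
theorem gf_growth {G : ℕ → Gen V} {ψ : ℕ → V × V → V × V} {b L : ℝ}
    (hG : ∀ j, (G j).OK b L) (hL : 0 ≤ L) (hrel : ∀ j, Rel (G j) (ψ j))
    {N : ℕ} (hN : 0 < N) (hper : ∀ j, G (j + N) = G j) (hψ : ∀ j, ψ (j + N) = ψ j)
    (hodd : ∀ j w, ψ j (-w) = - ψ j w)
    {X : Type*} {φ : X → X} {π : V × V → X} {Λ : AddSubgroup (V × V)}
    (hπ : ∀ a b, π a = π b ↔ a - b ∈ Λ) (heq : ∀ j w, ∀ e ∈ Λ, ψ j (w + e) = ψ j w + e)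
    (hφ : ∀ w, φ (π w) = π (flw ψ N w))
    {k m : ℕ} (hk : 0 < k) (hmk : m = N * k) [NeZero m] (hidx : PosIndex G m) :
    QuadGrowth φ := by
  subst hmk
  have hsys : Sys (flw ψ N) φ π Λ :=
    { pi_eq := hπ
      equiv := fun w e he => flw_equiv heq N w e he
      odd := flw_odd hodd N
      semi := hφ }
  have hm : 0 < N * k := Nat.mul_pos hN hk
  have hperm : ∀ j, G (j + N * k) = G j := by
    intro j
    rw [add_comm]
    exact per_mul hper k j
  obtain ⟨c, hc, h⟩ := hsys.growth (fun p w => tot G ψ (N * p) w)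
    (fun p w hw => tot_shift hG hper hψ hodd p w hw) (1 / k) (1 + (N * k : ℕ) * finrank ℝ V)
    (by positivity) (fun p hp hfin => by
      have : NeZero (N * p) := ⟨(Nat.mul_pos hN hp).ne'⟩
      have hfin' : {w : V × V | flw ψ (N * p) w = -w}.Finite := by
        simpa only [flw_mul hψ] using hfin
      obtain ⟨A, hA, hA2⟩ := many_values hG hL hrel hperm hidx (N * p) hfin'
      refine ⟨A, ?_, ?_⟩
      · have h1 : ((N * p / (N * k) : ℕ) : ℝ) ≤ A.card + (N * k : ℕ) * finrank ℝ V := by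
          exact_mod_cast hA
        have h2 : (1 : ℝ) / k * p - 1 ≤ ((N * p / (N * k) : ℕ) : ℝ) := by
          rw [Nat.mul_div_mul_left _ _ hN]
          have h3 : (p : ℝ) / k < ((p / k : ℕ) : ℝ) + 1 := by
            rw [div_lt_iff₀ (by exact_mod_cast hk)]
            have := Nat.lt_mul_div_succ p hk
            have h4 : (p : ℝ) < ((k * (p / k + 1) : ℕ) : ℝ) := by exact_mod_cast this
            push_cast at h4
            linarith
          have h5 : (1 : ℝ) / k * p = p / k := by ring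
          rw [h5]; linarith
        linarith
      · intro a ha
        obtain ⟨_, w, hw, hwa⟩ := hA2 a ha
        rw [flw_mul hψ] at hw
        exact ⟨w, hw, hwa⟩)
  exact ⟨⟨c, hc, h⟩, liminf_of_growth hc h⟩

end Pool.Agent.H60.PO
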