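import Pool.Agent.H60.PO.Abs

/-!
# Ascending deformations from a gradient-like field
-/

set_option autoImplicit false
set_option linter.unusedSectionVars false

open Metric Module

namespace Pool.Agent.H60.PO

variable {E : Type*} [NormedAddCommGroup E] [NormedSpace ℝ E] [FiniteDimensional ℝ E]

theorem push_of_grad (A : E → ℝ) (hAc : Continuous A) (α : ℝ) (Z : Finset E)
    (g : E → E) (hgc : Continuous g) (hgo : ∀ z, g (-z) = - g z) (τ1 : ℝ) (hτ1 : 0 < τ1)
    (hg : ∀ z, ∀ τ, 0 < τ → τ ≤ τ1 → A z + τ / 2 * ‖g z‖ ^ 2 ≤ A (z + τ • g z))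
    (R : ℝ) (hR : ∀ z, R ≤ ‖z‖ → 1 ≤ ‖g z‖)
    (hZ : ∀ z, α ≤ A z → g z = 0 → z ∈ Z) : Push A α Z := by
  classical
  intro τ0 hτ0
  set τ2 := min τ0 τ1 with hτ2
  have hτ2p : 0 < τ2 := lt_min hτ0 hτ1
  have hpos : ∀ z, 0 < 1 + ‖g z‖ := fun z => by have := norm_nonneg (g z); linarith
  have hstep : ∀ z, 0 < τ2 / (1 + ‖g z‖) ∧ τ2 / (1 + ‖g z‖) ≤ τ1 := by
    intro z
    refine ⟨div_pos hτ2p (hpos z), ?_⟩
    rw [div_le_iff₀ (hpos z)]
    have h1 : τ2 ≤ τ1 := min_le_right _ _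
    have h2 := norm_nonneg (g z)
    nlinarith
  refine ⟨fun z => z + (τ2 / (1 + ‖g z‖)) • g z, ?_, ?_, ?_, ?_, ?_⟩
  · refine continuous_id.add (Continuous.smul ?_ hgc)
    exact continuous_const.div (by fun_prop) (fun z => (hpos z).ne')
  · intro z
    simp only [hgo, norm_neg, smul_neg]; abel
  · intro z
    rw [add_sub_cancel_left, norm_smul, Real.norm_eq_abs, abs_of_pos (hstep z).1,
      div_mul_eq_mul_div, div_le_iff₀ (hpos z)]
    have h1 : τ2 ≤ τ0 := min_le_left _ _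
    have h2 := norm_nonneg (g z)
    nlinarith
  · intro z
    have := hg z _ (hstep z).1 (hstep z).2
    have h2 : 0 ≤ τ2 / (1 + ‖g z‖) / 2 * ‖g z‖ ^ 2 := by
      have := (hstep z).1.le
      positivity
    linarith
  · intro δ hδ
    -- lower bound for the field
    obtain ⟨m, hm, hm1, hmin⟩ : ∃ m > 0, m ≤ 1 ∧ ∀ z, α ≤ A z → (∀ w ∈ Z, δ ≤ ‖z - w‖) →
        m ≤ ‖g z‖ := by
      let S : Set E := {z | α ≤ A z ∧ (∀ w ∈ Z, δ ≤ ‖z - w‖) ∧ ‖z‖ ≤ R}
      have hSclosed : IsClosed S := by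
        have h1 : IsClosed {z | α ≤ A z} := isClosed_le continuous_const hAc
        have h2 : IsClosed {z : E | ∀ w ∈ Z, δ ≤ ‖z - w‖} := by
          have : {z : E | ∀ w ∈ Z, δ ≤ ‖z - w‖} = ⋂ w ∈ Z, {z : E | δ ≤ ‖z - w‖} := by
            ext z; simp
          rw [this]
          exact isClosed_biInter fun w _ => isClosed_le continuous_const (by fun_prop)
        have h3 : IsClosed {z : E | ‖z‖ ≤ R} := isClosed_le continuous_norm continuous_const
        exact h1.inter (h2.inter h3)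
      have hSc : IsCompact S := by
        refine (isCompact_closedBall (0 : E) R).of_isClosed_subset hSclosed ?_
        intro z hz
        rw [mem_closedBall_zero_iff]
        exact hz.2.2
      by_cases hne : S.Nonempty
      · obtain ⟨z0, hz0, hz0min⟩ := hSc.exists_isMinOn hne hgc.norm.continuousOn
        have h0 : 0 < ‖g z0‖ := by
          rw [norm_pos_iff]
          intro h
          have := hz0.2.1 z0 (hZ z0 hz0.1 h)
          rw [sub_self, norm_zero] at this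
          linarith
        refine ⟨min ‖g z0‖ 1, lt_min h0 one_pos, min_le_right _ _, fun z h1 h2 => ?_⟩
        by_cases h3 : ‖z‖ ≤ R
        · exact (min_le_left _ _).trans (hz0min ⟨h1, h2, h3⟩)
        · exact (min_le_right _ _).trans (hR z (not_le.1 h3).le)
      · refine ⟨1, one_pos, le_rfl, fun z h1 h2 => ?_⟩
        by_cases h3 : ‖z‖ ≤ R
        · exact absurd ⟨z, h1, h2, h3⟩ hne
        · exact hR z (not_le.1 h3).le
    refine ⟨min (m / 2) (τ2 * m ^ 2 / 4), lt_min (by positivity) (by positivity),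
      fun z h1 h2 => ?_⟩
    have hgz := hmin z h1 h2
    have hs := hstep z
    have h3 := hg z _ hs.1 hs.2
    have hx : τ2 / (1 + ‖g z‖) * ‖g z‖ = ‖z + (τ2 / (1 + ‖g z‖)) • g z - z‖ := by
      rw [add_sub_cancel_left, norm_smul, Real.norm_eq_abs, abs_of_pos hs.1]
    constructor
    · have h4 : τ2 * m ^ 2 / 4 ≤ τ2 / (1 + ‖g z‖) / 2 * ‖g z‖ ^ 2 := by
        have e : τ2 / (1 + ‖g z‖) / 2 * ‖g z‖ ^ 2 = τ2 * ‖g z‖ ^ 2 / (2 * (1 + ‖g z‖)) := by
          field_simp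
        rw [e, le_div_iff₀ (by have := hpos z; positivity)]
        have h5 : m ^ 2 * (1 + ‖g z‖) ≤ 2 * ‖g z‖ ^ 2 := by
          have h6 : m ^ 2 ≤ ‖g z‖ ^ 2 := by gcongr
          have h7 : m ^ 2 * ‖g z‖ ≤ ‖g z‖ ^ 2 := by
            have : m ^ 2 ≤ m := by nlinarith
            have h8 := norm_nonneg (g z)
            nlinarith
          linarith
        nlinarith
      have := min_le_right (m / 2) (τ2 * m ^ 2 / 4)
      linarith
    · rw [← hx]
      have h4 : min (m / 2) (τ2 * m ^ 2 / 4) ≤ ‖g z‖ / 2 :=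
        (min_le_left _ _).trans (by linarith)
      have h5 : 0 ≤ τ2 / (1 + ‖g z‖) * ‖g z‖ := mul_nonneg hs.1.le (norm_nonneg _)
      calc min (m / 2) (τ2 * m ^ 2 / 4) * (τ2 / (1 + ‖g z‖) * ‖g z‖)
          ≤ ‖g z‖ / 2 * (τ2 / (1 + ‖g z‖) * ‖g z‖) := mul_le_mul_of_nonneg_right h4 h5
        _ = τ2 / (1 + ‖g z‖) / 2 * ‖g z‖ ^ 2 := by ring
        _ ≤ A (z + (τ2 / (1 + ‖g z‖)) • g z) - A z := by linarith

end Pool.Agent.H60.PO
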