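import Pool.Agent.H60.PO.Step

/-!
# Signs of the generating functions near a local maximum; the growth theorem for flows
-/

set_option autoImplicit false
set_option linter.unusedSectionVars false

open Metric Module Set

namespace Pool.Agent.H60.PO

universe u

variable {V : Type u} [NormedAddCommGroup V] [InnerProductSpace ℝ V] [FiniteDimensional ℝ V]

open scoped RealInnerProductSpace

variable {h : Ham V} {C : ℝ} {E : ℝ → V × V → ℝ → V × V} {s τ ρ : ℝ}

theorem int_add {f g : ℝ → ℝ} (hf : Continuous f) (hg : Continuous g) (a b : ℝ) :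
    ∫ t in a..b, (f t + g t) = (∫ t in a..b, f t) + ∫ t in a..b, g t :=
  intervalIntegral.integral_add (hf.intervalIntegrable _ _) (hg.intervalIntegrable _ _)

/-- The gradient of a nonpositive function is controlled by the function. -/
theorem grad_sq (hh : h.OK C) (hneg : ∀ t z, ‖z‖ ≤ ρ → h.H t z ≤ 0) (t : ℝ) (z : V × V)
    (hz : 2 * ‖z‖ ≤ ρ) : ‖h.gx t z‖ ^ 2 + ‖h.gy t z‖ ^ 2 ≤ 4 * C * (-h.H t z) := by
  have hC := hh.pos
  have h1 := (abs_le.1 (hh.tay t z ((1 / (2 * C)) • (h.gx t z, h.gy t z)))).1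
  have e1 : ⟪h.gx t z, ((1 / (2 * C)) • (h.gx t z, h.gy t z) : V × V).1⟫ =
      1 / (2 * C) * ‖h.gx t z‖ ^ 2 := by
    rw [Prod.smul_fst, inner_smul_right, real_inner_self_eq_norm_sq]
  have e2 : ⟪h.gy t z, ((1 / (2 * C)) • (h.gx t z, h.gy t z) : V × V).2⟫ =
      1 / (2 * C) * ‖h.gy t z‖ ^ 2 := by
    rw [Prod.smul_snd, inner_smul_right, real_inner_self_eq_norm_sq]
  have e3 : ‖((1 / (2 * C)) • (h.gx t z, h.gy t z) : V × V)‖ =
      1 / (2 * C) * ‖((h.gx t z, h.gy t z) : V × V)‖ := by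
    rw [norm_smul, Real.norm_eq_abs, abs_of_pos (by positivity)]
  rw [e1, e2, e3] at h1
  have h2 : ‖((h.gx t z, h.gy t z) : V × V)‖ ≤ C * ‖z‖ := by
    rw [Prod.norm_def]
    refine max_le ?_ ?_
    · have := hh.lx t z 0
      rwa [hh.gx_zero, sub_zero, sub_zero] at this
    · have := hh.ly t z 0
      rwa [hh.gy_zero, sub_zero, sub_zero] at this
  have h3 : ‖((h.gx t z, h.gy t z) : V × V)‖ ^ 2 ≤ ‖h.gx t z‖ ^ 2 + ‖h.gy t z‖ ^ 2 := by
    rw [Prod.norm_def]
    rcases max_cases ‖h.gx t z‖ ‖h.gy t z‖ with ⟨h, _⟩ | ⟨h, _⟩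
    · simp only [h]; linarith [sq_nonneg ‖(Ham.gy ‹_› t z)‖]
    · simp only [h]; linarith [sq_nonneg ‖(Ham.gx ‹_› t z)‖]
  have h4 := hneg t (z + (1 / (2 * C)) • (h.gx t z, h.gy t z)) (by
    refine (norm_add_le _ _).trans ?_
    rw [e3]
    have h5 : 1 / (2 * C) * ‖((h.gx t z, h.gy t z) : V × V)‖ ≤ 1 / (2 * C) * (C * ‖z‖) := by
      gcongr
    have h6 : 1 / (2 * C) * (C * ‖z‖) = ‖z‖ / 2 := by field_simp
    have := norm_nonneg z
    linarith)
  set q := ‖h.gx t z‖ ^ 2 + ‖h.gy t z‖ ^ 2 with hq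
  have h5 : C * (1 / (2 * C) * ‖((h.gx t z, h.gy t z) : V × V)‖) ^ 2 ≤ q / (4 * C) := by
    have : C * (1 / (2 * C) * ‖((h.gx t z, h.gy t z) : V × V)‖) ^ 2 =
        ‖((h.gx t z, h.gy t z) : V × V)‖ ^ 2 / (4 * C) := by
      field_simp; ring
    rw [this]
    gcongr
  have h6 : 1 / (2 * C) * ‖h.gx t z‖ ^ 2 + 1 / (2 * C) * ‖h.gy t z‖ ^ 2 = q / (4 * C) * 2 := by
    rw [hq]; field_simp; ring
  have h7 : q / (4 * C) ≤ -h.H t z := by linarith
  rw [div_le_iff₀ (by positivity)] at h7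
  linarith

theorem cur_sub_data (hh : h.OK C) (hE : Evo h E) (hτ : 0 ≤ τ) (hCτ : C * τ ≤ 1 / 8)
    (u : V × V) : ∀ t ∈ Icc s (s + τ), ‖cur E s τ u t - u‖ ≤ 2 * (C * τ) * ‖u‖ := by
  intro t ht
  rw [Prod.norm_def]
  refine max_le ?_ ?_
  · have : (cur E s τ u t - u).1 = (cur E s τ u t - cur E s τ u (s + τ)).1 := by
      rw [Prod.fst_sub, Prod.fst_sub, cur_end hh hE hτ hCτ]
    rw [this]
    exact (norm_fst_le _).trans (cur_move hh hE hτ hCτ u t ht _ (rt_aux hτ))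
  · have : (cur E s τ u t - u).2 = (cur E s τ u t - cur E s τ u s).2 := by
      rw [Prod.snd_sub, Prod.snd_sub, cur_init hE]
    rw [this]
    exact (norm_snd_le _).trans (cur_move hh hE hτ hCτ u t ht _ (lt_aux hτ))

/-- The generating function is at most one half of the integral of the Hamiltonian along the
curve. -/
theorem gen_le (hh : h.OK C) (hE : Evo h E) (hτ : 0 ≤ τ) (hCτ : C * τ ≤ 1 / 8)
    (hneg : ∀ t z, ‖z‖ ≤ ρ → h.H t z ≤ 0) (u : V × V) (hu : 4 * ‖u‖ ≤ ρ) :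
    (gen h E s τ).S u ≤ 1 / 2 * ∫ t in s..(s + τ), h.H t (cur E s τ u t) := by
  have hse : s ≤ s + τ := by linarith
  have hC := hh.pos
  set γ := cur E s τ u with hγ
  have cx := cur_gx_cont (s := s) (τ := τ) hh hE u
  have cy := cur_gy_cont (s := s) (τ := τ) hh hE u
  have cH := cur_H_cont (s := s) (τ := τ) hh hE u
  have hball : ∀ t ∈ Icc s (s + τ), ‖γ t‖ ≤ 2 * ‖u‖ := cur_bound hh hE hτ hCτ u
  set Q := ∫ r in s..(s + τ), ‖h.gx r (γ r)‖ ^ 2 with hQ
  set a := ∫ r in s..(s + τ), ‖h.gx r (γ r)‖ with ha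
  -- the displacement
  have hdisp : ∀ t ∈ Icc s (s + τ), ‖u.2 - (γ t).2‖ ≤ a := by
    intro t ht
    have h1 : ∫ r in s..t, -h.gx r (γ r) = (γ t).2 - (γ s).2 := by
      refine intervalIntegral.integral_eq_sub_of_hasDerivAt (f := fun r => (γ r).2)
        (fun r _ => ?_) (cx.neg.intervalIntegrable _ _)
      exact (cur_deriv hE u r).snd
    have h2 : u.2 - (γ t).2 = -∫ r in s..t, -h.gx r (γ r) := by
      rw [h1, cur_init hE]; abel
    rw [h2, norm_neg]
    refine (intervalIntegral.norm_integral_le_integral_norm ht.1).trans ?_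
    simp only [norm_neg]
    refine intervalIntegral.integral_mono_interval le_rfl ht.1 ht.2 ?_
      (cx.norm.intervalIntegrable _ _)
    exact Filter.Eventually.of_forall fun r => norm_nonneg _
  -- the product
  have hprod : ∀ t ∈ Icc s (s + τ), ⟪u.2 - (γ t).2, h.gy t (γ t)⟫ ≤
      1 / 2 * Q + τ / 2 * ‖h.gy t (γ t)‖ ^ 2 := by
    intro t ht
    have h1 := real_inner_le_norm (u.2 - (γ t).2) (h.gy t (γ t))
    have h2 : ‖u.2 - (γ t).2‖ * ‖h.gy t (γ t)‖ ≤ a * ‖h.gy t (γ t)‖ :=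
      mul_le_mul_of_nonneg_right (hdisp t ht) (norm_nonneg _)
    have h3 : a * ‖h.gy t (γ t)‖ = ∫ r in s..(s + τ), ‖h.gx r (γ r)‖ * ‖h.gy t (γ t)‖ := by
      rw [intervalIntegral.integral_mul_const]
    have h4 : ∫ r in s..(s + τ), ‖h.gx r (γ r)‖ * ‖h.gy t (γ t)‖ ≤
        ∫ r in s..(s + τ), (1 / 2 * ‖h.gx r (γ r)‖ ^ 2 + 1 / 2 * ‖h.gy t (γ t)‖ ^ 2) := by
      refine intervalIntegral.integral_mono_on hse
        ((cx.norm.mul continuous_const).intervalIntegrable _ _)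
        ((Continuous.add (continuous_const.mul (cx.norm.pow 2))
          continuous_const).intervalIntegrable _ _) fun r _ => ?_
      nlinarith [sq_nonneg (‖h.gx r (γ r)‖ - ‖h.gy t (γ t)‖)]
    have h5 : ∫ r in s..(s + τ), (1 / 2 * ‖h.gx r (γ r)‖ ^ 2 + 1 / 2 * ‖h.gy t (γ t)‖ ^ 2) =
        1 / 2 * Q + τ / 2 * ‖h.gy t (γ t)‖ ^ 2 := by
      rw [int_add (f := fun r => 1 / 2 * ‖h.gx r (γ r)‖ ^ 2)
        (g := fun _ => 1 / 2 * ‖h.gy t (γ t)‖ ^ 2)
        (continuous_const.mul (cx.norm.pow 2)) continuous_const,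
        intervalIntegral.integral_const_mul,
        intervalIntegral.integral_const, smul_eq_mul]
      ring
    linarith
  -- integrate
  have hmain : (gen h E s τ).S u ≤ ∫ t in s..(s + τ),
      ((1 / 2 * Q + τ / 2 * ‖h.gy t (γ t)‖ ^ 2) + h.H t (γ t)) := by
    refine intervalIntegral.integral_mono_on hse ((intg_cont hh hE u).intervalIntegrable _ _)
      ((Continuous.add (Continuous.add continuous_const (continuous_const.mul (cy.norm.pow 2)))
        cH).intervalIntegrable _ _) fun t ht => ?_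
    unfold intg
    exact add_le_add (hprod t ht) le_rfl
  have hsplit : ∫ t in s..(s + τ), ((1 / 2 * Q + τ / 2 * ‖h.gy t (γ t)‖ ^ 2) + h.H t (γ t)) =
      τ / 2 * (∫ t in s..(s + τ), (‖h.gx t (γ t)‖ ^ 2 + ‖h.gy t (γ t)‖ ^ 2)) +
        ∫ t in s..(s + τ), h.H t (γ t) := by
    rw [int_add (f := fun t => 1 / 2 * Q + τ / 2 * ‖h.gy t (γ t)‖ ^ 2)
      (g := fun t => h.H t (γ t)) (Continuous.add continuous_const (continuous_const.mul
        (cy.norm.pow 2))) cH,
      int_add (f := fun _ => 1 / 2 * Q) (g := fun t => τ / 2 * ‖h.gy t (γ t)‖ ^ 2)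
      continuous_const (continuous_const.mul (cy.norm.pow 2)),
      intervalIntegral.integral_const_mul (τ / 2) (fun t => ‖h.gy t (γ t)‖ ^ 2),
      intervalIntegral.integral_const,
      int_add (f := fun t => ‖h.gx t (γ t)‖ ^ 2) (g := fun t => ‖h.gy t (γ t)‖ ^ 2)
      (cx.norm.pow 2) (cy.norm.pow 2), smul_eq_mul, ← hQ]
    ring
  have hq : ∫ t in s..(s + τ), (‖h.gx t (γ t)‖ ^ 2 + ‖h.gy t (γ t)‖ ^ 2) ≤
      ∫ t in s..(s + τ), 4 * C * (-h.H t (γ t)) := by
    refine intervalIntegral.integral_mono_on hse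
      (((cx.norm.pow 2).add (cy.norm.pow 2)).intervalIntegrable _ _)
      ((continuous_const.mul cH.neg).intervalIntegrable _ _) fun t ht => ?_
    refine grad_sq hh hneg t (γ t) ?_
    have := hball t ht
    linarith
  have hq2 : ∫ t in s..(s + τ), 4 * C * (-h.H t (γ t)) =
      -(4 * C) * ∫ t in s..(s + τ), h.H t (γ t) := by
    rw [intervalIntegral.integral_const_mul, intervalIntegral.integral_neg]
    ring
  have hI : ∫ t in s..(s + τ), h.H t (γ t) ≤ 0 := by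
    have h1 : ∫ t in s..(s + τ), h.H t (γ t) ≤ ∫ t in s..(s + τ), (0 : ℝ) := by
      refine intervalIntegral.integral_mono_on hse (cH.intervalIntegrable _ _)
        (continuous_const.intervalIntegrable _ _) fun t ht => ?_
      refine hneg t (γ t) ?_
      have := hball t ht
      have := norm_nonneg u
      linarith
    simpa using h1
  rw [hsplit] at hmain
  rw [hq2] at hq
  set I := ∫ t in s..(s + τ), h.H t (γ t) with hI'
  have h1 : τ / 2 * ∫ t in s..(s + τ), (‖h.gx t (γ t)‖ ^ 2 + ‖h.gy t (γ t)‖ ^ 2) ≤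
      τ / 2 * (-(4 * C) * I) := mul_le_mul_of_nonneg_left hq (by linarith)
  have h2 : τ / 2 * (-(4 * C) * I) = 2 * (C * τ) * (-I) := by ring
  have h3 : 2 * (C * τ) * (-I) ≤ 2 * (1 / 8) * (-I) := by
    have : 0 ≤ -I := by linarith
    gcongr
  linarith

/-- The generating function is nonpositive near the centre. -/
theorem gen_nonpos (hh : h.OK C) (hE : Evo h E) (hτ : 0 ≤ τ) (hCτ : C * τ ≤ 1 / 8)
    (hneg : ∀ t z, ‖z‖ ≤ ρ → h.H t z ≤ 0) (u : V × V) (hu : 4 * ‖u‖ ≤ ρ) :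
    (gen h E s τ).S u ≤ 0 := by
  refine (gen_le hh hE hτ hCτ hneg u hu).trans ?_
  have h1 : ∫ t in s..(s + τ), h.H t (cur E s τ u t) ≤ ∫ t in s..(s + τ), (0 : ℝ) := by
    refine intervalIntegral.integral_mono_on (by linarith)
      ((cur_H_cont hh hE u).intervalIntegrable _ _)
      (continuous_const.intervalIntegrable _ _) fun t ht => ?_
    refine hneg t _ ?_
    have := cur_bound hh hE hτ hCτ u t ht
    have := norm_nonneg u
    linarith
  simp only [intervalIntegral.integral_zero] at h1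
  linarith

/-- Comparison with the Hamiltonian frozen at the boundary data. -/
theorem gen_le_frozen (hh : h.OK C) (hE : Evo h E) (hτ : 0 ≤ τ) (hCτ : C * τ ≤ 1 / 8)
    (hneg : ∀ t z, ‖z‖ ≤ ρ → h.H t z ≤ 0) (u : V × V) (hu : 4 * ‖u‖ ≤ ρ) :
    (gen h E s τ).S u ≤ 1 / 4 * (∫ t in s..(s + τ), h.H t u) + 6 * C ^ 3 * τ ^ 3 * ‖u‖ ^ 2 := by
  have hC := hh.pos
  have hse : s ≤ s + τ := by linarith
  refine (gen_le hh hE hτ hCτ hneg u hu).trans ?_
  have cHu : Continuous fun t => h.H t u := hh.cH.comp (continuous_id.prodMk continuous_const)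
  have h1 : ∫ t in s..(s + τ), h.H t (cur E s τ u t) ≤
      ∫ t in s..(s + τ), (1 / 2 * h.H t u + 12 * C ^ 3 * τ ^ 2 * ‖u‖ ^ 2) := by
    refine intervalIntegral.integral_mono_on hse
      ((cur_H_cont hh hE u).intervalIntegrable _ _)
      ((Continuous.add (continuous_const.mul cHu) continuous_const).intervalIntegrable _ _)
      fun t ht => ?_
    set k := cur E s τ u t - u with hk
    have hkn : ‖k‖ ≤ 2 * (C * τ) * ‖u‖ := cur_sub_data hh hE hτ hCτ u t ht
    have hu0 := norm_nonneg u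
    have hkn' : ‖k‖ ≤ 1 / 4 * ‖u‖ := by
      refine hkn.trans ?_
      exact mul_le_mul_of_nonneg_right (by linarith) hu0
    have a1 := (abs_le.1 (hh.tay t u k)).2
    have a2 := (abs_le.1 (hh.tay t u ((2 : ℝ) • k))).1
    have a3 := hneg t (u + (2 : ℝ) • k) (by
      refine (norm_add_le _ _).trans ?_
      rw [norm_smul, Real.norm_eq_abs, abs_of_pos (by norm_num : (0 : ℝ) < 2)]
      linarith)
    have e1 : ⟪h.gx t u, ((2 : ℝ) • k).1⟫ = 2 * ⟪h.gx t u, k.1⟫ := by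
      rw [Prod.smul_fst, inner_smul_right]
    have e2 : ⟪h.gy t u, ((2 : ℝ) • k).2⟫ = 2 * ⟪h.gy t u, k.2⟫ := by
      rw [Prod.smul_snd, inner_smul_right]
    have e3 : ‖(2 : ℝ) • k‖ = 2 * ‖k‖ := by
      rw [norm_smul, Real.norm_eq_abs, abs_of_pos (by norm_num : (0 : ℝ) < 2)]
    rw [e1, e2, e3] at a2
    have e4 : u + k = cur E s τ u t := by rw [hk]; abel
    rw [e4] at a1
    have a4 : 3 * C * ‖k‖ ^ 2 ≤ 12 * C ^ 3 * τ ^ 2 * ‖u‖ ^ 2 := by
      have : ‖k‖ ^ 2 ≤ (2 * (C * τ) * ‖u‖) ^ 2 := by gcongr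
      calc 3 * C * ‖k‖ ^ 2 ≤ 3 * C * (2 * (C * τ) * ‖u‖) ^ 2 := by gcongr
        _ = 12 * C ^ 3 * τ ^ 2 * ‖u‖ ^ 2 := by ring
    nlinarith
  have h2 : ∫ t in s..(s + τ), (1 / 2 * h.H t u + 12 * C ^ 3 * τ ^ 2 * ‖u‖ ^ 2) =
      1 / 2 * (∫ t in s..(s + τ), h.H t u) + τ * (12 * C ^ 3 * τ ^ 2 * ‖u‖ ^ 2) := by
    rw [int_add (f := fun t => 1 / 2 * h.H t u) (g := fun _ => 12 * C ^ 3 * τ ^ 2 * ‖u‖ ^ 2)
      (continuous_const.mul cHu) continuous_const, intervalIntegral.integral_const_mul,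
      intervalIntegral.integral_const, smul_eq_mul]
    ring
  rw [h2] at h1
  nlinarith

/-- Composition of the time-one maps of the first `q` flows. -/
def cmp (E : ℕ → ℝ → V × V → ℝ → V × V) : ℕ → V × V → V × V
  | 0, w => w
  | q + 1, w => E q 0 (cmp E q w) 1

theorem sum_range_mul {α : Type*} [AddCommMonoid α] (f : ℕ → α) (N r : ℕ) :
    ∑ j ∈ Finset.range (N * r), f j =
      ∑ q ∈ Finset.range r, ∑ j ∈ Finset.range N, f (N * q + j) := by
  induction r with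
  | zero => simp
  | succ r ih => rw [Nat.mul_succ, Finset.sum_range_add, ih, Finset.sum_range_succ]

/-- **Quadratic growth for compositions of Hamiltonian flows.** -/
theorem flow_growth {h : ℕ → Ham V} {E : ℕ → ℝ → V × V → ℝ → V × V}
    (hh : ∀ i, (h i).OK C) (hE : ∀ i, Evo (h i) (E i)) {Λ : AddSubgroup (V × V)}
    (hper : ∀ i t z, ∀ e ∈ Λ, (h i).fld t (z + e) = (h i).fld t z) {a : ℝ} (hρ : 0 < ρ)
    (ha : 0 < a) (hneg : ∀ i t z, ‖z‖ ≤ ρ → (h i).H t z ≤ 0) {r : ℕ} (hr : 0 < r)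
    (hdef : ∀ z, ‖z‖ ≤ ρ →
      ∑ i ∈ Finset.range r, ∫ t in (0 : ℝ)..1, (h i).H t z ≤ -(a * ‖z‖ ^ 2))
    (hV : 0 < finrank ℝ V) {X : Type*} {φ : X → X} {π : V × V → X}
    (hπ : ∀ a b, π a = π b ↔ a - b ∈ Λ) (hφ : ∀ w, φ (π w) = π (cmp E r w)) :
    QuadGrowth φ := by
  have hC := (hh 0).pos
  have hrr : (0 : ℝ) < r := by exact_mod_cast hr
  obtain ⟨N, hN1⟩ := exists_nat_gt (max (8 * C) (max (48 * r * C ^ 3 / a) 1))
  have hN8 : 8 * C < N := (le_max_left _ _).trans_lt hN1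
  have hNa : 48 * r * C ^ 3 / a < N :=
    ((le_max_left _ _).trans (le_max_right _ _)).trans_lt hN1
  have hN1' : (1 : ℝ) < N := ((le_max_right _ _).trans (le_max_right _ _)).trans_lt hN1
  have hNr : (0 : ℝ) < N := by linarith
  have hN : 0 < N := by exact_mod_cast hNr
  set τ : ℝ := 1 / N with hτdef
  have hτ : 0 ≤ τ := by positivity
  have hCτ : C * τ ≤ 1 / 8 := by
    rw [hτdef, mul_one_div, div_le_iff₀ hNr]; linarith
  let σ : ℕ → ℝ := fun j => (j % N : ℕ) * τ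
  let ι : ℕ → ℕ := fun j => (j / N) % r
  let G : ℕ → Gen V := fun j => gen (h (ι j)) (E (ι j)) (σ j) τ
  let ψ : ℕ → V × V → V × V := fun j z => E (ι j) (σ j) z (σ j + τ)
  have hG : ∀ j, (G j).OK 1 2 := fun j => gen_ok (hh _) (hE _) hτ hCτ
  have hrel : ∀ j, Rel (G j) (ψ j) := fun j => gen_rel (hh _) (hE _) hτ hCτ
  have hσ : ∀ j, σ (j + N * r) = σ j := by
    intro j
    change ((j + N * r) % N : ℕ) * τ = (j % N : ℕ) * τ
    rw [Nat.add_mul_mod_self_left]
  have hι : ∀ j, ι (j + N * r) = ι j := by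
    intro j
    change ((j + N * r) / N) % r = (j / N) % r
    rw [Nat.add_mul_div_left _ _ hN, Nat.add_mod_right]
  have hσq : ∀ q, ∀ j < N, σ (N * q + j) = j * τ := by
    intro q j hj
    change (((N * q + j) % N : ℕ) : ℝ) * τ = j * τ
    rw [Nat.mul_add_mod, Nat.mod_eq_of_lt hj]
  have hιq : ∀ q < r, ∀ j < N, ι (N * q + j) = q := by
    intro q hq j hj
    change ((N * q + j) / N) % r = q
    rw [Nat.mul_add_div hN, Nat.div_eq_of_lt hj, add_zero, Nat.mod_eq_of_lt hq]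
  have hGper : ∀ j, G (j + N * r) = G j := fun j => by
    change gen (h (ι (j + N * r))) (E (ι (j + N * r))) (σ (j + N * r)) τ =
      gen (h (ι j)) (E (ι j)) (σ j) τ
    rw [hσ, hι]
  have hψper : ∀ j, ψ (j + N * r) = ψ j := fun j => by
    change (fun z => E (ι (j + N * r)) (σ (j + N * r)) z (σ (j + N * r) + τ)) =
      fun z => E (ι j) (σ j) z (σ j + τ)
    rw [hσ, hι]
  have hflw : ∀ q < r, ∀ j ≤ N, ∀ w, flw ψ (N * q + j) w = E q 0 (flw ψ (N * q) w) (j * τ) := by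
    intro q hq j
    induction j with
    | zero =>
      intro _ w
      rw [Nat.cast_zero, zero_mul, (hE q).init]; rfl
    | succ j ih =>
      intro hj w
      change E (ι (N * q + j)) (σ (N * q + j)) (flw ψ (N * q + j) w) (σ (N * q + j) + τ) = _
      rw [ih (by omega), hσq q j (by omega), hιq q hq j (by omega),
        step_comp (hh q) (hE q) hτ hCτ]
      congr 1
      push_cast
      ring
  have hNτ : (N : ℝ) * τ = 1 := by rw [hτdef]; field_simp
  have hflwq : ∀ q ≤ r, ∀ w, flw ψ (N * q) w = cmp E q w := by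
    intro q
    induction q with
    | zero => intro _ w; rfl
    | succ q ih =>
      intro hq w
      rw [Nat.mul_succ, hflw q (by omega) N le_rfl, ih (by omega), hNτ]
      rfl
  have hstep : ∀ u, ‖u‖ ≤ ρ / 4 → ∀ q < r, ∑ j ∈ Finset.range N, (G (N * q + j)).S u ≤
      1 / 4 * (∫ t in (0 : ℝ)..1, (h q).H t u) + 6 * C ^ 3 * τ ^ 2 * ‖u‖ ^ 2 := by
    intro u hu q hq
    have cHu : Continuous fun t => (h q).H t u :=
      (hh q).cH.comp (continuous_id.prodMk continuous_const)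
    have h1 : ∀ j ∈ Finset.range N, (G (N * q + j)).S u ≤
        1 / 4 * (∫ t in (j * τ : ℝ)..((j + 1 : ℕ) * τ : ℝ), (h q).H t u) +
          6 * C ^ 3 * τ ^ 3 * ‖u‖ ^ 2 := by
      intro j hj
      rw [Finset.mem_range] at hj
      have h2 := gen_le_frozen (s := j * τ) (hh q) (hE q) hτ hCτ (hneg q) u (by linarith)
      have h3 : j * τ + τ = ((j + 1 : ℕ) : ℝ) * τ := by push_cast; ring
      rw [h3] at h2
      change (gen (h (ι (N * q + j))) (E (ι (N * q + j))) (σ (N * q + j)) τ).S u ≤ _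
      rw [hσq q j hj, hιq q hq j hj]
      exact h2
    refine (Finset.sum_le_sum h1).trans ?_
    rw [Finset.sum_add_distrib, ← Finset.mul_sum, Finset.sum_const, Finset.card_range,
      nsmul_eq_mul]
    have h4 := intervalIntegral.sum_integral_adjacent_intervals (a := fun j : ℕ => (j : ℝ) * τ)
      (f := fun t => (h q).H t u) (n := N) (μ := MeasureTheory.volume)
      (fun k _ => cHu.intervalIntegrable _ _)
    rw [h4]
    have h5 : ((0 : ℕ) : ℝ) * τ = 0 := by simp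
    rw [h5, hNτ]
    have e : (N : ℝ) * (6 * C ^ 3 * τ ^ 3 * ‖u‖ ^ 2) = 6 * C ^ 3 * τ ^ 2 * ‖u‖ ^ 2 := by
      calc (N : ℝ) * (6 * C ^ 3 * τ ^ 3 * ‖u‖ ^ 2) =
          ((N : ℝ) * τ) * (6 * C ^ 3 * τ ^ 2 * ‖u‖ ^ 2) := by ring
        _ = _ := by rw [hNτ, one_mul]
    rw [e]
  have hsum : ∀ u, ‖u‖ ≤ ρ / 4 →
      ∑ j ∈ Finset.range (N * r), (G j).S u ≤ -(a / 8 * ‖u‖ ^ 2) := by
    intro u hu
    rw [sum_range_mul]
    refine (Finset.sum_le_sum fun q hq => hstep u hu q (Finset.mem_range.1 hq)).trans ?_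
    rw [Finset.sum_add_distrib, ← Finset.mul_sum, Finset.sum_const, Finset.card_range,
      nsmul_eq_mul]
    have h7 := hdef u (by linarith [norm_nonneg u])
    have h8 : (r : ℝ) * (6 * C ^ 3 * τ ^ 2 * ‖u‖ ^ 2) ≤ a / 8 * ‖u‖ ^ 2 := by
      have h9 : r * (6 * C ^ 3 * τ ^ 2) ≤ a / 8 := by
        have h10 : τ ≤ 1 := by
          rw [hτdef, div_le_iff₀ hNr]; linarith
        have h11 : 48 * r * C ^ 3 * τ ≤ a := by
          rw [div_lt_iff₀ ha] at hNa
          rw [hτdef, mul_one_div, div_le_iff₀ hNr]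
          linarith
        have h12 : 48 * r * C ^ 3 * τ ^ 2 ≤ a := by
          have h13 : τ ^ 2 ≤ τ := by nlinarith
          have h14 : 48 * r * C ^ 3 * τ ^ 2 ≤ 48 * r * C ^ 3 * τ := by gcongr
          linarith
        linarith
      have := mul_le_mul_of_nonneg_right h9 (sq_nonneg ‖u‖)
      linarith
    linarith
  obtain ⟨k, hk, m, hm, hmk, hidx⟩ := posIndex_of_semidef hG (by norm_num)
    (Nat.mul_pos hN hr) hGper
    (by positivity : 0 < ρ / 4) (by positivity : 0 < a / 8)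
    (fun j u hu => gen_nonpos (hh _) (hE _) hτ hCτ (hneg _) u (by linarith)) hsum hV
  exact gf_growth hG (by norm_num) hrel (Nat.mul_pos hN hr) hGper hψper
    (fun j w => step_odd (hh _) (hE _) hτ hCτ w) hπ
    (fun j w e he => step_equiv (hh _) (hE _) hτ hCτ (fun t z => hper _ t z e he) w)
    (fun w => by rw [hflwq r le_rfl, hφ]) hk hmk hidx

end Pool.Agent.H60.PO
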