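import Pool.Agent.H60.PO.Gf

/-!
# A local extremum which is definite on average has a positive index
-/

set_option autoImplicit false
set_option linter.unusedSectionVars false

open Metric Module

namespace Pool.Agent.H60.PO

universe u

variable {V : Type u} [NormedAddCommGroup V] [InnerProductSpace ℝ V] [FiniteDimensional ℝ V]

open scoped RealInnerProductSpace

/-- The negative of the generating function is nonnegative near the centre. -/
theorem half_lower {G : Gen V} {b L ρ : ℝ} (hG : G.OK b L)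
    (hneg : ∀ u, ‖u‖ ≤ ρ → G.S u ≤ 0) (u k : V × V) (huk : ‖u + (2 : ℝ) • k‖ ≤ ρ) :
    1 / 2 * (-G.S u) - 3 * L * ‖k‖ ^ 2 ≤ -G.S (u + k) := by
  have h1 := (abs_le.1 (hG.taylor u k)).2
  have h2 := (abs_le.1 (hG.taylor u ((2 : ℝ) • k))).1
  have h3 := hneg _ huk
  have e1 : ⟪G.sx u, ((2 : ℝ) • k).1⟫ = 2 * ⟪G.sx u, k.1⟫ := by
    rw [Prod.smul_fst, inner_smul_right]
  have e2 : ⟪G.sy u, ((2 : ℝ) • k).2⟫ = 2 * ⟪G.sy u, k.2⟫ := by
    rw [Prod.smul_snd, inner_smul_right]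
  have e3 : ‖(2 : ℝ) • k‖ = 2 * ‖k‖ := by
    rw [norm_smul, Real.norm_eq_abs, abs_of_pos (by norm_num : (0 : ℝ) < 2)]
  rw [e1, e2, e3] at h2
  nlinarith

/-- One window of `N` steps. -/
theorem window {G : ℕ → Gen V} {b L ρ a : ℝ} (hG : ∀ j, (G j).OK b L) (hL : 0 < L) {N : ℕ}
    (hN : 0 < N) (ha : 0 < a) (hneg : ∀ j u, ‖u‖ ≤ ρ → (G j).S u ≤ 0)
    (hdef : ∀ u, ‖u‖ ≤ ρ → ∑ j ∈ Finset.range N, (G j).S u ≤ -(a * ‖u‖ ^ 2))
    (X : ℕ → V) (c : V) (r : ℝ) (hr : 7 * r ≤ ρ) (hX : ∀ i, ‖X i‖ ≤ r) (hc : ‖c‖ ≤ 3 * r) :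
    ∑ j ∈ Finset.range N, (G j).S (X (j + 1), (X (j + 1) - X j) + c) ≤
      1 / 4 * ∑ j ∈ Finset.range N, ‖X (j + 1) - X j‖ ^ 2 -
      min 1 (1 / (12 * L * N ^ 2)) * (a / 2) * (1 / 2 * ‖X 0‖ ^ 2 + 1 / 2 * ‖c‖ ^ 2) := by
  have hr0 : 0 ≤ r := (norm_nonneg _).trans (hX 0)
  have hNr : (0 : ℝ) < N := by exact_mod_cast hN
  set θ := min 1 (1 / (12 * L * (N : ℝ) ^ 2)) with hθ
  have hθ0 : 0 < θ := lt_min one_pos (by positivity)
  have hθ1 : θ ≤ 1 := min_le_left _ _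
  have hθ2 : θ * (12 * L * (N : ℝ) ^ 2) ≤ 1 := by
    have : θ ≤ 1 / (12 * L * (N : ℝ) ^ 2) := min_le_right _ _
    rwa [le_div_iff₀ (by positivity)] at this
  set e := ∑ j ∈ Finset.range N, ‖X (j + 1) - X j‖ ^ 2 with he
  -- displacement
  have hk : ∀ j < N, ‖((X (j + 1) - X 0, X (j + 1) - X j) : V × V)‖ ^ 2 ≤ N * e := by
    intro j hj
    have h1 : ∀ i ≤ N, ‖X i - X 0‖ ≤ ∑ l ∈ Finset.range N, ‖X (l + 1) - X l‖ := by
      intro i hi
      have h2 : X i - X 0 = ∑ l ∈ Finset.range i, (X (l + 1) - X l) :=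
        (Finset.sum_range_sub X i).symm
      rw [h2]
      refine (norm_sum_le _ _).trans ?_
      exact Finset.sum_le_sum_of_subset_of_nonneg (Finset.range_subset_range.2 hi)
        (fun _ _ _ => norm_nonneg _)
    have h2 : ‖X (j + 1) - X j‖ ≤ ∑ l ∈ Finset.range N, ‖X (l + 1) - X l‖ :=
      Finset.single_le_sum (f := fun l => ‖X (l + 1) - X l‖) (fun _ _ => norm_nonneg _)
        (Finset.mem_range.2 hj)
    have h3 : ‖((X (j + 1) - X 0, X (j + 1) - X j) : V × V)‖ ≤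
        ∑ l ∈ Finset.range N, ‖X (l + 1) - X l‖ := by
      rw [Prod.norm_def]
      exact max_le (h1 _ hj) h2
    have h4 : (∑ l ∈ Finset.range N, ‖X (l + 1) - X l‖) ^ 2 ≤ N * e := by
      have := sq_sum_le_card_mul_sum_sq (s := Finset.range N) (f := fun l => ‖X (l + 1) - X l‖)
      rwa [Finset.card_range] at this
    refine le_trans ?_ h4
    gcongr
  -- each step
  have hstep : ∀ j ∈ Finset.range N, (G j).S (X (j + 1), (X (j + 1) - X j) + c) ≤
      1 / 2 * (G j).S (X 0, c) + 3 * L * (N * e) := by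
    intro j hj
    rw [Finset.mem_range] at hj
    have h1 := half_lower (hG j) (hneg j) (X 0, c) (X (j + 1) - X 0, X (j + 1) - X j) (by
      have h2 : ‖X (j + 1) - X 0‖ ≤ 2 * r := by
        refine (norm_sub_le _ _).trans ?_
        have := hX (j + 1); have := hX 0; linarith
      have h3 : ‖X (j + 1) - X j‖ ≤ 2 * r := by
        refine (norm_sub_le _ _).trans ?_
        have := hX (j + 1); have := hX j; linarith
      have h4 : ‖((X 0, c) : V × V)‖ ≤ 3 * r := by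
        rw [Prod.norm_def]
        exact max_le (by have := hX 0; simp only; linarith) hc
      have h5 : ‖((X (j + 1) - X 0, X (j + 1) - X j) : V × V)‖ ≤ 2 * r := by
        rw [Prod.norm_def]
        exact max_le h2 h3
      refine (norm_add_le _ _).trans ?_
      rw [norm_smul, Real.norm_eq_abs, abs_of_pos (by norm_num : (0 : ℝ) < 2)]
      linarith)
    have e1 : ((X 0, c) : V × V) + (X (j + 1) - X 0, X (j + 1) - X j) =
        (X (j + 1), (X (j + 1) - X j) + c) := by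
      refine Prod.ext ?_ ?_
      · change X 0 + (X (j + 1) - X 0) = X (j + 1); abel
      · change c + (X (j + 1) - X j) = (X (j + 1) - X j) + c; abel
    rw [e1] at h1
    have h2 := mul_le_mul_of_nonneg_left (hk j hj) (by positivity : 0 ≤ 3 * L)
    linarith
  have hnonpos : ∑ j ∈ Finset.range N, (G j).S (X (j + 1), (X (j + 1) - X j) + c) ≤ 0 := by
    refine Finset.sum_nonpos fun j _ => hneg j _ ?_
    rw [Prod.norm_def]
    have h3 : ‖X (j + 1) - X j‖ ≤ 2 * r := by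
      refine (norm_sub_le _ _).trans ?_
      have := hX (j + 1); have := hX j; linarith
    refine max_le ?_ ?_
    · have := hX (j + 1); simp only; linarith
    · refine (norm_add_le _ _).trans ?_
      linarith
  have hsum := Finset.sum_le_sum hstep
  rw [Finset.sum_add_distrib, ← Finset.mul_sum, Finset.sum_const, Finset.card_range,
    nsmul_eq_mul] at hsum
  have hd := hdef (X 0, c) (by
    rw [Prod.norm_def]
    exact max_le (by have := hX 0; simp only; linarith) (by simp only; linarith))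
  have hnorm : 1 / 2 * ‖X 0‖ ^ 2 + 1 / 2 * ‖c‖ ^ 2 ≤ ‖((X 0, c) : V × V)‖ ^ 2 := by
    have h1 : ‖X 0‖ ≤ ‖((X 0, c) : V × V)‖ := norm_fst_le (X 0, c)
    have h2 : ‖c‖ ≤ ‖((X 0, c) : V × V)‖ := norm_snd_le (X 0, c)
    have h3 : ‖X 0‖ ^ 2 ≤ ‖((X 0, c) : V × V)‖ ^ 2 := by gcongr
    have h4 : ‖c‖ ^ 2 ≤ ‖((X 0, c) : V × V)‖ ^ 2 := by gcongr
    linarith
  set s := ∑ j ∈ Finset.range N, (G j).S (X (j + 1), (X (j + 1) - X j) + c) with hs
  have he0 : 0 ≤ e := Finset.sum_nonneg fun _ _ => sq_nonneg _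
  have h5 : s ≤ -(a / 2) * (1 / 2 * ‖X 0‖ ^ 2 + 1 / 2 * ‖c‖ ^ 2) + 3 * L * N ^ 2 * e := by
    have : a / 2 * (1 / 2 * ‖X 0‖ ^ 2 + 1 / 2 * ‖c‖ ^ 2) ≤ a / 2 * ‖((X 0, c) : V × V)‖ ^ 2 := by
      gcongr
    nlinarith
  have h6 : s ≤ θ * s := by nlinarith
  have h7 := mul_le_mul_of_nonneg_left h5 hθ0.le
  have h8 : θ * (3 * L * N ^ 2 * e) ≤ 1 / 4 * e := by
    have := mul_le_mul_of_nonneg_right hθ2 he0
    nlinarith
  nlinarith

/-- A block of `k` windows with constant offset `c`. -/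
theorem block {G : ℕ → Gen V} {b L ρ a : ℝ} (hG : ∀ j, (G j).OK b L) (hL : 0 < L) {N : ℕ}
    (hN : 0 < N) (hper : ∀ j, G (j + N) = G j) (ha : 0 < a)
    (hneg : ∀ j u, ‖u‖ ≤ ρ → (G j).S u ≤ 0)
    (hdef : ∀ u, ‖u‖ ≤ ρ → ∑ j ∈ Finset.range N, (G j).S u ≤ -(a * ‖u‖ ^ 2))
    (X : ℕ → V) (c : V) (r : ℝ) (hr : 7 * r ≤ ρ) (hX : ∀ i, ‖X i‖ ≤ r) (hc : ‖c‖ ≤ 3 * r)
    {κ : ℝ} (hκ : κ = min 1 (1 / (12 * L * N ^ 2)) * (a / 2)) (k : ℕ) :
    ∑ i ∈ Finset.range (N * k), (G i).S (X (i + 1), (X (i + 1) - X i) + c) ≤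
      1 / 4 * ∑ i ∈ Finset.range (N * k), ‖X (i + 1) - X i‖ ^ 2 -
      (κ / 2 * ∑ q ∈ Finset.range k, ‖X (N * q)‖ ^ 2 + κ / 2 * k * ‖c‖ ^ 2) := by
  induction k with
  | zero => simp
  | succ k ih =>
    have hw := window hG hL hN ha hneg hdef (fun i => X (N * k + i)) c r hr (fun i => hX _) hc
    simp only [add_zero] at hw
    rw [← hκ] at hw
    have e1 : ∑ j ∈ Finset.range N, (G j).S (X (N * k + (j + 1)),
        (X (N * k + (j + 1)) - X (N * k + j)) + c) =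
        ∑ j ∈ Finset.range N, (G (N * k + j)).S (X (N * k + j + 1),
        (X (N * k + j + 1) - X (N * k + j)) + c) := by
      refine Finset.sum_congr rfl fun j _ => ?_
      rw [per_mul hper, add_assoc]
    have e2 : ∑ j ∈ Finset.range N, ‖X (N * k + (j + 1)) - X (N * k + j)‖ ^ 2 =
        ∑ j ∈ Finset.range N, ‖X (N * k + j + 1) - X (N * k + j)‖ ^ 2 := by
      refine Finset.sum_congr rfl fun j _ => ?_
      rw [add_assoc]
    rw [e1, e2] at hw
    rw [Nat.mul_succ, Finset.sum_range_add, Finset.sum_range_add _ (N * k) N,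
      Finset.sum_range_succ _ k]
    push_cast
    linarith

theorem cross_bound {κ : ℝ} (hκ0 : 0 < κ) (c0 c1 A B : V) :
    -(κ / 4 * (‖A‖ ^ 2 + ‖B‖ ^ 2) + 4 / κ * (‖c0‖ ^ 2 + ‖c1‖ ^ 2)) ≤
      ⟪c0, B - A⟫ + ⟪c1, A - B⟫ := by
  have h1 := (abs_le.1 (abs_real_inner_le_norm c0 (B - A))).1
  have h2 := (abs_le.1 (abs_real_inner_le_norm c1 (A - B))).1
  have h3 : ‖B - A‖ ≤ ‖B‖ + ‖A‖ := norm_sub_le _ _
  have h4 : ‖A - B‖ ≤ ‖B‖ + ‖A‖ := by
    rw [norm_sub_rev]; exact h3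
  have h5 : ‖c0‖ * ‖B - A‖ ≤ ‖c0‖ * (‖B‖ + ‖A‖) := by gcongr
  have h6 : ‖c1‖ * ‖A - B‖ ≤ ‖c1‖ * (‖B‖ + ‖A‖) := by gcongr
  set p := ‖c0‖ + ‖c1‖ with hp
  set q := ‖B‖ + ‖A‖ with hq'
  have h7 : p * q ≤ κ / 8 * q ^ 2 + 2 / κ * p ^ 2 := by
    have h8 : 0 ≤ (κ * q - 4 * p) ^ 2 / (8 * κ) := by positivity
    have h9 : (κ * q - 4 * p) ^ 2 / (8 * κ) = κ / 8 * q ^ 2 + 2 / κ * p ^ 2 - p * q := by
      field_simp; ring
    linarith
  have h8 : q ^ 2 ≤ 2 * (‖A‖ ^ 2 + ‖B‖ ^ 2) := by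
    rw [hq']; nlinarith [sq_nonneg (‖B‖ - ‖A‖)]
  have h9 : p ^ 2 ≤ 2 * (‖c0‖ ^ 2 + ‖c1‖ ^ 2) := by
    rw [hp]; nlinarith [sq_nonneg (‖c0‖ - ‖c1‖)]
  have h10 := mul_le_mul_of_nonneg_left h8 (by positivity : 0 ≤ κ / 8)
  have h11 := mul_le_mul_of_nonneg_left h9 (by positivity : 0 ≤ 2 / κ)
  have h12 : 2 / κ * (2 * (‖c0‖ ^ 2 + ‖c1‖ ^ 2)) = 4 / κ * (‖c0‖ ^ 2 + ‖c1‖ ^ 2) := by ring
  rw [h12] at h11
  have h13 : p * q = ‖c0‖ * q + ‖c1‖ * q := by rw [hp]; ring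
  linarith

theorem norm_seq (X : ℕ → V) {i m : ℕ} (hi : i < m) :
    ‖X i‖ ^ 2 ≤ 2 * ‖X 0‖ ^ 2 + 2 * m * ∑ l ∈ Finset.range m, ‖X (l + 1) - X l‖ ^ 2 := by
  have e : X i = X 0 + ∑ l ∈ Finset.range i, (X (l + 1) - X l) := by
    rw [Finset.sum_range_sub]; abel
  have h2 : ‖X i‖ ≤ ‖X 0‖ + ∑ l ∈ Finset.range m, ‖X (l + 1) - X l‖ := by
    nth_rewrite 1 [e]
    refine (norm_add_le _ _).trans ?_
    refine add_le_add_right ?_ _
    refine (norm_sum_le _ _).trans ?_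
    exact Finset.sum_le_sum_of_subset_of_nonneg (Finset.range_subset_range.2 hi.le)
      (fun _ _ _ => norm_nonneg _)
  have h3 : (∑ l ∈ Finset.range m, ‖X (l + 1) - X l‖) ^ 2 ≤
      m * ∑ l ∈ Finset.range m, ‖X (l + 1) - X l‖ ^ 2 := by
    have := sq_sum_le_card_mul_sum_sq (s := Finset.range m)
      (f := fun l => ‖X (l + 1) - X l‖)
    rwa [Finset.card_range] at this
  have h4 : ‖X i‖ ^ 2 ≤ (‖X 0‖ + ∑ l ∈ Finset.range m, ‖X (l + 1) - X l‖) ^ 2 := by
    gcongr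
  nlinarith [sq_nonneg (‖X 0‖ - ∑ l ∈ Finset.range m, ‖X (l + 1) - X l‖)]

theorem sq_norm_add (A B : V) : ‖A + B‖ ^ 2 ≤ 2 * ‖A‖ ^ 2 + 2 * ‖B‖ ^ 2 := by
  have h6 : ‖A + B‖ ^ 2 ≤ (‖A‖ + ‖B‖) ^ 2 := by
    have := norm_add_le A B
    gcongr
  nlinarith [sq_nonneg (‖A‖ - ‖B‖)]

theorem arith_aux {m S A C : ℝ} (hm : 0 ≤ m) (hS : 0 ≤ S) (hA : 0 ≤ A) (hC : 0 ≤ C) :
    m * (2 * A + 2 * m * S) + (2 * S + m * (2 * C)) ≤ (2 * m * m + 2 * m + 2) * (S + (A + C)) := by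
  have h1 := mul_nonneg hm hS
  have h2 := mul_nonneg hm hA
  have h3 := mul_nonneg hm hC
  have h4 := mul_nonneg hm h2
  have h5 := mul_nonneg hm h3
  nlinarith

/-- **Positive index at a local extremum which is definite on average.** -/
theorem posIndex_of_semidef {G : ℕ → Gen V} {b L ρ a : ℝ} (hG : ∀ j, (G j).OK b L) (hL : 0 < L)
    {N : ℕ} (hN : 0 < N) (hper : ∀ j, G (j + N) = G j) (hρ : 0 < ρ) (ha : 0 < a)
    (hneg : ∀ j u, ‖u‖ ≤ ρ → (G j).S u ≤ 0)
    (hdef : ∀ u, ‖u‖ ≤ ρ → ∑ j ∈ Finset.range N, (G j).S u ≤ -(a * ‖u‖ ^ 2))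
    (hV : 0 < finrank ℝ V) :
    ∃ k > 0, ∃ m : ℕ, ∃ _ : NeZero m, m = N * k ∧ PosIndex G m := by
  set κ := min 1 (1 / (12 * L * (N : ℝ) ^ 2)) * (a / 2) with hκ
  have hNr : (0 : ℝ) < N := by exact_mod_cast hN
  have hκ0 : 0 < κ := mul_pos (lt_min one_pos (by positivity)) (by positivity)
  obtain ⟨k, hk⟩ := exists_nat_gt ((4 / κ + κ / 4) / (κ / 2))
  rw [div_lt_iff₀ (by positivity)] at hk
  have hk0 : 0 < k := by
    rcases Nat.eq_zero_or_pos k with h | h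
    · rw [h, Nat.cast_zero, zero_mul] at hk
      have : 0 < 4 / κ + κ / 4 := by positivity
      linarith
    · exact h
  set m := N * (k + k) with hm
  have hm0 : 0 < m := Nat.mul_pos hN (by omega)
  have : NeZero m := ⟨hm0.ne'⟩
  refine ⟨k + k, by omega, m, inferInstance, hm, ?_⟩
  have hNk : N * k < m := by
    rw [hm, mul_add]
    have := Nat.mul_pos hN hk0
    omega
  have hm2 : m = N * k + N * k := by rw [hm, mul_add]
  let ι : ((Fin m → V) × (V × V)) →ₗ[ℝ] (Fin m → V) × (Fin m → V) :=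
    { toFun := fun p => (p.1, fun i => (p.1 (i + 1) - p.1 i) +
        (if (i : ℕ) < N * k then p.2.1 else p.2.2))
      map_add' := by
        intro p q
        refine Prod.ext rfl ?_
        funext i
        simp only [Prod.fst_add, Prod.snd_add, Pi.add_apply]
        split_ifs <;> abel
      map_smul' := by
        intro c p
        refine Prod.ext rfl ?_
        funext i
        simp only [Prod.smul_fst, Prod.smul_snd, Pi.smul_apply, RingHom.id_apply]
        split_ifs <;> simp only [smul_add, smul_sub] }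
  have hι : ∀ p, ι p = (p.1, fun i => (p.1 (i + 1) - p.1 i) +
        (if (i : ℕ) < N * k then p.2.1 else p.2.2)) := fun p => rfl
  have hinj : Function.Injective ι := by
    rw [injective_iff_map_eq_zero]
    intro p hp
    rw [hι] at hp
    have h1 : p.1 = 0 := congrArg Prod.fst hp
    have h2 := congrArg Prod.snd hp
    simp only [h1] at h2
    have h3 := congrFun h2 ⟨0, hm0⟩
    have h4 := congrFun h2 ⟨N * k, hNk⟩
    have h5 : 0 < N * k := Nat.mul_pos hN hk0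
    simp only [Pi.zero_apply, sub_self, zero_add, if_pos h5, lt_irrefl, if_false, Prod.snd_zero]
      at h3 h4
    exact Prod.ext h1 (Prod.ext h3 h4)
  refine ⟨LinearMap.range ι, ?_, ?_⟩
  · rw [LinearMap.finrank_range_of_inj hinj, Module.finrank_prod, Module.finrank_prod,
      Module.finrank_pi_fintype, Finset.sum_const, Finset.card_univ, Fintype.card_fin,
      smul_eq_mul, add_mul, one_mul]
    omega
  · have hmr : (0 : ℝ) < m := by exact_mod_cast hm0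
    refine ⟨min (3 / 4) (κ / 4) / (2 * m * m + 2 * m + 2), by
      have : 0 < min (3 / 4) (κ / 4) := lt_min (by norm_num) (by positivity)
      positivity, ρ / 7, by positivity, ?_⟩
    rintro w ⟨⟨x, c0, c1⟩, rfl⟩ hw
    set r := ρ / 7 with hr
    have hr7 : 7 * r ≤ ρ := by rw [hr]; linarith
    let X : ℕ → V := fun i => x ⟨i % m, Nat.mod_lt _ hm0⟩
    have hXi : ∀ i (h : i < m), X i = x ⟨i, h⟩ := by
      intro i h
      change x ⟨i % m, _⟩ = x ⟨i, h⟩
      congr 1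
      exact Fin.ext (Nat.mod_eq_of_lt h)
    have hXm : X m = X 0 := by
      change x ⟨m % m, _⟩ = x ⟨0 % m, _⟩
      congr 1
      exact Fin.ext (by simp)
    have hXs : ∀ i (h : i < m), X (i + 1) = x (⟨i, h⟩ + 1) := by
      intro i h
      rcases Nat.lt_or_ge (i + 1) m with h1 | h1
      · rw [hXi _ h1, fin_succ_val h1]
      · have h2 : i + 1 = m := by omega
        rw [fin_last_add h2, h2, hXm]
        change x ⟨0 % m, _⟩ = x 0
        congr 1
    have hx : ‖x‖ ≤ r := (norm_fst_le (ι (x, c0, c1))).trans hw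
    have hy : ∀ i, ‖(ι (x, c0, c1)).2 i‖ ≤ r := fun i =>
      (norm_le_pi_norm _ i).trans ((norm_snd_le (ι (x, c0, c1))).trans hw)
    have hX : ∀ i, ‖X i‖ ≤ r := fun i => (norm_le_pi_norm x _).trans hx
    have hD : ∀ i, ‖X (i + 1) - X i‖ ≤ 2 * r := by
      intro i
      refine (norm_sub_le _ _).trans ?_
      have := hX (i + 1); have := hX i; linarith
    let cc : ℕ → V := fun i => if i < N * k then c0 else c1
    have hcc0 : ∀ i < N * k, cc i = c0 := fun i h => if_pos h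
    have hcc1 : ∀ i, cc (N * k + i) = c1 := fun i => if_neg (by omega)
    have hY : ∀ i (h : i < m), (ι (x, c0, c1)).2 ⟨i, h⟩ = (X (i + 1) - X i) + cc i := by
      intro i h
      rw [hXs i h, hXi i h]; rfl
    have hcn : ∀ i (h : i < m), ‖cc i‖ ≤ 3 * r := by
      intro i h
      have h1 := hy ⟨i, h⟩
      rw [hY i h] at h1
      have h2 : cc i = ((X (i + 1) - X i) + cc i) - (X (i + 1) - X i) := by abel
      rw [h2]
      refine (norm_sub_le _ _).trans ?_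
      have := hD i
      linarith
    have hc0 : ‖c0‖ ≤ 3 * r := by
      have := hcn 0 hm0
      rwa [hcc0 0 (Nat.mul_pos hN hk0)] at this
    have hc1 : ‖c1‖ ≤ 3 * r := by
      have := hcn (N * k) hNk
      have h2 := hcc1 0
      rw [add_zero] at h2
      rwa [h2] at this
    -- the action
    have hpact : pact G (ι (x, c0, c1)) = ∑ i ∈ Finset.range m,
        (⟪(X (i + 1) - X i) + cc i, X (i + 1) - X i⟫ -
          (G i).S (X (i + 1), (X (i + 1) - X i) + cc i)) := by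
      unfold pact
      rw [Finset.sum_range]
      refine Finset.sum_congr rfl fun i _ => ?_
      have h1 := hY i i.2
      have h2 := hXs i i.2
      have h3 := hXi i i.2
      have h4 : (⟨(i : ℕ), i.2⟩ : Fin m) = i := rfl
      rw [h4] at h1 h2 h3
      rw [h1]
      have h5 : (ι (x, c0, c1)).1 = x := rfl
      rw [h5, ← h2, ← h3]
    have hsplit : pact G (ι (x, c0, c1)) =
        (∑ i ∈ Finset.range (N * k), (⟪(X (i + 1) - X i) + c0, X (i + 1) - X i⟫ -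
          (G i).S (X (i + 1), (X (i + 1) - X i) + c0))) +
        ∑ i ∈ Finset.range (N * k), (⟪(X (N * k + (i + 1)) - X (N * k + i)) + c1,
          X (N * k + (i + 1)) - X (N * k + i)⟫ -
          (G i).S (X (N * k + (i + 1)), (X (N * k + (i + 1)) - X (N * k + i)) + c1)) := by
      rw [hpact]
      have e : Finset.range m = Finset.range (N * k + N * k) := by rw [← hm2]
      rw [e, Finset.sum_range_add]
      congr 1
      · refine Finset.sum_congr rfl fun i hi => ?_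
        rw [hcc0 i (Finset.mem_range.1 hi)]
      · refine Finset.sum_congr rfl fun i _ => ?_
        rw [hcc1, per_mul hper, add_assoc]
    have hb0 := block hG hL hN hper ha hneg hdef X c0 r hr7 hX hc0 hκ k
    have hb1 := block hG hL hN hper ha hneg hdef (fun i => X (N * k + i)) c1 r hr7
      (fun i => hX _) hc1 hκ k
    -- inner products
    have hin : ∀ (Z : ℕ → V) (c : V), ∑ i ∈ Finset.range (N * k),
        (⟪(Z (i + 1) - Z i) + c, Z (i + 1) - Z i⟫ : ℝ) =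
        ∑ i ∈ Finset.range (N * k), ‖Z (i + 1) - Z i‖ ^ 2 + ⟪c, Z (N * k) - Z 0⟫ := by
      intro Z c
      have h1 : Z (N * k) - Z 0 = ∑ i ∈ Finset.range (N * k), (Z (i + 1) - Z i) :=
        (Finset.sum_range_sub Z _).symm
      rw [h1, inner_sum, ← Finset.sum_add_distrib]
      refine Finset.sum_congr rfl fun i _ => ?_
      rw [inner_add_left, real_inner_self_eq_norm_sq]
    have hi0 := hin X c0
    have hi1 := hin (fun i => X (N * k + i)) c1
    simp only [add_zero] at hi1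
    have hX2 : X (N * k + N * k) = X 0 := by rw [← hm2, hXm]
    rw [hX2] at hi1
    have hq : ∀ (Z : ℕ → V), ‖Z 0‖ ^ 2 ≤ ∑ q ∈ Finset.range k, ‖Z (N * q)‖ ^ 2 := by
      intro Z
      have := Finset.single_le_sum (f := fun q => ‖Z (N * q)‖ ^ 2) (fun _ _ => sq_nonneg _)
        (Finset.mem_range.2 hk0)
      simpa using this
    have hq0 := hq X
    have hq1 := hq (fun i => X (N * k + i))
    simp only [add_zero] at hq1
    set S0 := ∑ i ∈ Finset.range (N * k), ‖X (i + 1) - X i‖ ^ 2 with hS0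
    set S1 := ∑ i ∈ Finset.range (N * k), ‖X (N * k + (i + 1)) - X (N * k + i)‖ ^ 2 with hS1
    have hS0' : 0 ≤ S0 := Finset.sum_nonneg fun _ _ => sq_nonneg _
    have hS1' : 0 ≤ S1 := Finset.sum_nonneg fun _ _ => sq_nonneg _
    have hmain : 3 / 4 * (S0 + S1) + (⟪c0, X (N * k) - X 0⟫ + ⟪c1, X 0 - X (N * k)⟫) +
        κ / 2 * (‖X 0‖ ^ 2 + ‖X (N * k)‖ ^ 2) + κ / 2 * k * (‖c0‖ ^ 2 + ‖c1‖ ^ 2) ≤
        pact G (ι (x, c0, c1)) := by
      rw [hsplit, Finset.sum_sub_distrib, Finset.sum_sub_distrib, hi0, hi1]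
      have h1 := mul_le_mul_of_nonneg_left hq0 (by positivity : 0 ≤ κ / 2)
      have h2 := mul_le_mul_of_nonneg_left hq1 (by positivity : 0 ≤ κ / 2)
      linarith
    have hcross := cross_bound hκ0 c0 c1 (X 0) (X (N * k))
    have hlow : 3 / 4 * (S0 + S1) + κ / 4 * (‖X 0‖ ^ 2 + (‖c0‖ ^ 2 + ‖c1‖ ^ 2)) ≤
        pact G (ι (x, c0, c1)) := by
      refine le_trans ?_ hmain
      have h1 : (4 / κ + κ / 4) * (‖c0‖ ^ 2 + ‖c1‖ ^ 2) ≤
          κ / 2 * k * (‖c0‖ ^ 2 + ‖c1‖ ^ 2) := by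
        refine mul_le_mul_of_nonneg_right ?_ (by positivity)
        linarith
      have h2 : 0 ≤ κ / 4 * ‖X (N * k)‖ ^ 2 := by positivity
      rw [add_mul] at h1
      linarith
    -- the norm
    have hnorm : ‖ι (x, c0, c1)‖ ^ 2 ≤
        (2 * m * m + 2 * m + 2) * ((S0 + S1) + (‖X 0‖ ^ 2 + (‖c0‖ ^ 2 + ‖c1‖ ^ 2))) := by
      refine (sq_norm_le _).trans ?_
      have hS : ∑ i ∈ Finset.range m, ‖X (i + 1) - X i‖ ^ 2 = S0 + S1 := by
        have e : Finset.range m = Finset.range (N * k + N * k) := by rw [← hm2]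
        rw [e, Finset.sum_range_add]
        simp only [hS0, hS1, add_assoc]
      have h1 : ∀ i < m, ‖X i‖ ^ 2 ≤ 2 * ‖X 0‖ ^ 2 + 2 * m * (S0 + S1) := by
        intro i hi
        have := norm_seq X hi
        rwa [hS] at this
      have h2 : ∑ i : Fin m, (⟪(ι (x, c0, c1)).1 i, (ι (x, c0, c1)).1 i⟫ : ℝ) ≤
          m * (2 * ‖X 0‖ ^ 2 + 2 * m * (S0 + S1)) := by
        have : ∑ i : Fin m, (⟪(ι (x, c0, c1)).1 i, (ι (x, c0, c1)).1 i⟫ : ℝ) ≤
            ∑ i : Fin m, (2 * ‖X 0‖ ^ 2 + 2 * m * (S0 + S1)) := by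
          refine Finset.sum_le_sum fun i _ => ?_
          rw [real_inner_self_eq_norm_sq]
          have := h1 i i.2
          rwa [hXi i i.2] at this
        rwa [Finset.sum_const, Finset.card_univ, Fintype.card_fin, nsmul_eq_mul] at this
      have h3 : ∑ i : Fin m, (⟪(ι (x, c0, c1)).2 i, (ι (x, c0, c1)).2 i⟫ : ℝ) ≤
          2 * (S0 + S1) + m * (2 * (‖c0‖ ^ 2 + ‖c1‖ ^ 2)) := by
        have e1 : ∑ i : Fin m, (⟪(ι (x, c0, c1)).2 i, (ι (x, c0, c1)).2 i⟫ : ℝ) =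
            ∑ i ∈ Finset.range m, ‖(X (i + 1) - X i) + cc i‖ ^ 2 := by
          rw [Finset.sum_range]
          refine Finset.sum_congr rfl fun i _ => ?_
          rw [real_inner_self_eq_norm_sq]
          have := hY i i.2
          rw [← this]
        rw [e1, ← hS, Finset.mul_sum]
        have e2 : (m : ℝ) * (2 * (‖c0‖ ^ 2 + ‖c1‖ ^ 2)) =
            ∑ i ∈ Finset.range m, 2 * (‖c0‖ ^ 2 + ‖c1‖ ^ 2) := by
          rw [Finset.sum_const, Finset.card_range, nsmul_eq_mul]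
        rw [e2, ← Finset.sum_add_distrib]
        refine Finset.sum_le_sum fun i _ => ?_
        have h4 : ‖cc i‖ ^ 2 ≤ ‖c0‖ ^ 2 + ‖c1‖ ^ 2 := by
          change ‖if i < N * k then c0 else c1‖ ^ 2 ≤ _
          split_ifs
          · exact le_add_of_nonneg_right (sq_nonneg _)
          · exact le_add_of_nonneg_left (sq_nonneg _)
        have h5 := sq_norm_add (X (i + 1) - X i) (cc i)
        linarith
      exact (add_le_add h2 h3).trans (arith_aux hmr.le (add_nonneg hS0' hS1') (sq_nonneg _)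
        (add_nonneg (sq_nonneg _) (sq_nonneg _)))
    refine le_trans ?_ hlow
    set μ := min (3 / 4) (κ / 4) with hμ
    have hμ0 : 0 < μ := lt_min (by norm_num) (by positivity)
    have hμ1 : μ ≤ 3 / 4 := min_le_left _ _
    have hμ2 : μ ≤ κ / 4 := min_le_right _ _
    have hden : 0 < (2 * (m : ℝ) * m + 2 * m + 2) := by positivity
    have h1 : μ / (2 * m * m + 2 * m + 2) * ‖ι (x, c0, c1)‖ ^ 2 ≤
        μ * ((S0 + S1) + (‖X 0‖ ^ 2 + (‖c0‖ ^ 2 + ‖c1‖ ^ 2))) := by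
      rw [div_mul_eq_mul_div, div_le_iff₀ hden]
      have := mul_le_mul_of_nonneg_left hnorm hμ0.le
      linarith
    refine h1.trans ?_
    have h2 : 0 ≤ S0 + S1 := by linarith
    have h3 : 0 ≤ ‖X 0‖ ^ 2 + (‖c0‖ ^ 2 + ‖c1‖ ^ 2) := by positivity
    have h4 := mul_le_mul_of_nonneg_right hμ1 h2
    have h5 := mul_le_mul_of_nonneg_right hμ2 h3
    linarith

end Pool.Agent.H60.PO
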