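import Pool.Agent.H60.PO.Grad

/-!
# The action functional on antiperiodic sequences
-/

set_option autoImplicit false
set_option linter.unusedSectionVars false

open Metric Module

namespace Pool.Agent.H60.PO

variable {V : Type*} [NormedAddCommGroup V] [InnerProductSpace ℝ V] [FiniteDimensional ℝ V]

open scoped RealInnerProductSpace

section shift

variable {K : ℕ} [NeZero K]

/-- sign at the end of the sequence. -/
def eps (i : Fin K) : ℝ := if i = 0 then -1 else 1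

theorem eps_mul_self (i : Fin K) : eps i * eps i = 1 := by
  unfold eps; split_ifs <;> norm_num

theorem abs_eps (i : Fin K) : |eps i| = 1 := by
  unfold eps; split_ifs <;> norm_num

/-- The antiperiodic forward shift. -/
def nxt : (Fin K → V) →ₗ[ℝ] (Fin K → V) where
  toFun x j := eps (j + 1) • x (j + 1)
  map_add' x y := by ext j; simp [smul_add]
  map_smul' c x := by ext1 j; exact smul_comm _ _ _

/-- The antiperiodic backward shift. -/
def prv : (Fin K → V) →ₗ[ℝ] (Fin K → V) where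
  toFun y i := eps i • y (i - 1)
  map_add' x y := by ext j; simp [smul_add]
  map_smul' c x := by ext1 j; exact smul_comm _ _ _

theorem nxt_apply (x : Fin K → V) (j : Fin K) : nxt x j = eps (j + 1) • x (j + 1) := rfl

theorem prv_apply (x : Fin K → V) (j : Fin K) : prv x j = eps j • x (j - 1) := rfl

theorem norm_nxt_le (x : Fin K → V) (j : Fin K) : ‖nxt x j‖ ≤ ‖x‖ := by
  rw [nxt_apply, norm_smul, Real.norm_eq_abs, abs_eps, one_mul]
  exact norm_le_pi_norm x _

theorem norm_prv_le (x : Fin K → V) (j : Fin K) : ‖prv x j‖ = ‖x (j - 1)‖ := by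
  rw [prv_apply, norm_smul, Real.norm_eq_abs, abs_eps, one_mul]

theorem sum_nxt (y h : Fin K → V) : ∑ j, ⟪y j, nxt h j⟫ = ∑ i, ⟪prv y i, h i⟫ := by
  rw [← Equiv.sum_comp (Equiv.addRight (1 : Fin K)) (fun i => ⟪prv y i, h i⟫)]
  refine Finset.sum_congr rfl fun j _ => ?_
  rw [nxt_apply, Equiv.coe_addRight, prv_apply, add_sub_cancel_right, inner_smul_left,
    inner_smul_right]
  rfl

theorem nxt_prv (y : Fin K → V) : nxt (prv y) = y := by
  ext1 j
  rw [nxt_apply, prv_apply, add_sub_cancel_right, smul_smul, eps_mul_self, one_smul]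

theorem prv_nxt (y : Fin K → V) : prv (nxt y) = y := by
  ext1 j
  rw [prv_apply, nxt_apply, sub_add_cancel, smul_smul, eps_mul_self, one_smul]

theorem fin_succ_val {j : ℕ} (h : j + 1 < K) :
    (⟨j, by omega⟩ + 1 : Fin K) = ⟨j + 1, h⟩ := by
  have hK : 1 < K := by omega
  apply Fin.ext
  rw [Fin.val_add]
  have : ((1 : Fin K) : ℕ) = 1 := by
    rw [Fin.val_one']
    exact Nat.mod_eq_of_lt hK
  rw [this]
  exact Nat.mod_eq_of_lt h

theorem fin_last_add {j : ℕ} (h : j + 1 = K) : (⟨j, by omega⟩ + 1 : Fin K) = 0 := by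
  apply Fin.ext
  rw [Fin.val_add, Fin.val_one', Fin.val_zero]
  by_cases hK : K = 1
  · subst hK; exact Nat.mod_one _
  · rw [Nat.mod_eq_of_lt (a := 1) (by omega), h, Nat.mod_self]

theorem eps_zero : eps (0 : Fin K) = -1 := if_pos rfl

theorem eps_succ {j : ℕ} (h : j + 1 < K) : eps (⟨j + 1, h⟩ : Fin K) = 1 := by
  unfold eps
  rw [if_neg]
  intro h'
  have := congrArg Fin.val h'
  rw [Fin.val_zero] at this
  exact absurd this (Nat.succ_ne_zero j)

theorem nxt_lt (x : Fin K → V) {j : ℕ} (h : j + 1 < K) :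
    nxt x ⟨j, by omega⟩ = x ⟨j + 1, h⟩ := by
  rw [nxt_apply, fin_succ_val h, eps_succ h, one_smul]

theorem nxt_last (x : Fin K → V) {j : ℕ} (h : j + 1 = K) :
    nxt x ⟨j, by omega⟩ = - x 0 := by
  rw [nxt_apply, fin_last_add h, eps_zero, neg_one_smul]

theorem nxt_eq_self {x : Fin K → V} (h : nxt x = x) : x = 0 := by
  have h1 : ∀ j (hj : j < K), x ⟨j, hj⟩ = x 0 := by
    intro j
    induction j with
    | zero => intro hj; rfl
    | succ j ih =>
      intro hj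
      rw [← nxt_lt x hj, h, ih]
  have hK : 0 < K := Nat.pos_of_ne_zero (NeZero.ne K)
  have h2 : x 0 = - x 0 := by
    have h3 := nxt_last x (j := K - 1) (by omega)
    rw [h, h1] at h3
    exact h3
  have h3 : x 0 = 0 := by
    have : (2 : ℝ) • x 0 = 0 := by rw [two_smul]; nth_rewrite 2 [h2]; exact add_neg_cancel _
    rcases smul_eq_zero.1 this with h | h
    · norm_num at h
    · exact h
  ext1 j
  have := h1 j.1 j.2
  rw [this, h3]; rfl

theorem prv_eq_self {x : Fin K → V} (h : prv x = x) : x = 0 := by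
  refine nxt_eq_self ?_
  nth_rewrite 1 [← h]
  exact nxt_prv x

end shift

/-- Generating function data. -/
structure Gen (V : Type*) where
  /-- the generating function -/
  S : V × V → ℝ
  /-- first partial gradient -/
  sx : V × V → V
  /-- second partial gradient -/
  sy : V × V → V

/-- The standing assumptions on a generating function. -/
structure Gen.OK (G : Gen V) (b L : ℝ) : Prop where
  cS : Continuous G.S
  cx : Continuous G.sx
  cy : Continuous G.sy
  taylor : ∀ u k, |G.S (u + k) - G.S u - ⟪G.sx u, k.1⟫ - ⟪G.sy u, k.2⟫| ≤ L * ‖k‖ ^ 2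
  even : ∀ u, G.S (-u) = G.S u
  oddx : ∀ u, G.sx (-u) = - G.sx u
  oddy : ∀ u, G.sy (-u) = - G.sy u
  bS : ∀ u, |G.S u| ≤ b
  bx : ∀ u, ‖G.sx u‖ ≤ b
  by' : ∀ u, ‖G.sy u‖ ≤ b
  zero : G.S 0 = 0

theorem Gen.OK.b_nonneg {G : Gen V} {b L : ℝ} (h : G.OK b L) : 0 ≤ b :=
  (abs_nonneg _).trans (h.bS 0)

section action

variable {K : ℕ} [NeZero K] (G : ℕ → Gen V)

/-- The action of an antiperiodic sequence. -/
noncomputable def act (z : (Fin K → V) × (Fin K → V)) : ℝ :=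
  ∑ j : Fin K, (⟪z.2 j, nxt z.1 j - z.1 j⟫ - (G j).S (nxt z.1 j, z.2 j))

/-- The gradient of the action. -/
noncomputable def grad (z : (Fin K → V) × (Fin K → V)) : (Fin K → V) × (Fin K → V) :=
  (fun i => prv (fun j => z.2 j - (G j).sx (nxt z.1 j, z.2 j)) i - z.2 i,
   fun j => nxt z.1 j - z.1 j - (G j).sy (nxt z.1 j, z.2 j))

variable {G} {b L : ℝ}

theorem continuous_nxt : Continuous (nxt : (Fin K → V) → (Fin K → V)) :=
  LinearMap.continuous_of_finiteDimensional (nxt : (Fin K → V) →ₗ[ℝ] (Fin K → V))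

theorem continuous_prv : Continuous (prv : (Fin K → V) → (Fin K → V)) :=
  LinearMap.continuous_of_finiteDimensional (prv : (Fin K → V) →ₗ[ℝ] (Fin K → V))

theorem continuous_pair (j : Fin K) :
    Continuous fun z : (Fin K → V) × (Fin K → V) => (nxt z.1 j, z.2 j) := by
  have h1 : Continuous fun z : (Fin K → V) × (Fin K → V) => nxt z.1 j :=
    (continuous_apply j).comp (continuous_nxt.comp continuous_fst)
  have h2 : Continuous fun z : (Fin K → V) × (Fin K → V) => z.2 j :=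
    (continuous_apply j).comp continuous_snd
  exact h1.prodMk h2

theorem continuous_act (hG : ∀ j, (G j).OK b L) :
    Continuous (act G : (Fin K → V) × (Fin K → V) → ℝ) := by
  unfold act
  refine continuous_finsetSum _ fun j _ => ?_
  have h0 := continuous_pair (V := V) (K := K) j
  have h1 : Continuous fun z : (Fin K → V) × (Fin K → V) => nxt z.1 j := h0.fst
  have h2 : Continuous fun z : (Fin K → V) × (Fin K → V) => z.2 j := h0.snd
  have h3 : Continuous fun z : (Fin K → V) × (Fin K → V) => z.1 j :=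
    (continuous_apply j).comp continuous_fst
  exact (h2.inner (h1.sub h3)).sub ((hG j).cS.comp h0)

theorem continuous_grad (hG : ∀ j, (G j).OK b L) :
    Continuous (grad G : (Fin K → V) × (Fin K → V) → (Fin K → V) × (Fin K → V)) := by
  unfold grad
  refine Continuous.prodMk ?_ ?_
  · refine continuous_pi fun i => ?_
    refine Continuous.sub ?_ ((continuous_apply i).comp continuous_snd)
    refine (continuous_apply i).comp (continuous_prv.comp (continuous_pi fun j => ?_))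
    exact ((continuous_apply j).comp continuous_snd).sub ((hG j).cx.comp (continuous_pair j))
  · refine continuous_pi fun j => ?_
    have h0 := continuous_pair (V := V) (K := K) j
    exact (h0.fst.sub ((continuous_apply j).comp continuous_fst)).sub ((hG j).cy.comp h0)

theorem act_neg (hG : ∀ j, (G j).OK b L) (z : (Fin K → V) × (Fin K → V)) :
    act G (-z) = act G z := by
  unfold act
  refine Finset.sum_congr rfl fun j _ => ?_
  have h1 : nxt (-z).1 j = - nxt z.1 j := by rw [Prod.fst_neg, map_neg]; rfl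
  have h2 : (-z).2 j = - z.2 j := rfl
  have h3 : (-z).1 j = - z.1 j := rfl
  rw [h1, h2, h3]
  have h4 : ((-nxt z.1 j, -z.2 j) : V × V) = -(nxt z.1 j, z.2 j) := rfl
  rw [h4, (hG j).even]
  have h5 : -nxt z.1 j - -z.1 j = -(nxt z.1 j - z.1 j) := by abel
  rw [h5, inner_neg_neg]

theorem act_zero (hG : ∀ j, (G j).OK b L) : act G (0 : (Fin K → V) × (Fin K → V)) = 0 := by
  unfold act
  refine Finset.sum_eq_zero fun j _ => ?_
  have h1 : nxt (0 : (Fin K → V) × (Fin K → V)).1 j = 0 := by rw [Prod.fst_zero, map_zero]; rfl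
  have h2 : (0 : (Fin K → V) × (Fin K → V)).2 j = 0 := rfl
  rw [h1, h2]
  have h3 : ((0, 0) : V × V) = 0 := rfl
  rw [h3, (hG j).zero]
  simp

theorem grad_neg (hG : ∀ j, (G j).OK b L) (z : (Fin K → V) × (Fin K → V)) :
    grad G (-z) = - grad G z := by
  have h1 : ∀ j, nxt (-z).1 j = - nxt z.1 j := fun j => by rw [Prod.fst_neg, map_neg]; rfl
  have h2 : ∀ j, (-z).2 j = - z.2 j := fun j => rfl
  have h3 : ∀ j, (-z).1 j = - z.1 j := fun j => rfl
  have h4 : ∀ j, ((-nxt z.1 j, -z.2 j) : V × V) = -(nxt z.1 j, z.2 j) := fun j => rfl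
  unfold grad
  refine Prod.ext ?_ ?_
  · ext1 i
    change prv (fun j => (-z).2 j - (G j).sx (nxt (-z).1 j, (-z).2 j)) i - (-z).2 i =
      -(prv (fun j => z.2 j - (G j).sx (nxt z.1 j, z.2 j)) i - z.2 i)
    have : (fun j : Fin K => (-z).2 j - (G j).sx (nxt (-z).1 j, (-z).2 j)) =
        -(fun j : Fin K => z.2 j - (G j).sx (nxt z.1 j, z.2 j)) := by
      ext1 j
      rw [h1, h2, h4, (hG j).oddx]
      simp only [Pi.neg_apply]
      abel
    rw [this, map_neg, h2, Pi.neg_apply]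
    abel
  · ext1 j
    change nxt (-z).1 j - (-z).1 j - (G j).sy (nxt (-z).1 j, (-z).2 j) =
      -(nxt z.1 j - z.1 j - (G j).sy (nxt z.1 j, z.2 j))
    rw [h1, h2, h3, h4, (hG j).oddy]
    abel

/-- The second order lower bound. -/
theorem act_add_ge (hG : ∀ j, (G j).OK b L) (hL : 0 ≤ L) (z h : (Fin K → V) × (Fin K → V)) :
    act G z + (∑ i, ⟪(grad G z).1 i, h.1 i⟫ + ∑ j, ⟪(grad G z).2 j, h.2 j⟫) -
      K * (2 + L) * ‖h‖ ^ 2 ≤ act G (z + h) := by
  have hn1 : ‖h.1‖ ≤ ‖h‖ := norm_fst_le h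
  have hn2 : ‖h.2‖ ≤ ‖h‖ := norm_snd_le h
  have key : ∀ j : Fin K,
      (⟪z.2 j, nxt z.1 j - z.1 j⟫ - (G j).S (nxt z.1 j, z.2 j)) +
      (⟪z.2 j - (G j).sx (nxt z.1 j, z.2 j), nxt h.1 j⟫ - ⟪z.2 j, h.1 j⟫ +
        ⟪nxt z.1 j - z.1 j - (G j).sy (nxt z.1 j, z.2 j), h.2 j⟫) - (2 + L) * ‖h‖ ^ 2 ≤
      ⟪(z + h).2 j, nxt (z + h).1 j - (z + h).1 j⟫ - (G j).S (nxt (z + h).1 j, (z + h).2 j) := by
    intro j
    have e1 : nxt (z + h).1 j = nxt z.1 j + nxt h.1 j := by rw [Prod.fst_add, map_add]; rfl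
    have e2 : (z + h).2 j = z.2 j + h.2 j := rfl
    have e3 : (z + h).1 j = z.1 j + h.1 j := rfl
    rw [e1, e2, e3]
    have e4 : ((nxt z.1 j + nxt h.1 j, z.2 j + h.2 j) : V × V) =
      (nxt z.1 j, z.2 j) + (nxt h.1 j, h.2 j) := rfl
    rw [e4]
    have t := (abs_le.1 ((hG j).taylor (nxt z.1 j, z.2 j) (nxt h.1 j, h.2 j))).2
    have nk : ‖((nxt h.1 j, h.2 j) : V × V)‖ ≤ ‖h‖ := by
      rw [Prod.norm_def]
      exact max_le ((norm_nxt_le _ _).trans hn1) ((norm_le_pi_norm h.2 j).trans hn2)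
    have nk2 : L * ‖((nxt h.1 j, h.2 j) : V × V)‖ ^ 2 ≤ L * ‖h‖ ^ 2 := by gcongr
    have hc : -(2 * ‖h‖ ^ 2) ≤ ⟪h.2 j, nxt h.1 j - h.1 j⟫ := by
      have c1 := abs_real_inner_le_norm (h.2 j) (nxt h.1 j - h.1 j)
      have c2 : ‖h.2 j‖ ≤ ‖h‖ := (norm_le_pi_norm _ _).trans hn2
      have c3 : ‖nxt h.1 j - h.1 j‖ ≤ 2 * ‖h‖ := by
        refine (norm_sub_le _ _).trans ?_
        have := (norm_nxt_le h.1 j).trans hn1
        have := (norm_le_pi_norm h.1 j).trans hn1
        linarith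
      have c4 : ‖h.2 j‖ * ‖nxt h.1 j - h.1 j‖ ≤ ‖h‖ * (2 * ‖h‖) := by gcongr
      have := (abs_le.1 c1).1
      nlinarith
    have e5 : nxt z.1 j + nxt h.1 j - (z.1 j + h.1 j) =
      (nxt z.1 j - z.1 j) + (nxt h.1 j - h.1 j) := by abel
    rw [e5]
    simp only [inner_add_left, inner_add_right, inner_sub_left, inner_sub_right] at *
    have s1 : ⟪nxt z.1 j, h.2 j⟫ = ⟪h.2 j, nxt z.1 j⟫ := real_inner_comm _ _
    have s2 : ⟪z.1 j, h.2 j⟫ = ⟪h.2 j, z.1 j⟫ := real_inner_comm _ _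
    rw [s1, s2]
    linarith
  have hsum := Finset.sum_le_sum (fun j (_ : j ∈ Finset.univ) => key j)
  rw [Finset.sum_sub_distrib, Finset.sum_add_distrib, Finset.sum_const, Finset.card_univ,
    Fintype.card_fin, nsmul_eq_mul] at hsum
  have e6 : ∑ j : Fin K, (⟪z.2 j - (G j).sx (nxt z.1 j, z.2 j), nxt h.1 j⟫ - ⟪z.2 j, h.1 j⟫ +
        ⟪nxt z.1 j - z.1 j - (G j).sy (nxt z.1 j, z.2 j), h.2 j⟫) =
      ∑ i, ⟪(grad G z).1 i, h.1 i⟫ + ∑ j, ⟪(grad G z).2 j, h.2 j⟫ := by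
    rw [Finset.sum_add_distrib, Finset.sum_sub_distrib,
      sum_nxt (fun j => z.2 j - (G j).sx (nxt z.1 j, z.2 j)) h.1, ← Finset.sum_sub_distrib]
    congr 1
    refine Finset.sum_congr rfl fun i _ => ?_
    rw [← inner_sub_left]
    rfl
  rw [e6] at hsum
  unfold act
  linarith [hsum]

theorem sq_norm_le (g : (Fin K → V) × (Fin K → V)) :
    ‖g‖ ^ 2 ≤ ∑ i, ⟪g.1 i, g.1 i⟫ + ∑ j, ⟪g.2 j, g.2 j⟫ := by
  have h1 : ∀ (f : Fin K → V), ‖f‖ ^ 2 ≤ ∑ i, ⟪f i, f i⟫ := by
    intro f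
    have h0 : 0 ≤ ∑ i, ⟪f i, f i⟫ := Finset.sum_nonneg fun i _ => real_inner_self_nonneg
    have h2 : ‖f‖ ≤ Real.sqrt (∑ i, ⟪f i, f i⟫) := by
      rw [pi_norm_le_iff_of_nonneg (Real.sqrt_nonneg _)]
      intro i
      rw [Real.le_sqrt (norm_nonneg _) h0, ← real_inner_self_eq_norm_sq]
      exact Finset.single_le_sum (f := fun i => ⟪f i, f i⟫)
        (fun i _ => real_inner_self_nonneg) (Finset.mem_univ i)
    calc ‖f‖ ^ 2 ≤ Real.sqrt (∑ i, ⟪f i, f i⟫) ^ 2 := by gcongr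
      _ = _ := Real.sq_sqrt h0
  have h0 : ∀ (f : Fin K → V), 0 ≤ ∑ i, ⟪f i, f i⟫ :=
    fun f => Finset.sum_nonneg fun i _ => real_inner_self_nonneg
  rw [Prod.norm_def]
  rcases max_cases ‖g.1‖ ‖g.2‖ with ⟨h, _⟩ | ⟨h, _⟩
  · rw [h]; linarith [h1 g.1, h0 g.2]
  · rw [h]; linarith [h1 g.2, h0 g.1]

theorem act_step (hG : ∀ j, (G j).OK b L) (hL : 0 ≤ L) (z : (Fin K → V) × (Fin K → V))
    (τ : ℝ) (hτ : 0 < τ) (hτ1 : τ ≤ 1 / (2 * (K * (2 + L)))) :
    act G z + τ / 2 * ‖grad G z‖ ^ 2 ≤ act G (z + τ • grad G z) := by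
  have h := act_add_ge hG hL z (τ • grad G z)
  have hK : (0 : ℝ) < K := Nat.cast_pos.2 (Nat.pos_of_ne_zero (NeZero.ne K))
  have e1 : ∑ i, ⟪(grad G z).1 i, (τ • grad G z).1 i⟫ + ∑ j, ⟪(grad G z).2 j, (τ • grad G z).2 j⟫ =
      τ * (∑ i, ⟪(grad G z).1 i, (grad G z).1 i⟫ + ∑ j, ⟪(grad G z).2 j, (grad G z).2 j⟫) := by
    rw [mul_add, Finset.mul_sum, Finset.mul_sum]
    congr 1
    · refine Finset.sum_congr rfl fun i _ => ?_
      change ⟪(grad G z).1 i, τ • (grad G z).1 i⟫ = _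
      rw [inner_smul_right]
    · refine Finset.sum_congr rfl fun i _ => ?_
      change ⟪(grad G z).2 i, τ • (grad G z).2 i⟫ = _
      rw [inner_smul_right]
  rw [e1, norm_smul, Real.norm_eq_abs, abs_of_pos hτ] at h
  have h2 := sq_norm_le (grad G z)
  have h3 : τ * ‖grad G z‖ ^ 2 ≤
      τ * (∑ i, ⟪(grad G z).1 i, (grad G z).1 i⟫ + ∑ j, ⟪(grad G z).2 j, (grad G z).2 j⟫) :=
    mul_le_mul_of_nonneg_left h2 hτ.le
  have h4 : K * (2 + L) * τ ≤ 1 / 2 := by
    have hpos : 0 < K * (2 + L) := by positivity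
    rw [le_div_iff₀ (by positivity)] at hτ1
    linarith
  have h5 : K * (2 + L) * (τ * ‖grad G z‖) ^ 2 ≤ 1 / 2 * (τ * ‖grad G z‖ ^ 2) := by
    have : K * (2 + L) * (τ * ‖grad G z‖) ^ 2 = (K * (2 + L) * τ) * (τ * ‖grad G z‖ ^ 2) := by
      ring
    rw [this]
    exact mul_le_mul_of_nonneg_right h4 (by positivity)
  linarith

/-- The linear part of the gradient. -/
def lin : ((Fin K → V) × (Fin K → V)) →ₗ[ℝ] (Fin K → V) × (Fin K → V) :=
  LinearMap.prod ((prv - LinearMap.id) ∘ₗ LinearMap.snd ℝ _ _)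
    ((nxt - LinearMap.id) ∘ₗ LinearMap.fst ℝ _ _)

theorem lin_apply (z : (Fin K → V) × (Fin K → V)) : lin z = (prv z.2 - z.2, nxt z.1 - z.1) := rfl

theorem ker_lin : LinearMap.ker (lin : ((Fin K → V) × (Fin K → V)) →ₗ[ℝ] _) = ⊥ := by
  rw [LinearMap.ker_eq_bot']
  intro z hz
  rw [lin_apply] at hz
  have h1 := congrArg Prod.fst hz
  have h2 := congrArg Prod.snd hz
  exact Prod.ext (nxt_eq_self (sub_eq_zero.1 h2)) (prv_eq_self (sub_eq_zero.1 h1))

theorem grad_sub_lin (hG : ∀ j, (G j).OK b L) (z : (Fin K → V) × (Fin K → V)) :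
    ‖grad G z - lin z‖ ≤ b := by
  have hb : 0 ≤ b := (hG 0).b_nonneg
  rw [Prod.norm_def]
  refine max_le ?_ ?_
  · rw [pi_norm_le_iff_of_nonneg hb]
    intro i
    change ‖prv (fun j => z.2 j - (G j).sx (nxt z.1 j, z.2 j)) i - z.2 i - (prv z.2 i - z.2 i)‖ ≤ b
    have : (fun j : Fin K => z.2 j - (G j).sx (nxt z.1 j, z.2 j)) =
        z.2 - (fun j : Fin K => (G j).sx (nxt z.1 j, z.2 j)) := rfl
    rw [this, map_sub, Pi.sub_apply]
    have e : prv z.2 i - prv (fun j : Fin K => (G j).sx (nxt z.1 j, z.2 j)) i - z.2 i -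
        (prv z.2 i - z.2 i) = - prv (fun j : Fin K => (G j).sx (nxt z.1 j, z.2 j)) i := by abel
    rw [e, norm_neg, norm_prv_le]
    exact (hG _).bx _
  · rw [pi_norm_le_iff_of_nonneg hb]
    intro j
    change ‖nxt z.1 j - z.1 j - (G j).sy (nxt z.1 j, z.2 j) - (nxt z.1 j - z.1 j)‖ ≤ b
    have e : nxt z.1 j - z.1 j - (G j).sy (nxt z.1 j, z.2 j) - (nxt z.1 j - z.1 j) =
      - (G j).sy (nxt z.1 j, z.2 j) := by abel
    rw [e, norm_neg]
    exact (hG _).by' _

theorem grad_coercive (hG : ∀ j, (G j).OK b L) :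
    ∃ R : ℝ, ∀ z : (Fin K → V) × (Fin K → V), R ≤ ‖z‖ → 1 ≤ ‖grad G z‖ := by
  obtain ⟨c, hc, hanti⟩ := LinearMap.exists_antilipschitzWith
    (lin : ((Fin K → V) × (Fin K → V)) →ₗ[ℝ] _) ker_lin
  refine ⟨c * (1 + b), fun z hz => ?_⟩
  have h1 := hanti.le_mul_dist z 0
  rw [dist_zero_right, map_zero, dist_zero_right] at h1
  have h2 := grad_sub_lin hG z
  have h3 : ‖lin z‖ ≤ ‖grad G z‖ + ‖grad G z - lin z‖ := by
    have : lin z = grad G z - (grad G z - lin z) := by abel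
    nth_rewrite 1 [this]
    exact norm_sub_le _ _
  have hc' : (0 : ℝ) < c := hc
  have h4 : c * (1 + b) ≤ c * ‖lin z‖ := hz.trans h1
  have h5 := le_of_mul_le_mul_left h4 hc'
  linarith

/-- The odd map which does not vanish where the action is large. -/
def pmap : ((Fin K → V) × (Fin K → V)) →ₗ[ℝ] (Fin K → V) :=
  LinearMap.snd ℝ _ _ + (nxt - LinearMap.id) ∘ₗ LinearMap.fst ℝ _ _

theorem pmap_apply (z : (Fin K → V) × (Fin K → V)) (j : Fin K) :
    pmap z j = z.2 j + (nxt z.1 j - z.1 j) := rfl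

theorem pmap_ne_zero (hG : ∀ j, (G j).OK b L) (z : (Fin K → V) × (Fin K → V))
    (hz : K * b < act G z) : pmap z ≠ 0 := by
  intro h0
  have h1 : act G z ≤ ∑ j : Fin K, b := by
    unfold act
    refine Finset.sum_le_sum fun j _ => ?_
    have h2 := congrFun h0 j
    rw [pmap_apply] at h2
    have h3 : nxt z.1 j - z.1 j = - z.2 j := by
      rw [← sub_eq_zero, sub_neg_eq_add, add_comm]; exact h2
    rw [h3, inner_neg_right]
    have h4 := (abs_le.1 ((hG j).bS (nxt z.1 j, z.2 j))).1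
    have h5 : 0 ≤ ⟪z.2 j, z.2 j⟫ := real_inner_self_nonneg
    linarith
  rw [Finset.sum_const, Finset.card_univ, Fintype.card_fin, nsmul_eq_mul] at h1
  linarith

/-- **Multiplicity of critical values of the action.** -/
theorem card_values_ge (hG : ∀ j, (G j).OK b L) (hL : 0 ≤ L) {α : ℝ} (hα : 0 < α)
    (Z : Finset ((Fin K → V) × (Fin K → V)))
    (hZ : ∀ z, z ∈ Z ↔ grad G z = 0 ∧ α ≤ act G z)
    {V' : Type*} [NormedAddCommGroup V'] [NormedSpace ℝ V'] [FiniteDimensional ℝ V']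
    (s : V' → (Fin K → V) × (Fin K → V)) (hsc : ContinuousOn s (sphere 0 1))
    (hso : ∀ v ∈ sphere (0 : V') 1, s (-v) = - s v)
    (hsA : ∀ v ∈ sphere (0 : V') 1, α ≤ act G (s v)) :
    finrank ℝ V' ≤ K * finrank ℝ V + (Z.image (act G)).card := by
  obtain ⟨R, hR⟩ := grad_coercive (K := K) hG
  have hK : (0 : ℝ) < K := Nat.cast_pos.2 (Nat.pos_of_ne_zero (NeZero.ne K))
  have hpush : Push (act G) α Z :=
    push_of_grad (act G) (continuous_act hG) α Z (grad G) (continuous_grad hG) (grad_neg hG)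
      (1 / (2 * (K * (2 + L)))) (by positivity)
      (fun z τ h1 h2 => act_step hG hL z τ h1 h2) R hR
      (fun z h1 h2 => (hZ z).2 ⟨h2, h1⟩)
  have := finrank_le_add_card (act G) (continuous_act hG) (act_neg hG) α Z
    (by rw [hZ]; rintro ⟨_, h⟩; rw [act_zero hG] at h; linarith)
    (by
      intro w hw
      rw [hZ] at hw ⊢
      exact ⟨by rw [grad_neg hG, hw.1, neg_zero], by rw [act_neg hG]; exact hw.2⟩)
    hpush (pmap : ((Fin K → V) × (Fin K → V)) → (Fin K → V))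
    (LinearMap.continuous_of_finiteDimensional
      (pmap : ((Fin K → V) × (Fin K → V)) →ₗ[ℝ] (Fin K → V))) (fun z => map_neg _ _) (K * b)
    (fun z hz => pmap_ne_zero hG z hz) s hsc hso hsA
  have e : finrank ℝ (Fin K → V) = K * finrank ℝ V := by
    rw [Module.finrank_pi_fintype, Finset.sum_const, Finset.card_univ, Fintype.card_fin,
      smul_eq_mul]
  rwa [e] at this

end action

end Pool.Agent.H60.PO
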