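import Pool.Agent.H60.PO.Neg
import Pool.Agent.H91.GE.Flow

/-!
# Twice continuously differentiable periodic Hamiltonians
-/

set_option autoImplicit false
set_option linter.unusedSectionVars false

open Metric Module Set

namespace Pool.Agent.H60.PO

universe u

variable {V : Type u} [NormedAddCommGroup V] [InnerProductSpace ℝ V] [FiniteDimensional ℝ V]

open scoped RealInnerProductSpace ContDiff

/-- A continuous function periodic in time and space is bounded. -/
theorem bdd_of_periodic {F : Type*} [NormedAddCommGroup F] {Λ : AddSubgroup (V × V)} {R : ℝ}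
    (hR : ∀ z : V × V, ∃ e ∈ Λ, ‖z + e‖ ≤ R) {g : ℝ × (V × V) → F} (hg : Continuous g)
    (ht : ∀ t z, g (t + 1, z) = g (t, z)) (hz : ∀ t z, ∀ e ∈ Λ, g (t, z + e) = g (t, z)) :
    ∃ B : ℝ, 0 < B ∧ ∀ p, ‖g p‖ ≤ B := by
  have hK : IsCompact ((Icc (0 : ℝ) 1) ×ˢ (closedBall (0 : V × V) R)) :=
    isCompact_Icc.prod (isCompact_closedBall _ _)
  obtain ⟨B, hB⟩ := (hK.image hg).isBounded.exists_norm_le
  refine ⟨max B 1, lt_max_of_lt_right one_pos, ?_⟩
  rintro ⟨t, z⟩
  obtain ⟨e, he, hez⟩ := hR z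
  have h1 : ∀ z, Function.Periodic (fun t => g (t, z)) 1 := fun z t => ht t z
  have h2 : g (t, z) = g (Int.fract t, z + e) := by
    rw [hz _ _ e he]
    have h3 := (h1 z).sub_zsmul_eq ⌊t⌋ (x := t)
    simp only [zsmul_eq_mul, mul_one] at h3
    rw [← h3]
    rfl
  rw [h2]
  refine le_max_of_le_left (hB _ ⟨(Int.fract t, z + e), ⟨⟨Int.fract_nonneg t,
    (Int.fract_lt_one t).le⟩, ?_⟩, rfl⟩)
  rw [mem_closedBall_zero_iff]
  exact hez

/-- The Hamiltonian as a function of time and space. -/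
def unc (H : ℝ → V × V → ℝ) (p : ℝ × (V × V)) : ℝ := H p.1 p.2

/-- The standing assumptions on a periodic Hamiltonian. -/
structure PerHam (Λ : AddSubgroup (V × V)) (H : ℝ → V × V → ℝ) : Prop where
  smooth : ContDiff ℝ 2 (unc H)
  pt : ∀ t z, H (t + 1) z = H t z
  pz : ∀ t z, ∀ e ∈ Λ, H t (z + e) = H t z

variable {Λ : AddSubgroup (V × V)} {H : ℝ → V × V → ℝ}

/-- First partial gradient. -/
noncomputable def gX (H : ℝ → V × V → ℝ) (t : ℝ) (z : V × V) : V :=
  ∑ i, (fderiv ℝ (unc H) (t, z) (0, (stdOrthonormalBasis ℝ V i, 0))) • stdOrthonormalBasis ℝ V i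

/-- Second partial gradient. -/
noncomputable def gY (H : ℝ → V × V → ℝ) (t : ℝ) (z : V × V) : V :=
  ∑ i, (fderiv ℝ (unc H) (t, z) (0, (0, stdOrthonormalBasis ℝ V i))) • stdOrthonormalBasis ℝ V i

theorem inner_gX (H : ℝ → V × V → ℝ) (t : ℝ) (z : V × V) (v : V) :
    ⟪gX H t z, v⟫ = fderiv ℝ (unc H) (t, z) (0, (v, 0)) := by
  unfold gX
  rw [sum_inner]
  have h1 : (((0 : ℝ), (v, (0 : V))) : ℝ × (V × V)) =
      ∑ i, ⟪stdOrthonormalBasis ℝ V i, v⟫ •
        (((0 : ℝ), (stdOrthonormalBasis ℝ V i, (0 : V))) : ℝ × (V × V)) := by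
    have h2 := (stdOrthonormalBasis ℝ V).sum_repr' v
    refine Prod.ext ?_ (Prod.ext ?_ ?_)
    · rw [Prod.fst_sum]; simp
    · rw [Prod.snd_sum, Prod.fst_sum]
      exact h2.symm
    · rw [Prod.snd_sum, Prod.snd_sum]; simp
  rw [h1, map_sum]
  refine Finset.sum_congr rfl fun i _ => ?_
  rw [inner_smul_left, map_smul, smul_eq_mul, mul_comm]
  rfl

theorem inner_gY (H : ℝ → V × V → ℝ) (t : ℝ) (z : V × V) (v : V) :
    ⟪gY H t z, v⟫ = fderiv ℝ (unc H) (t, z) (0, (0, v)) := by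
  unfold gY
  rw [sum_inner]
  have h1 : (((0 : ℝ), ((0 : V), v)) : ℝ × (V × V)) =
      ∑ i, ⟪stdOrthonormalBasis ℝ V i, v⟫ •
        (((0 : ℝ), ((0 : V), stdOrthonormalBasis ℝ V i)) : ℝ × (V × V)) := by
    have h2 := (stdOrthonormalBasis ℝ V).sum_repr' v
    refine Prod.ext ?_ (Prod.ext ?_ ?_)
    · rw [Prod.fst_sum]; simp
    · rw [Prod.snd_sum, Prod.fst_sum]; simp
    · rw [Prod.snd_sum, Prod.snd_sum]
      exact h2.symm
  rw [h1, map_sum]
  refine Finset.sum_congr rfl fun i _ => ?_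
  rw [inner_smul_left, map_smul, smul_eq_mul, mul_comm]
  rfl

theorem PerHam.fderiv_smooth (hH : PerHam Λ H) : ContDiff ℝ 1 (fderiv ℝ (unc H)) :=
  hH.smooth.fderiv_right (by norm_num)

theorem PerHam.diff (hH : PerHam Λ H) : Differentiable ℝ (unc H) :=
  hH.smooth.differentiable (by norm_num)

theorem PerHam.gX_smooth (hH : PerHam Λ H) :
    ContDiff ℝ 1 (fun p : ℝ × (V × V) => gX H p.1 p.2) := by
  unfold gX
  refine ContDiff.sum fun i _ => ContDiff.smul ?_ contDiff_const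
  exact (hH.fderiv_smooth.comp (contDiff_fst.prodMk contDiff_snd)).clm_apply contDiff_const

theorem PerHam.gY_smooth (hH : PerHam Λ H) :
    ContDiff ℝ 1 (fun p : ℝ × (V × V) => gY H p.1 p.2) := by
  unfold gY
  refine ContDiff.sum fun i _ => ContDiff.smul ?_ contDiff_const
  exact (hH.fderiv_smooth.comp (contDiff_fst.prodMk contDiff_snd)).clm_apply contDiff_const

theorem fderiv_periodic {F G : Type*} [NormedAddCommGroup F] [NormedSpace ℝ F]
    [NormedAddCommGroup G] [NormedSpace ℝ G] {f : F → G} {a : F} (hf : ∀ x, f (x + a) = f x)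
    (x : F) : fderiv ℝ f (x + a) = fderiv ℝ f x := by
  rw [← fderiv_comp_add_right]
  congr 1
  funext y
  exact hf y

theorem PerHam.unc_t (hH : PerHam Λ H) (p : ℝ × (V × V)) : unc H (p + (1, 0)) = unc H p := by
  change H (p.1 + 1) (p.2 + 0) = H p.1 p.2
  rw [add_zero, hH.pt]

theorem PerHam.unc_z (hH : PerHam Λ H) {e : V × V} (he : e ∈ Λ) (p : ℝ × (V × V)) :
    unc H (p + (0, e)) = unc H p := by
  change H (p.1 + 0) (p.2 + e) = H p.1 p.2
  rw [add_zero, hH.pz _ _ e he]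

theorem PerHam.bounds (hH : PerHam Λ H) {R : ℝ} (hR : ∀ z : V × V, ∃ e ∈ Λ, ‖z + e‖ ≤ R) :
    ∃ B : NNReal, 0 < B ∧ (∀ p, ‖unc H p‖ ≤ B) ∧ (∀ p, ‖fderiv ℝ (unc H) p‖ ≤ B) ∧
      LipschitzWith B (fderiv ℝ (unc H)) := by
  have c2 := hH.fderiv_smooth
  obtain ⟨B0, hB0, h0⟩ := bdd_of_periodic hR hH.smooth.continuous
    (fun t z => hH.pt t z) (fun t z e he => hH.pz t z e he)
  obtain ⟨B1, hB1, h1⟩ := bdd_of_periodic hR c2.continuous
    (fun t z => by
      have := fderiv_periodic hH.unc_t (t, z)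
      rwa [Prod.mk_add_mk, add_zero] at this)
    (fun t z e he => by
      have := fderiv_periodic (hH.unc_z he) (t, z)
      rwa [Prod.mk_add_mk, add_zero] at this)
  obtain ⟨B2, hB2, h2⟩ := bdd_of_periodic hR (c2.continuous_fderiv (by norm_num))
    (fun t z => by
      have := fderiv_periodic (fderiv_periodic hH.unc_t) (t, z)
      rwa [Prod.mk_add_mk, add_zero] at this)
    (fun t z e he => by
      have := fderiv_periodic (fderiv_periodic (hH.unc_z he)) (t, z)
      rwa [Prod.mk_add_mk, add_zero] at this)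
  set B : NNReal := ⟨B0 + B1 + B2, by positivity⟩ with hB
  have hBv : (B : ℝ) = B0 + B1 + B2 := rfl
  refine ⟨B, ?_, fun p => ?_, fun p => ?_, ?_⟩
  · rw [← NNReal.coe_pos, hBv]; positivity
  · rw [hBv]; have := h0 p; linarith
  · rw [hBv]; have := h1 p; linarith
  · refine lipschitzWith_of_nnnorm_fderiv_le (c2.differentiable (by norm_num)) fun p => ?_
    rw [← NNReal.coe_le_coe, coe_nnnorm, hBv]
    have := h2 p
    linarith

/-- The Hamiltonian data of a periodic Hamiltonian. -/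
noncomputable def toHam (H : ℝ → V × V → ℝ) : Ham V := ⟨H, gX H, gY H⟩

theorem norm_sum_basis_le (c : Fin (finrank ℝ V) → ℝ) {B : ℝ} (hc : ∀ i, |c i| ≤ B) :
    ‖∑ i, c i • stdOrthonormalBasis ℝ V i‖ ≤ finrank ℝ V * B := by
  refine (norm_sum_le _ _).trans ?_
  have : ∀ i ∈ Finset.univ, ‖c i • stdOrthonormalBasis ℝ V i‖ ≤ B := by
    intro i _
    rw [norm_smul, (stdOrthonormalBasis ℝ V).orthonormal.1 i, mul_one]
    exact hc i
  refine (Finset.sum_le_card_nsmul _ _ _ this).trans ?_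
  rw [Finset.card_univ, Fintype.card_fin, nsmul_eq_mul]

theorem norm_inl_aux (v : V) : ‖(((0 : ℝ), (v, (0 : V))) : ℝ × (V × V))‖ = ‖v‖ := by
  rw [Prod.norm_def, Prod.norm_def]; simp

theorem norm_inr_aux (v : V) : ‖(((0 : ℝ), ((0 : V), v)) : ℝ × (V × V))‖ = ‖v‖ := by
  rw [Prod.norm_def, Prod.norm_def]; simp

theorem norm_k_aux (k : V × V) : ‖(((0 : ℝ), k) : ℝ × (V × V))‖ = ‖k‖ := by
  rw [Prod.norm_def]; simp

theorem PerHam.ok (hH : PerHam Λ H) {R : ℝ} (hR : ∀ z : V × V, ∃ e ∈ Λ, ‖z + e‖ ≤ R)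
    (heven : ∀ t z, H t (-z) = H t z) (h0 : ∀ t, H t 0 = 0) :
    ∃ C : NNReal, (toHam H).OK C ∧
      LipschitzWith C (fun p : ℝ × (V × V) => (gX H p.1 p.2)) ∧
      LipschitzWith C (fun p : ℝ × (V × V) => (gY H p.1 p.2)) := by
  obtain ⟨B, hB, hb0, hb1, hlip⟩ := hH.bounds hR
  set C : NNReal := (finrank ℝ V + 1) * B with hC
  have hCv : (C : ℝ) = (finrank ℝ V + 1) * B := by rw [hC]; push_cast; ring
  have hBC : (B : ℝ) ≤ C := by
    rw [hCv]
    have : (0 : ℝ) ≤ finrank ℝ V * B := by positivity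
    linarith
  have hnBC : (finrank ℝ V : ℝ) * B ≤ C := by
    rw [hCv]
    have : (0 : ℝ) ≤ B := B.2
    linarith
  have hBr : (0 : ℝ) < B := by exact_mod_cast hB
  have b1 : ∀ i, ‖stdOrthonormalBasis ℝ V i‖ = 1 := fun i =>
    (stdOrthonormalBasis ℝ V).orthonormal.1 i
  have hlip' : ∀ p p', ‖fderiv ℝ (unc H) p - fderiv ℝ (unc H) p'‖ ≤ B * ‖p - p'‖ := by
    intro p p'
    have := hlip.dist_le_mul p p'
    rwa [dist_eq_norm, dist_eq_norm] at this
  have lX : ∀ p p' : ℝ × (V × V), ‖gX H p.1 p.2 - gX H p'.1 p'.2‖ ≤ C * ‖p - p'‖ := by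
    intro p p'
    unfold gX
    rw [← Finset.sum_sub_distrib]
    simp only [← sub_smul]
    refine (norm_sum_basis_le _ (B := B * ‖p - p'‖) fun i => ?_).trans ?_
    · have h1 : fderiv ℝ (unc H) (p.1, p.2) (0, (stdOrthonormalBasis ℝ V i, 0)) -
          fderiv ℝ (unc H) (p'.1, p'.2) (0, (stdOrthonormalBasis ℝ V i, 0)) =
          (fderiv ℝ (unc H) p - fderiv ℝ (unc H) p') (0, (stdOrthonormalBasis ℝ V i, 0)) := rfl
      rw [h1, ← Real.norm_eq_abs]
      refine (ContinuousLinearMap.le_opNorm _ _).trans ?_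
      rw [norm_inl_aux, b1, mul_one]
      exact hlip' p p'
    · rw [← mul_assoc]
      exact mul_le_mul_of_nonneg_right hnBC (norm_nonneg _)
  have lY : ∀ p p' : ℝ × (V × V), ‖gY H p.1 p.2 - gY H p'.1 p'.2‖ ≤ C * ‖p - p'‖ := by
    intro p p'
    unfold gY
    rw [← Finset.sum_sub_distrib]
    simp only [← sub_smul]
    refine (norm_sum_basis_le _ (B := B * ‖p - p'‖) fun i => ?_).trans ?_
    · have h1 : fderiv ℝ (unc H) (p.1, p.2) (0, (0, stdOrthonormalBasis ℝ V i)) -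
          fderiv ℝ (unc H) (p'.1, p'.2) (0, (0, stdOrthonormalBasis ℝ V i)) =
          (fderiv ℝ (unc H) p - fderiv ℝ (unc H) p') (0, (0, stdOrthonormalBasis ℝ V i)) := rfl
      rw [h1, ← Real.norm_eq_abs]
      refine (ContinuousLinearMap.le_opNorm _ _).trans ?_
      rw [norm_inr_aux, b1, mul_one]
      exact hlip' p p'
    · rw [← mul_assoc]
      exact mul_le_mul_of_nonneg_right hnBC (norm_nonneg _)
  have hdist : ∀ (t : ℝ) (z z' : V × V), ‖((t, z) : ℝ × (V × V)) - (t, z')‖ = ‖z - z'‖ := by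
    intro t z z'
    rw [Prod.mk_sub_mk, sub_self, norm_k_aux]
  -- derivative in space
  have hsum : ∀ t z (k : V × V), fderiv ℝ (unc H) (t, z) (0, k) =
      ⟪gX H t z, k.1⟫ + ⟪gY H t z, k.2⟫ := by
    intro t z k
    rw [inner_gX, inner_gY, ← map_add]
    congr 1
    rw [Prod.mk_add_mk, add_zero, Prod.mk_add_mk, add_zero, zero_add]
  have hodd : ∀ t z (k : V × V), fderiv ℝ (unc H) (t, -z) (0, k) =
      -fderiv ℝ (unc H) (t, z) (0, k) := by
    intro t z k
    let A : ℝ × (V × V) →L[ℝ] ℝ × (V × V) :=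
      (ContinuousLinearMap.fst ℝ ℝ (V × V)).prod (-ContinuousLinearMap.snd ℝ ℝ (V × V))
    have h1 : unc H ∘ A = unc H := by
      funext p
      change H p.1 (-p.2) = H p.1 p.2
      exact heven _ _
    have h2 : fderiv ℝ (unc H ∘ A) (t, z) = (fderiv ℝ (unc H) (A (t, z))).comp A := by
      rw [fderiv_comp _ (hH.diff _) A.differentiableAt, A.fderiv]
    rw [h1] at h2
    have h3 : A (t, z) = (t, -z) := rfl
    have h4 : A (0, k) = -(0, k) := by
      refine Prod.ext ?_ rfl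
      change (0 : ℝ) = -0
      rw [neg_zero]
    rw [h2, ContinuousLinearMap.comp_apply, h3, h4, map_neg, neg_neg]
  refine ⟨C, ⟨?_, hH.smooth.continuous, hH.gX_smooth.continuous, hH.gY_smooth.continuous,
    ?_, ?_, ?_, ?_, ?_, ?_, heven, ?_, ?_, h0⟩, ?_, ?_⟩
  · rw [hCv]; positivity
  · intro t z k
    change |H t (z + k) - H t z - ⟪gX H t z, k.1⟫ - ⟪gY H t z, k.2⟫| ≤ C * ‖k‖ ^ 2
    let G : ℝ → ℝ := fun r => unc H ((t, z) + r • ((0 : ℝ), k)) - r * fderiv ℝ (unc H) (t, z) (0, k)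
    have hG : ∀ r, HasDerivAt G ((fderiv ℝ (unc H) ((t, z) + r • ((0 : ℝ), k)) -
        fderiv ℝ (unc H) (t, z)) (0, k)) r := by
      intro r
      have d1 : HasDerivAt (fun r : ℝ => (t, z) + r • (((0 : ℝ), k) : ℝ × (V × V))) (0, k) r := by
        have := ((hasDerivAt_id r).smul_const (((0 : ℝ), k) : ℝ × (V × V))).const_add (t, z)
        rwa [one_smul] at this
      have d2 := (hH.diff ((t, z) + r • ((0 : ℝ), k))).hasFDerivAt.comp_hasDerivAt r d1
      have d3 : HasDerivAt (fun r : ℝ => r * fderiv ℝ (unc H) (t, z) (0, k))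
          (fderiv ℝ (unc H) (t, z) (0, k)) r := by
        have := (hasDerivAt_id r).mul_const (fderiv ℝ (unc H) (t, z) (0, k))
        rwa [one_mul] at this
      rw [sub_apply]
      exact d2.sub d3
    have hmv := Convex.norm_image_sub_le_of_norm_hasDerivWithin_le (f := G)
      (s := Icc (0 : ℝ) 1) (C := B * ‖k‖ ^ 2) (fun r _ => (hG r).hasDerivWithinAt) (fun r hr => by
        refine (ContinuousLinearMap.le_opNorm _ _).trans ?_
        rw [norm_k_aux]
        have h1 := hlip' ((t, z) + r • ((0 : ℝ), k)) (t, z)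
        rw [add_sub_cancel_left, norm_smul, norm_k_aux, Real.norm_eq_abs, abs_of_nonneg hr.1] at h1
        have h2 : r * ‖k‖ ≤ ‖k‖ := by
          have := norm_nonneg k
          nlinarith [hr.2]
        calc ‖fderiv ℝ (unc H) ((t, z) + r • ((0 : ℝ), k)) - fderiv ℝ (unc H) (t, z)‖ * ‖k‖
            ≤ (B * ‖k‖) * ‖k‖ := by
              refine mul_le_mul_of_nonneg_right (h1.trans ?_) (norm_nonneg _)
              exact mul_le_mul_of_nonneg_left h2 hBr.le
          _ = B * ‖k‖ ^ 2 := by ring) (convex_Icc 0 1)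
      (left_mem_Icc.2 zero_le_one) (right_mem_Icc.2 zero_le_one)
    have e : G 1 - G 0 = H t (z + k) - H t z - ⟪gX H t z, k.1⟫ - ⟪gY H t z, k.2⟫ := by
      change (unc H ((t, z) + (1 : ℝ) • ((0 : ℝ), k)) - 1 * fderiv ℝ (unc H) (t, z) (0, k)) -
        (unc H ((t, z) + (0 : ℝ) • ((0 : ℝ), k)) - 0 * fderiv ℝ (unc H) (t, z) (0, k)) = _
      rw [one_smul, zero_smul, add_zero, one_mul, zero_mul, sub_zero, Prod.mk_add_mk, add_zero,
        hsum]
      change H t (z + k) - _ - H t z = _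
      ring
    rw [e] at hmv
    simp only [sub_zero, norm_one, mul_one] at hmv
    rw [Real.norm_eq_abs] at hmv
    exact hmv.trans (mul_le_mul_of_nonneg_right hBC (sq_nonneg _))
  · intro t z z'
    have := lX (t, z) (t, z')
    rwa [hdist] at this
  · intro t z z'
    have := lY (t, z) (t, z')
    rwa [hdist] at this
  · intro t z
    exact (hb0 (t, z)).trans hBC
  · intro t z
    change ‖gX H t z‖ ≤ C
    unfold gX
    refine (norm_sum_basis_le _ (B := B) fun i => ?_).trans hnBC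
    rw [← Real.norm_eq_abs]
    refine (ContinuousLinearMap.le_opNorm _ _).trans ?_
    rw [norm_inl_aux, b1, mul_one]
    exact hb1 _
  · intro t z
    change ‖gY H t z‖ ≤ C
    unfold gY
    refine (norm_sum_basis_le _ (B := B) fun i => ?_).trans hnBC
    rw [← Real.norm_eq_abs]
    refine (ContinuousLinearMap.le_opNorm _ _).trans ?_
    rw [norm_inr_aux, b1, mul_one]
    exact hb1 _
  · intro t z
    change gX H t (-z) = -gX H t z
    unfold gX
    rw [← Finset.sum_neg_distrib]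
    refine Finset.sum_congr rfl fun i _ => ?_
    rw [hodd, neg_smul]
  · intro t z
    change gY H t (-z) = -gY H t z
    unfold gY
    rw [← Finset.sum_neg_distrib]
    refine Finset.sum_congr rfl fun i _ => ?_
    rw [hodd, neg_smul]
  · exact LipschitzWith.of_dist_le_mul fun p p' => by
      rw [dist_eq_norm, dist_eq_norm]; exact lX p p'
  · exact LipschitzWith.of_dist_le_mul fun p p' => by
      rw [dist_eq_norm, dist_eq_norm]; exact lY p p'

/-- Existence of the evolution. -/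
theorem PerHam.evo (hH : PerHam Λ H) {C : NNReal}
    (hX : LipschitzWith C (fun p : ℝ × (V × V) => (gX H p.1 p.2)))
    (hY : LipschitzWith C (fun p : ℝ × (V × V) => (gY H p.1 p.2))) :
    ∃ E, Evo (toHam H) E := by
  let F : ℝ × (V × V) → ℝ × (V × V) := fun p => (1, (gY H p.1 p.2, -gX H p.1 p.2))
  have hF : ContDiff ℝ 1 F :=
    contDiff_const.prodMk (hH.gY_smooth.prodMk hH.gX_smooth.neg)
  have hL : LipschitzWith C F := by
    refine LipschitzWith.of_dist_le_mul fun p p' => ?_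
    have h1 := hX.dist_le_mul p p'
    have h2 := hY.dist_le_mul p p'
    rw [dist_eq_norm] at h1 h2 ⊢
    have e : F p - F p' = (0, (gY H p.1 p.2 - gY H p'.1 p'.2, -(gX H p.1 p.2 - gX H p'.1 p'.2))) := by
      refine Prod.ext ?_ (Prod.ext rfl ?_)
      · change (1 : ℝ) - 1 = 0; norm_num
      · change -gX H p.1 p.2 - -gX H p'.1 p'.2 = -(gX H p.1 p.2 - gX H p'.1 p'.2); abel
    rw [e, norm_k_aux, Prod.norm_def]
    refine max_le h2 ?_
    rw [norm_neg]
    exact h1
  choose γ h0 h1 using fun w => Pool.Agent.H91.GE.exists_global hF hL w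
  have hfst : ∀ w t, (γ w t).1 = w.1 + t := by
    intro w t
    have d : ∀ t, HasDerivAt (fun t => (γ w t).1 - t) 0 t := by
      intro t
      have d1 : HasDerivAt (fun t => (γ w t).1) 1 t := (h1 w t).fst
      have d2 := d1.sub (hasDerivAt_id t)
      rw [sub_self] at d2
      exact d2
    have h2 := is_const_of_deriv_eq_zero (fun t => (d t).differentiableAt)
      (fun t => (d t).deriv) t 0
    simp only [h0, sub_zero] at h2
    linarith
  refine ⟨fun s z t => (γ (s, z) (t - s)).2, ?_, ?_⟩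
  · intro s z
    rw [sub_self, h0]
  · intro s z t
    have d1 : HasDerivAt (fun t : ℝ => t - s) 1 t := (hasDerivAt_id t).sub_const s
    have d2 : HasDerivAt (fun r => (γ (s, z) r).2) (F (γ (s, z) (t - s))).2 (t - s) :=
      (h1 (s, z) (t - s)).snd
    have d3 : HasDerivAt (fun t => (γ (s, z) (t - s)).2)
        ((1 : ℝ) • (F (γ (s, z) (t - s))).2) t :=
      HasDerivAt.scomp (g₁ := fun r => (γ (s, z) r).2) (h := fun t => t - s) t d2 d1
    rw [one_smul] at d3
    have e : (F (γ (s, z) (t - s))).2 = (toHam H).fld t (γ (s, z) (t - s)).2 := by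
      change (gY H (γ (s, z) (t - s)).1 (γ (s, z) (t - s)).2,
        -gX H (γ (s, z) (t - s)).1 (γ (s, z) (t - s)).2) =
        (gY H t (γ (s, z) (t - s)).2, -gX H t (γ (s, z) (t - s)).2)
      rw [hfst]
      have : (s, z).1 + (t - s) = t := by simp
      rw [this]
    rw [← e]
    exact d3

theorem PerHam.fld_per (hH : PerHam Λ H) (t : ℝ) (z e : V × V) (he : e ∈ Λ) :
    (toHam H).fld t (z + e) = (toHam H).fld t z := by
  have h1 : fderiv ℝ (unc H) (t, z + e) = fderiv ℝ (unc H) (t, z) := by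
    have := fderiv_periodic (hH.unc_z he) (t, z)
    rwa [Prod.mk_add_mk, add_zero] at this
  change (gY H t (z + e), -gX H t (z + e)) = (gY H t z, -gX H t z)
  unfold gX gY
  rw [h1]

theorem PerHam.hasGradientAt_fst (hH : PerHam Λ H) (t : ℝ) (z : V × V) :
    HasGradientAt (fun x => H t (x, z.2)) (gX H t z) z.1 := by
  rw [hasGradientAt_iff_hasFDerivAt]
  have h1 : HasFDerivAt (fun x : V => (t, (x, z.2)))
      ((0 : V →L[ℝ] ℝ).prod ((ContinuousLinearMap.id ℝ V).prod (0 : V →L[ℝ] V))) z.1 :=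
    (hasFDerivAt_const t z.1).prodMk ((hasFDerivAt_id z.1).prodMk (hasFDerivAt_const z.2 z.1))
  have h2 := (hH.diff (t, (z.1, z.2))).hasFDerivAt.comp z.1 h1
  refine h2.congr_fderiv ?_
  ext v
  rw [InnerProductSpace.toDual_apply_apply, inner_gX]
  rfl

theorem PerHam.hasGradientAt_snd (hH : PerHam Λ H) (t : ℝ) (z : V × V) :
    HasGradientAt (fun y => H t (z.1, y)) (gY H t z) z.2 := by
  rw [hasGradientAt_iff_hasFDerivAt]
  have h1 : HasFDerivAt (fun y : V => (t, (z.1, y)))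
      ((0 : V →L[ℝ] ℝ).prod ((0 : V →L[ℝ] V).prod (ContinuousLinearMap.id ℝ V))) z.2 :=
    (hasFDerivAt_const t z.2).prodMk ((hasFDerivAt_const z.1 z.2).prodMk (hasFDerivAt_id z.2))
  have h2 := (hH.diff (t, (z.1, z.2))).hasFDerivAt.comp z.2 h1
  refine h2.congr_fderiv ?_
  ext v
  rw [InnerProductSpace.toDual_apply_apply, inner_gY]
  rfl

section shift

/-- The reflected and translated point. -/
def aff (s : ℝ) (c w : V × V) : V × V := c + (s • w.1, w.2)

/-- The reflected, translated and normalized Hamiltonian. -/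
def shf (s : ℝ) (c : V × V) (H : ℝ → V × V → ℝ) (t : ℝ) (w : V × V) : ℝ :=
  s * (H t (aff s c w) - H t c)

theorem aff_add (s : ℝ) (c w e : V × V) : aff s c (w + e) = aff s c w + (s • e.1, e.2) := by
  refine Prod.ext ?_ ?_
  · change c.1 + s • (w.1 + e.1) = (c.1 + s • w.1) + s • e.1
    rw [smul_add, add_assoc]
  · change c.2 + (w.2 + e.2) = (c.2 + w.2) + e.2
    rw [add_assoc]

theorem aff_smooth (s : ℝ) (c : V × V) :
    ContDiff ℝ 2 (fun p : ℝ × (V × V) => ((p.1, aff s c p.2) : ℝ × (V × V))) := by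
  unfold aff
  fun_prop

theorem PerHam.shf (hH : PerHam Λ H) {s : ℝ} (c : V × V)
    (hΛ : ∀ e ∈ Λ, ((s • e.1, e.2) : V × V) ∈ Λ) : PerHam Λ (shf s c H) := by
  refine ⟨?_, ?_, ?_⟩
  · have h1 : ContDiff ℝ 2 (fun p : ℝ × (V × V) => unc H (p.1, aff s c p.2)) :=
      hH.smooth.comp (aff_smooth s c)
    have h2 : ContDiff ℝ 2 (fun p : ℝ × (V × V) => unc H (p.1, c)) :=
      hH.smooth.comp (contDiff_fst.prodMk contDiff_const)
    exact contDiff_const.mul (h1.sub h2)
  · intro t z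
    unfold PO.shf
    rw [hH.pt, hH.pt]
  · intro t z e he
    unfold PO.shf
    rw [aff_add, hH.pz _ _ _ (hΛ e he)]

theorem fderiv_shf (hH : PerHam Λ H) {s : ℝ} (c : V × V) (t : ℝ) (w k : V × V) :
    fderiv ℝ (unc (shf s c H)) (t, w) (0, k) =
      s * fderiv ℝ (unc H) (t, aff s c w) (0, (s • k.1, k.2)) := by
  let A : ℝ × (V × V) →L[ℝ] ℝ × (V × V) :=
    (ContinuousLinearMap.fst ℝ ℝ (V × V)).prod
      ((s • (ContinuousLinearMap.fst ℝ V V).comp (ContinuousLinearMap.snd ℝ ℝ (V × V))).prod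
      ((ContinuousLinearMap.snd ℝ V V).comp (ContinuousLinearMap.snd ℝ ℝ (V × V))))
  have hA : ∀ p : ℝ × (V × V), HasFDerivAt (fun p : ℝ × (V × V) => ((0 : ℝ), c) + A p) A p :=
    fun p => A.hasFDerivAt.const_add _
  have e1 : ∀ p : ℝ × (V × V), ((0 : ℝ), c) + A p = (p.1, aff s c p.2) := by
    intro p
    refine Prod.ext ?_ rfl
    change (0 : ℝ) + p.1 = p.1
    rw [zero_add]
  have d1 : HasFDerivAt (fun p : ℝ × (V × V) => unc H (p.1, aff s c p.2))
      ((fderiv ℝ (unc H) (t, aff s c w)).comp A) (t, w) := by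
    have h1 := (hH.diff (((0 : ℝ), c) + A (t, w))).hasFDerivAt.comp (t, w) (hA (t, w))
    rw [e1] at h1
    refine h1.congr_of_eventuallyEq (Filter.Eventually.of_forall fun p => ?_)
    change unc H (p.1, aff s c p.2) = unc H (((0 : ℝ), c) + A p)
    rw [e1]
  let B : ℝ × (V × V) →L[ℝ] ℝ × (V × V) :=
    (ContinuousLinearMap.fst ℝ ℝ (V × V)).prod 0
  have d2 : HasFDerivAt (fun p : ℝ × (V × V) => unc H (p.1, c))
      ((fderiv ℝ (unc H) (t, c)).comp B) (t, w) := by
    have h0 : HasFDerivAt (fun p : ℝ × (V × V) => ((p.1, c) : ℝ × (V × V))) B (t, w) :=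
      hasFDerivAt_fst.prodMk (hasFDerivAt_const c _)
    exact (hH.diff (t, c)).hasFDerivAt.comp (t, w) h0
  have d3 : HasFDerivAt (unc (shf s c H)) (s • ((fderiv ℝ (unc H) (t, aff s c w)).comp A -
      (fderiv ℝ (unc H) (t, c)).comp B)) (t, w) := (d1.sub d2).const_mul s
  rw [d3.fderiv]
  have e2 : A (0, k) = (0, (s • k.1, k.2)) := rfl
  have e3 : B (0, k) = 0 := rfl
  rw [smul_apply, sub_apply, ContinuousLinearMap.comp_apply, ContinuousLinearMap.comp_apply,
    e2, e3, map_zero, sub_zero, smul_eq_mul]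

theorem gX_shf (hH : PerHam Λ H) {s : ℝ} (hs : s * s = 1) (c : V × V) (t : ℝ) (w : V × V) :
    gX (shf s c H) t w = gX H t (aff s c w) := by
  unfold gX
  refine Finset.sum_congr rfl fun i _ => ?_
  rw [fderiv_shf hH]
  congr 1
  have : ((0 : ℝ), (s • (stdOrthonormalBasis ℝ V i), (0 : V))) =
      s • ((0 : ℝ), ((stdOrthonormalBasis ℝ V i), (0 : V))) := by
    rw [Prod.smul_mk, Prod.smul_mk, smul_zero, smul_zero]
  change s * fderiv ℝ (unc H) (t, aff s c w) (0, (s • (stdOrthonormalBasis ℝ V i), (0 : V))) = _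
  rw [this, map_smul, smul_eq_mul, ← mul_assoc, hs, one_mul]

theorem gY_shf (hH : PerHam Λ H) {s : ℝ} (c : V × V) (t : ℝ) (w : V × V) :
    gY (shf s c H) t w = s • gY H t (aff s c w) := by
  unfold gY
  rw [Finset.smul_sum]
  refine Finset.sum_congr rfl fun i _ => ?_
  rw [fderiv_shf hH, smul_smul]
  congr 1
  change s * fderiv ℝ (unc H) (t, aff s c w) (0, (s • (0 : V), stdOrthonormalBasis ℝ V i)) = _
  rw [smul_zero]

/-- Solutions of the shifted system give solutions of the original one. -/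
theorem aff_sol (hH : PerHam Λ H) {s : ℝ} (hs : s * s = 1) (c : V × V) {γ : ℝ → V × V} (t : ℝ)
    (hγ : HasDerivAt γ ((toHam (shf s c H)).fld t (γ t)) t) :
    HasDerivAt (fun t => aff s c (γ t)) (gY H t (aff s c (γ t)), -gX H t (aff s c (γ t))) t := by
  have h1 : HasDerivAt (fun t => (γ t).1) (gY (shf s c H) t (γ t)) t := hγ.fst
  have h2 : HasDerivAt (fun t => (γ t).2) (-gX (shf s c H) t (γ t)) t := hγ.snd
  have h3 := ((h1.const_smul s).prodMk h2).const_add c
  rw [gX_shf hH hs, gY_shf hH, smul_smul, hs, one_smul] at h3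
  exact h3

end shift

end Pool.Agent.H60.PO
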