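import Pool.Agent.H60.PO.Flow

/-!
# The generating function of a short-time Hamiltonian flow
-/

set_option autoImplicit false
set_option linter.unusedSectionVars false

open Metric Module Set

namespace Pool.Agent.H60.PO

universe u

variable {V : Type u} [NormedAddCommGroup V] [InnerProductSpace ℝ V] [FiniteDimensional ℝ V]

open scoped RealInnerProductSpace

open Classical in
/-- The initial position in the mixed boundary value problem. -/
noncomputable def xi (E : ℝ → V × V → ℝ → V × V) (s τ : ℝ) (u : V × V) : V :=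
  if h : ∃ x : V, (E s (x, u.2) (s + τ)).1 = u.1 then h.choose else 0

/-- The solution of the mixed boundary value problem. -/
noncomputable def cur (E : ℝ → V × V → ℝ → V × V) (s τ : ℝ) (u : V × V) : ℝ → V × V :=
  E s (xi E s τ u, u.2)

/-- The integrand of the generating function. -/
noncomputable def intg (h : Ham V) (E : ℝ → V × V → ℝ → V × V) (s τ : ℝ) (u : V × V)
    (t : ℝ) : ℝ :=
  ⟪u.2 - (cur E s τ u t).2, h.gy t (cur E s τ u t)⟫ + h.H t (cur E s τ u t)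

/-- The generating function of the time `τ` map from time `s`. -/
noncomputable def gen (h : Ham V) (E : ℝ → V × V → ℝ → V × V) (s τ : ℝ) : Gen V where
  S u := ∫ t in s..(s + τ), intg h E s τ u t
  sx u := u.2 - (cur E s τ u (s + τ)).2
  sy u := u.1 - (cur E s τ u s).1

variable {h : Ham V} {C : ℝ} {E : ℝ → V × V → ℝ → V × V} {s τ : ℝ}

section cur

theorem cur_end (hh : h.OK C) (hE : Evo h E) (hτ : 0 ≤ τ) (hCτ : C * τ ≤ 1 / 8)
    (u : V × V) : (cur E s τ u (s + τ)).1 = u.1 := by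
  have h1 := exists_bvp hh hE (s := s) hτ hCτ u
  unfold cur xi
  rw [dif_pos h1]
  exact h1.choose_spec

theorem cur_init (hE : Evo h E) (u : V × V) : (cur E s τ u s).2 = u.2 := by
  unfold cur
  rw [hE.init]

theorem cur_deriv (hE : Evo h E) (u : V × V) (t : ℝ) :
    HasDerivAt (cur E s τ u) (h.fld t (cur E s τ u t)) t := hE.deriv _ _ _

theorem cur_cont (hE : Evo h E) (u : V × V) : Continuous (cur E s τ u) :=
  continuous_iff_continuousAt.2 fun t => (cur_deriv hE u t).continuousAt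

theorem cur_diff (hh : h.OK C) (hE : Evo h E) (hτ : 0 ≤ τ) (hCτ : C * τ ≤ 1 / 8)
    (u u' : V × V) : ∀ t ∈ Icc s (s + τ), ‖cur E s τ u t - cur E s τ u' t‖ ≤ 2 * ‖u - u'‖ := by
  refine (bvp_bound (δ := fun t => cur E s τ u t - cur E s τ u' t) hτ hh.pos.le
    (hCτ.trans (by norm_num)) (fun t => (cur_deriv hE u t).sub (cur_deriv hE u' t))
    (fun t _ => hh.lip t _ _) ?_ ?_).1
  · rw [Prod.fst_sub, cur_end hh hE hτ hCτ, cur_end hh hE hτ hCτ, ← Prod.fst_sub]
    exact norm_fst_le _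
  · rw [Prod.snd_sub, cur_init hE, cur_init hE, ← Prod.snd_sub]
    exact norm_snd_le _

theorem cur_eq (hh : h.OK C) (hE : Evo h E) (hτ : 0 ≤ τ) (hCτ : C * τ ≤ 1 / 8)
    (u : V × V) {γ : ℝ → V × V} (hγ : ∀ t, HasDerivAt γ (h.fld t (γ t)) t)
    (h1 : (γ (s + τ)).1 = u.1) (h2 : (γ s).2 = u.2) :
    ∀ t ∈ Icc s (s + τ), γ t = cur E s τ u t :=
  sol_unique_bvp hh hτ (hCτ.trans (by norm_num)) hγ (cur_deriv hE u)
    (by rw [h1, cur_end hh hE hτ hCτ]) (by rw [h2, cur_init hE])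

theorem cur_neg (hh : h.OK C) (hE : Evo h E) (hτ : 0 ≤ τ) (hCτ : C * τ ≤ 1 / 8)
    (u : V × V) : ∀ t ∈ Icc s (s + τ), cur E s τ (-u) t = - cur E s τ u t := by
  intro t ht
  refine (cur_eq hh hE hτ hCτ (-u) (γ := fun t => - cur E s τ u t) ?_ ?_ ?_ t ht).symm
  · intro t
    rw [hh.fld_neg]
    exact (cur_deriv hE u t).neg
  · rw [Prod.fst_neg, cur_end hh hE hτ hCτ]; rfl
  · rw [Prod.snd_neg, cur_init hE]; rfl

theorem cur_zero (hh : h.OK C) (hE : Evo h E) (hτ : 0 ≤ τ) (hCτ : C * τ ≤ 1 / 8) :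
    ∀ t ∈ Icc s (s + τ), cur E s τ 0 t = 0 := by
  intro t ht
  refine (cur_eq hh hE hτ hCτ 0 (γ := fun _ => (0 : V × V)) ?_ rfl rfl t ht).symm
  intro t
  have : h.fld t (0 : V × V) = 0 := by
    unfold Ham.fld
    rw [hh.gx_zero, hh.gy_zero, neg_zero]; rfl
  rw [this]
  exact hasDerivAt_const t (0 : V × V)

theorem cur_bound (hh : h.OK C) (hE : Evo h E) (hτ : 0 ≤ τ) (hCτ : C * τ ≤ 1 / 8)
    (u : V × V) : ∀ t ∈ Icc s (s + τ), ‖cur E s τ u t‖ ≤ 2 * ‖u‖ := by
  intro t ht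
  have h1 := cur_diff hh hE hτ hCτ u 0 t ht
  rwa [cur_zero hh hE hτ hCτ t ht, sub_zero, sub_zero] at h1

theorem fld_le (hh : h.OK C) (t : ℝ) (z : V × V) : ‖h.fld t z‖ ≤ C * ‖z‖ := by
  have h1 := hh.lip t z 0
  have h2 : h.fld t (0 : V × V) = 0 := by
    unfold Ham.fld
    rw [hh.gx_zero, hh.gy_zero, neg_zero]; rfl
  rwa [h2, sub_zero, sub_zero] at h1

theorem cur_move (hh : h.OK C) (hE : Evo h E) (hτ : 0 ≤ τ) (hCτ : C * τ ≤ 1 / 8)
    (u : V × V) : ∀ t ∈ Icc s (s + τ), ∀ t' ∈ Icc s (s + τ),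
      ‖cur E s τ u t - cur E s τ u t'‖ ≤ 2 * (C * τ) * ‖u‖ := by
  refine (bvp_bound (δ := cur E s τ u) hτ hh.pos.le
    (hCτ.trans (by norm_num)) (cur_deriv hE u) (fun t _ => fld_le hh t _) ?_ ?_).2
  · rw [cur_end hh hE hτ hCτ]
    exact norm_fst_le _
  · rw [cur_init hE]
    exact norm_snd_le _

theorem fld_bdd (hh : h.OK C) (t : ℝ) (z : V × V) : ‖h.fld t z‖ ≤ C := by
  unfold Ham.fld
  rw [Prod.norm_def]
  refine max_le (hh.by' t z) ?_
  rw [norm_neg]
  exact hh.bx t z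

theorem cur_move' (hh : h.OK C) (hE : Evo h E) (u : V × V) {t t' : ℝ}
    (ht : t ∈ Icc s (s + τ)) (ht' : t' ∈ Icc s (s + τ)) :
      ‖cur E s τ u t - cur E s τ u t'‖ ≤ C * τ := by
  have h1 := Convex.norm_image_sub_le_of_norm_hasDerivWithin_le (f := cur E s τ u)
    (f' := fun t => h.fld t (cur E s τ u t)) (s := Icc s (s + τ))
    (C := C) (fun x _ => (cur_deriv hE u x).hasDerivWithinAt)
    (fun x _ => fld_bdd hh x _) (convex_Icc s (s + τ)) ht' ht
  refine h1.trans (mul_le_mul_of_nonneg_left ?_ hh.pos.le)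
  rw [Real.norm_eq_abs, abs_le]
  constructor <;> linarith [ht.1, ht.2, ht'.1, ht'.2]

theorem cur_H_cont (hh : h.OK C) (hE : Evo h E) (u : V × V) :
    Continuous fun t => h.H t (cur E s τ u t) :=
  hh.cH.comp (continuous_id.prodMk (cur_cont hE u))

theorem cur_gx_cont (hh : h.OK C) (hE : Evo h E) (u : V × V) :
    Continuous fun t => h.gx t (cur E s τ u t) :=
  hh.cx.comp (continuous_id.prodMk (cur_cont hE u))

theorem cur_gy_cont (hh : h.OK C) (hE : Evo h E) (u : V × V) :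
    Continuous fun t => h.gy t (cur E s τ u t) :=
  hh.cy.comp (continuous_id.prodMk (cur_cont hE u))

theorem intg_cont (hh : h.OK C) (hE : Evo h E) (u : V × V) : Continuous (intg h E s τ u) := by
  unfold intg
  exact ((continuous_const.sub (cur_cont hE u).snd).inner (cur_gy_cont hh hE u)).add
    (cur_H_cont hh hE u)

end cur

theorem lt_aux (hτ : 0 ≤ τ) : s ∈ Icc s (s + τ) := ⟨le_rfl, by linarith⟩
theorem rt_aux (hτ : 0 ≤ τ) : s + τ ∈ Icc s (s + τ) := ⟨by linarith, le_rfl⟩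

theorem gen_taylor (hh : h.OK C) (hE : Evo h E) (hτ : 0 ≤ τ) (hCτ : C * τ ≤ 1 / 8)
    (u k : V × V) :
    |(gen h E s τ).S (u + k) - (gen h E s τ).S u - ⟪(gen h E s τ).sx u, k.1⟫ -
      ⟪(gen h E s τ).sy u, k.2⟫| ≤ 2 * ‖k‖ ^ 2 := by
  set γ := cur E s τ u with hγ
  set γ' := cur E s τ (u + k) with hγ'
  let F : ℝ → ℝ := fun t => (∫ r in s..t, (intg h E s τ (u + k) r - intg h E s τ u r)) -
    (⟪k.2, (γ t).1⟫ + ⟪u.2 - (γ t).2, (γ' t).1 - (γ t).1⟫)
  let F' : ℝ → ℝ := fun t => (intg h E s τ (u + k) t - intg h E s τ u t) -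
    (⟪k.2, h.gy t (γ t)⟫ + (⟪u.2 - (γ t).2, h.gy t (γ' t) - h.gy t (γ t)⟫ +
      ⟪h.gx t (γ t), (γ' t).1 - (γ t).1⟫))
  have hcont : Continuous fun r => intg h E s τ (u + k) r - intg h E s τ u r :=
    (intg_cont hh hE (u + k)).sub (intg_cont hh hE u)
  have hF : ∀ t, HasDerivAt F (F' t) t := by
    intro t
    have d1 : HasDerivAt (fun t => ∫ r in s..t, (intg h E s τ (u + k) r - intg h E s τ u r))
        (intg h E s τ (u + k) t - intg h E s τ u t) t :=
      intervalIntegral.integral_hasDerivAt_right (hcont.intervalIntegrable _ _)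
        hcont.stronglyMeasurable.stronglyMeasurableAtFilter hcont.continuousAt
    have dγ : HasDerivAt γ (h.fld t (γ t)) t := cur_deriv hE u t
    have dγ' : HasDerivAt γ' (h.fld t (γ' t)) t := cur_deriv hE (u + k) t
    have d2 : HasDerivAt (fun t => (γ t).1) (h.gy t (γ t)) t := dγ.fst
    have d3 : HasDerivAt (fun t => (γ t).2) (-h.gx t (γ t)) t := dγ.snd
    have d4 : HasDerivAt (fun t => (γ' t).1) (h.gy t (γ' t)) t := dγ'.fst
    have d5 : HasDerivAt (fun t => (⟪k.2, (γ t).1⟫ : ℝ)) ⟪k.2, h.gy t (γ t)⟫ t := by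
      have := (hasDerivAt_const t k.2).inner ℝ d2
      simpa using this
    have d6 : HasDerivAt (fun t => (⟪u.2 - (γ t).2, (γ' t).1 - (γ t).1⟫ : ℝ))
        (⟪u.2 - (γ t).2, h.gy t (γ' t) - h.gy t (γ t)⟫ +
          ⟪h.gx t (γ t), (γ' t).1 - (γ t).1⟫) t := by
      have := ((d3.const_sub u.2).inner ℝ (d4.sub d2))
      rw [neg_neg] at this
      exact this
    exact d1.sub (d5.add d6)
  have hF' : ∀ t ∈ Icc s (s + τ), ‖F' t‖ ≤ 10 * C * ‖k‖ ^ 2 := by
    intro t ht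
    have e : F' t = ⟪k.2 - ((γ' t).2 - (γ t).2), h.gy t (γ' t) - h.gy t (γ t)⟫ +
        (h.H t (γ t + (γ' t - γ t)) - h.H t (γ t) - ⟪h.gx t (γ t), (γ' t - γ t).1⟫ -
          ⟪h.gy t (γ t), (γ' t - γ t).2⟫) := by
      change ((⟪(u + k).2 - (γ' t).2, h.gy t (γ' t)⟫ + h.H t (γ' t)) -
        (⟪u.2 - (γ t).2, h.gy t (γ t)⟫ + h.H t (γ t))) - _ = _
      have e1 : γ t + (γ' t - γ t) = γ' t := by abel
      rw [e1, Prod.fst_sub, Prod.snd_sub, Prod.snd_add]
      simp only [inner_sub_left, inner_sub_right, inner_add_left]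
      have s1 : ⟪h.gy t (γ t), (γ' t).2⟫ = ⟪(γ' t).2, h.gy t (γ t)⟫ := real_inner_comm _ _
      have s2 : ⟪h.gy t (γ t), (γ t).2⟫ = ⟪(γ t).2, h.gy t (γ t)⟫ := real_inner_comm _ _
      rw [s1, s2]
      ring
    have hd : ‖γ' t - γ t‖ ≤ 2 * ‖k‖ := by
      have := cur_diff hh hE hτ hCτ (u + k) u t ht
      rwa [add_sub_cancel_left] at this
    have b1 : ‖k.2 - ((γ' t).2 - (γ t).2)‖ ≤ 3 * ‖k‖ := by
      refine (norm_sub_le _ _).trans ?_
      have h1 : ‖k.2‖ ≤ ‖k‖ := norm_snd_le k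
      have h2 : ‖(γ' t).2 - (γ t).2‖ ≤ 2 * ‖k‖ := by
        rw [← Prod.snd_sub]; exact (norm_snd_le _).trans hd
      linarith
    have b2 : ‖h.gy t (γ' t) - h.gy t (γ t)‖ ≤ C * (2 * ‖k‖) :=
      (hh.ly t _ _).trans (mul_le_mul_of_nonneg_left hd hh.pos.le)
    have b3 := abs_real_inner_le_norm (k.2 - ((γ' t).2 - (γ t).2))
      (h.gy t (γ' t) - h.gy t (γ t))
    have b4 : ‖k.2 - ((γ' t).2 - (γ t).2)‖ * ‖h.gy t (γ' t) - h.gy t (γ t)‖ ≤
        (3 * ‖k‖) * (C * (2 * ‖k‖)) := by gcongr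
    have b5 := hh.tay t (γ t) (γ' t - γ t)
    have b6 : C * ‖γ' t - γ t‖ ^ 2 ≤ C * (2 * ‖k‖) ^ 2 := by
      have := hh.pos
      gcongr
    rw [e, Real.norm_eq_abs]
    refine (abs_add_le _ _).trans ?_
    have := (b3.trans b4)
    have := b5.trans b6
    nlinarith
  have hmv := Convex.norm_image_sub_le_of_norm_hasDerivWithin_le (f := F) (f' := F')
    (s := Icc s (s + τ)) (C := 10 * C * ‖k‖ ^ 2) (fun x _ => (hF x).hasDerivWithinAt) hF'
    (convex_Icc s (s + τ)) (lt_aux hτ) (rt_aux hτ)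
  have e1 : F (s + τ) - F s = (gen h E s τ).S (u + k) - (gen h E s τ).S u -
      ⟪(gen h E s τ).sx u, k.1⟫ - ⟪(gen h E s τ).sy u, k.2⟫ := by
    change ((∫ r in s..(s + τ), (intg h E s τ (u + k) r - intg h E s τ u r)) -
      (⟪k.2, (γ (s + τ)).1⟫ + ⟪u.2 - (γ (s + τ)).2, (γ' (s + τ)).1 - (γ (s + τ)).1⟫)) -
      ((∫ r in s..s, (intg h E s τ (u + k) r - intg h E s τ u r)) -
      (⟪k.2, (γ s).1⟫ + ⟪u.2 - (γ s).2, (γ' s).1 - (γ s).1⟫)) = _
    rw [intervalIntegral.integral_same, intervalIntegral.integral_sub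
      ((intg_cont hh hE (u + k)).intervalIntegrable _ _)
      ((intg_cont hh hE u).intervalIntegrable _ _)]
    have a1 : (γ (s + τ)).1 = u.1 := cur_end hh hE hτ hCτ u
    have a2 : (γ' (s + τ)).1 = (u + k).1 := cur_end hh hE hτ hCτ (u + k)
    have a3 : (γ s).2 = u.2 := cur_init hE u
    have a4 : (gen h E s τ).S (u + k) = ∫ t in s..(s + τ), intg h E s τ (u + k) t := rfl
    have a5 : (gen h E s τ).S u = ∫ t in s..(s + τ), intg h E s τ u t := rfl
    have a6 : (gen h E s τ).sx u = u.2 - (γ (s + τ)).2 := rfl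
    have a7 : (gen h E s τ).sy u = u.1 - (γ s).1 := rfl
    rw [a4, a5, a6, a7, a1, a2, a3, sub_self, inner_zero_left, Prod.fst_add, add_sub_cancel_left,
      inner_sub_left]
    have s1 : ⟪u.1, k.2⟫ = ⟪k.2, u.1⟫ := real_inner_comm _ _
    have s2 : ⟪(γ s).1, k.2⟫ = ⟪k.2, (γ s).1⟫ := real_inner_comm _ _
    rw [inner_sub_left (u.1), s1, s2]
    ring
  rw [e1, Real.norm_eq_abs, add_sub_cancel_left, Real.norm_eq_abs, abs_of_nonneg hτ] at hmv
  refine hmv.trans ?_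
  have : 0 ≤ ‖k‖ ^ 2 := sq_nonneg _
  nlinarith

theorem intg_neg (hh : h.OK C) (hE : Evo h E) (hτ : 0 ≤ τ) (hCτ : C * τ ≤ 1 / 8)
    (u : V × V) : ∀ t ∈ Icc s (s + τ), intg h E s τ (-u) t = intg h E s τ u t := by
  intro t ht
  unfold intg
  rw [cur_neg hh hE hτ hCτ u t ht, hh.oy, hh.evn]
  have : (-u).2 - (-cur E s τ u t).2 = -(u.2 - (cur E s τ u t).2) := by
    rw [Prod.snd_neg, Prod.snd_neg]; abel
  rw [this, inner_neg_neg]

theorem intg_bdd (hh : h.OK C) (hE : Evo h E) (hτ : 0 ≤ τ) (hCτ : C * τ ≤ 1 / 8)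
    (u : V × V) : ∀ t ∈ Icc s (s + τ), ‖intg h E s τ u t‖ ≤ 2 * C := by
  intro t ht
  unfold intg
  rw [Real.norm_eq_abs]
  refine (abs_add_le _ _).trans ?_
  have h1 := abs_real_inner_le_norm (u.2 - (cur E s τ u t).2) (h.gy t (cur E s τ u t))
  have h2 : ‖u.2 - (cur E s τ u t).2‖ ≤ 1 / 8 := by
    have h3 := cur_move' hh hE u (lt_aux (s := s) hτ) ht
    have h4 : u.2 - (cur E s τ u t).2 = (cur E s τ u s - cur E s τ u t).2 := by
      rw [Prod.snd_sub, cur_init hE]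
    rw [h4]
    exact (norm_snd_le _).trans (h3.trans hCτ)
  have h3 := hh.by' t (cur E s τ u t)
  have h4 : ‖u.2 - (cur E s τ u t).2‖ * ‖h.gy t (cur E s τ u t)‖ ≤ 1 / 8 * C := by gcongr
  have h5 := hh.bH t (cur E s τ u t)
  have := hh.pos
  linarith

theorem gen_ok (hh : h.OK C) (hE : Evo h E) (hτ : 0 ≤ τ) (hCτ : C * τ ≤ 1 / 8) :
    (gen h E s τ).OK 1 2 := by
  have htay := gen_taylor (s := s) hh hE hτ hCτ
  have hsx : ∀ u u', ‖(gen h E s τ).sx u - (gen h E s τ).sx u'‖ ≤ 3 * ‖u - u'‖ := by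
    intro u u'
    change ‖u.2 - (cur E s τ u (s + τ)).2 - (u'.2 - (cur E s τ u' (s + τ)).2)‖ ≤ _
    have h1 := cur_diff hh hE hτ hCτ u u' (s + τ) (rt_aux hτ)
    have e : u.2 - (cur E s τ u (s + τ)).2 - (u'.2 - (cur E s τ u' (s + τ)).2) =
        (u - u').2 - (cur E s τ u (s + τ) - cur E s τ u' (s + τ)).2 := by
      rw [Prod.snd_sub, Prod.snd_sub]; abel
    rw [e]
    refine (norm_sub_le _ _).trans ?_
    have h2 : ‖(u - u').2‖ ≤ ‖u - u'‖ := norm_snd_le _
    have h3 := (norm_snd_le (cur E s τ u (s + τ) - cur E s τ u' (s + τ))).trans h1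
    linarith
  have hsy : ∀ u u', ‖(gen h E s τ).sy u - (gen h E s τ).sy u'‖ ≤ 3 * ‖u - u'‖ := by
    intro u u'
    change ‖u.1 - (cur E s τ u s).1 - (u'.1 - (cur E s τ u' s).1)‖ ≤ _
    have h1 := cur_diff hh hE hτ hCτ u u' s (lt_aux hτ)
    have e : u.1 - (cur E s τ u s).1 - (u'.1 - (cur E s τ u' s).1) =
        (u - u').1 - (cur E s τ u s - cur E s τ u' s).1 := by
      rw [Prod.fst_sub, Prod.fst_sub]; abel
    rw [e]
    refine (norm_sub_le _ _).trans ?_
    have h2 : ‖(u - u').1‖ ≤ ‖u - u'‖ := norm_fst_le _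
    have h3 := (norm_fst_le (cur E s τ u s - cur E s τ u' s)).trans h1
    linarith
  have hbx : ∀ u, ‖(gen h E s τ).sx u‖ ≤ 1 := by
    intro u
    have h3 := cur_move' hh hE u (lt_aux (s := s) hτ) (rt_aux hτ)
    have h4 : (gen h E s τ).sx u = (cur E s τ u s - cur E s τ u (s + τ)).2 := by
      rw [Prod.snd_sub, cur_init hE]; rfl
    rw [h4]
    exact (norm_snd_le _).trans (h3.trans (hCτ.trans (by norm_num)))
  have hby : ∀ u, ‖(gen h E s τ).sy u‖ ≤ 1 := by
    intro u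
    have h3 := cur_move' hh hE u (rt_aux (s := s) hτ) (lt_aux hτ)
    have h4 : (gen h E s τ).sy u = (cur E s τ u (s + τ) - cur E s τ u s).1 := by
      rw [Prod.fst_sub, cur_end hh hE hτ hCτ]; rfl
    rw [h4]
    exact (norm_fst_le _).trans (h3.trans (hCτ.trans (by norm_num)))
  refine ⟨?_, ?_, ?_, htay, ?_, ?_, ?_, ?_, hbx, hby, ?_⟩
  · rw [continuous_iff_continuousAt]
    intro u
    rw [ContinuousAt, tendsto_iff_norm_sub_tendsto_zero]
    have h1 : ∀ u', ‖(gen h E s τ).S u' - (gen h E s τ).S u‖ ≤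
        2 * ‖u' - u‖ + 2 * ‖u' - u‖ ^ 2 := by
      intro u'
      have h2 := htay u (u' - u)
      rw [add_sub_cancel] at h2
      have h3 := abs_real_inner_le_norm ((gen h E s τ).sx u) (u' - u).1
      have h4 := abs_real_inner_le_norm ((gen h E s τ).sy u) (u' - u).2
      have h5 : ‖(gen h E s τ).sx u‖ * ‖(u' - u).1‖ ≤ 1 * ‖u' - u‖ :=
        mul_le_mul (hbx u) (norm_fst_le _) (norm_nonneg _) zero_le_one
      have h6 : ‖(gen h E s τ).sy u‖ * ‖(u' - u).2‖ ≤ 1 * ‖u' - u‖ :=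
        mul_le_mul (hby u) (norm_snd_le _) (norm_nonneg _) zero_le_one
      rw [Real.norm_eq_abs, abs_le]
      rw [abs_le] at h2 h3 h4
      constructor <;> linarith [h2.1, h2.2, h3.1, h3.2, h4.1, h4.2]
    have h2 : Filter.Tendsto (fun u' => 2 * ‖u' - u‖ + 2 * ‖u' - u‖ ^ 2) (nhds u) (nhds 0) := by
      have : Continuous fun u' : V × V => 2 * ‖u' - u‖ + 2 * ‖u' - u‖ ^ 2 := by fun_prop
      have := this.tendsto u
      simpa using this
    exact squeeze_zero (fun _ => norm_nonneg _) h1 h2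
  · exact (LipschitzWith.of_dist_le_mul (K := 3) fun u u' => by
      rw [dist_eq_norm, dist_eq_norm]; exact hsx u u').continuous
  · exact (LipschitzWith.of_dist_le_mul (K := 3) fun u u' => by
      rw [dist_eq_norm, dist_eq_norm]; exact hsy u u').continuous
  · intro u
    refine intervalIntegral.integral_congr fun t ht => ?_
    rw [uIcc_of_le (by linarith)] at ht
    exact intg_neg hh hE hτ hCτ u t ht
  · intro u
    change (-u).2 - (cur E s τ (-u) (s + τ)).2 = -(u.2 - (cur E s τ u (s + τ)).2)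
    rw [cur_neg hh hE hτ hCτ u _ (rt_aux hτ), Prod.snd_neg, Prod.snd_neg]
    abel
  · intro u
    change (-u).1 - (cur E s τ (-u) s).1 = -(u.1 - (cur E s τ u s).1)
    rw [cur_neg hh hE hτ hCτ u _ (lt_aux hτ), Prod.fst_neg, Prod.fst_neg]
    abel
  · intro u
    have h1 := intervalIntegral.norm_integral_le_of_norm_le_const (a := s) (b := s + τ)
      (C := 2 * C) (f := intg h E s τ u) (fun t ht => by
        rw [uIoc_of_le (by linarith)] at ht
        exact intg_bdd hh hE hτ hCτ u t ⟨ht.1.le, ht.2⟩)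
    rw [add_sub_cancel_left, abs_of_nonneg hτ, Real.norm_eq_abs] at h1
    exact h1.trans (by linarith)
  · change ∫ t in s..(s + τ), intg h E s τ 0 t = 0
    refine (intervalIntegral.integral_congr (g := fun _ => (0 : ℝ)) fun t ht => ?_).trans ?_
    · rw [uIcc_of_le (by linarith)] at ht
      change intg h E s τ 0 t = 0
      unfold intg
      rw [cur_zero hh hE hτ hCτ t ht, hh.zero, sub_self, inner_zero_left, add_zero]
    · simp

/-- The step map is generated by `gen`. -/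
theorem gen_rel (hh : h.OK C) (hE : Evo h E) (hτ : 0 ≤ τ) (hCτ : C * τ ≤ 1 / 8) :
    Rel (gen h E s τ) (fun z => E s z (s + τ)) := by
  intro x y x' y' h1 h2
  have e1 : (gen h E s τ).sy (x', y) = x' - xi E s τ (x', y) := by
    change x' - (cur E s τ (x', y) s).1 = _
    unfold cur
    rw [hE.init]
  rw [e1] at h1
  have e2 : x = xi E s τ (x', y) := by
    have : x = (x + (x' - xi E s τ (x', y))) - x' + xi E s τ (x', y) := by abel
    rw [this, ← h1]; abel
  have e3 : E s (x, y) (s + τ) = cur E s τ (x', y) (s + τ) := by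
    unfold cur
    rw [← e2]
  change E s (x, y) (s + τ) = (x', y')
  rw [e3]
  refine Prod.ext (cur_end hh hE hτ hCτ (x', y)) ?_
  rw [h2]
  change (cur E s τ (x', y) (s + τ)).2 = y - (y - (cur E s τ (x', y) (s + τ)).2)
  abel

/-- Oddness of the step map. -/
theorem step_odd (hh : h.OK C) (hE : Evo h E) (hτ : 0 ≤ τ) (hCτ : C * τ ≤ 1 / 8) (z : V × V) :
    E s (-z) (s + τ) = - E s z (s + τ) := by
  refine sol_unique hh hτ (hCτ.trans (by norm_num)) (hE.deriv s (-z))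
    (γ' := fun t => - E s z t) ?_ ?_ _ (rt_aux hτ)
  · intro t
    rw [hh.fld_neg]
    exact (hE.deriv s z t).neg
  · rw [hE.init, hE.init]

/-- Equivariance of the step map. -/
theorem step_equiv (hh : h.OK C) (hE : Evo h E) (hτ : 0 ≤ τ) (hCτ : C * τ ≤ 1 / 8)
    {e : V × V} (hper : ∀ t z, h.fld t (z + e) = h.fld t z) (z : V × V) :
    E s (z + e) (s + τ) = E s z (s + τ) + e := by
  refine sol_unique hh hτ (hCτ.trans (by norm_num)) (hE.deriv s (z + e))
    (γ' := fun t => E s z t + e) ?_ ?_ _ (rt_aux hτ)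
  · intro t
    rw [hper]
    exact (hE.deriv s z t).add_const e
  · rw [hE.init, hE.init]

/-- Composition of steps. -/
theorem step_comp (hh : h.OK C) (hE : Evo h E) (hτ : 0 ≤ τ) (hCτ : C * τ ≤ 1 / 8) (r : ℝ)
    (z : V × V) : E s (E r z s) (s + τ) = E r z (s + τ) := by
  refine sol_unique hh hτ (hCτ.trans (by norm_num)) (hE.deriv s (E r z s))
    (hE.deriv r z) ?_ _ (rt_aux hτ)
  rw [hE.init]

end Pool.Agent.H60.PO
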